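import Mathlib

/-!
# Module NUM: a sum of widely separated powers does not vanish
-/

namespace FComp

open Filter

/-- HINT: for large `n` the exponents are pairwise at distance `≥ M`, `p ^ M > |f i|` for all `i`;
divide by the smallest power: the rest is an integer congruent to `f i₀` modulo `p ^ M`. -/
theorem num_sep {ι : Type} (p : ℕ) (hp : 2 ≤ p) (f : ι →₀ ℤ) (hf : f ≠ 0) (E : ℕ → ι → ℤ)
    (hE : ∀ i j, i ≠ j → ∀ M : ℤ, ∀ᶠ n in atTop, M ≤ |E n i - E n j|) :
    ∀ᶠ n in atTop, (f.sum fun i c => (c : ℚ) * (p : ℚ) ^ (E n i)) ≠ 0 := by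
  classical
  set S := f.support with hS
  have hSne : S.Nonempty := by
    rw [hS, Finsupp.support_nonempty_iff]
    exact hf
  set M : ℕ := (∑ i ∈ S, (f i).natAbs) + 1 with hM
  have hbig : ∀ i ∈ S, (f i).natAbs < p ^ M := by
    intro i hi
    have h1 : (f i).natAbs ≤ ∑ i ∈ S, (f i).natAbs :=
      Finset.single_le_sum (f := fun i => (f i).natAbs) (fun _ _ => Nat.zero_le _) hi
    have h2 : M < p ^ M := Nat.lt_pow_self (by omega)
    omega
  have hev : ∀ᶠ n in atTop, ∀ i ∈ S, ∀ j ∈ S, i ≠ j → (M : ℤ) ≤ |E n i - E n j| := by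
    rw [Filter.eventually_all_finset]
    intro i _
    rw [Filter.eventually_all_finset]
    intro j _
    by_cases hij : i = j
    · exact Eventually.of_forall fun n h => (h hij).elim
    · exact (hE i j hij M).mono fun n h _ => h
  filter_upwards [hev] with n hn hzero
  obtain ⟨i0, hi0, hmin⟩ := S.exists_min_image (E n) hSne
  have hp0 : (p : ℚ) ≠ 0 := by
    have : p ≠ 0 := by omega
    exact_mod_cast this
  -- the exponents
  set d : ι → ℕ := fun i => (E n i - E n i0).toNat with hd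
  have hdE : ∀ i ∈ S, ((d i : ℕ) : ℤ) = E n i - E n i0 := by
    intro i hi
    have := hmin i hi
    simp only [hd]
    exact Int.toNat_of_nonneg (by omega)
  have hsum : ((∑ i ∈ S, f i * (p : ℤ) ^ (d i) : ℤ) : ℚ) = 0 := by
    have h1 : (f.sum fun i c => (c : ℚ) * (p : ℚ) ^ (E n i)) =
        (p : ℚ) ^ (E n i0) * ((∑ i ∈ S, f i * (p : ℤ) ^ (d i) : ℤ) : ℚ) := by
      rw [Finsupp.sum]
      push_cast
      rw [Finset.mul_sum]
      apply Finset.sum_congr rfl
      intro i hi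
      have h2 : (p : ℚ) ^ (E n i) = (p : ℚ) ^ (E n i0) * (p : ℚ) ^ (d i) := by
        rw [← zpow_natCast (p : ℚ) (d i), hdE i hi, ← zpow_add₀ hp0]
        congr 1
        ring
      rw [h2]
      ring
    rw [h1] at hzero
    rcases mul_eq_zero.1 hzero with h | h
    · exact absurd h (zpow_ne_zero _ hp0)
    · exact h
  have hsumZ : ∑ i ∈ S, f i * (p : ℤ) ^ (d i) = 0 := by exact_mod_cast hsum
  have hdvd : (p : ℤ) ^ M ∣ f i0 := by
    rw [← Finset.add_sum_erase S _ hi0] at hsumZ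
    have hd0 : d i0 = 0 := by simp [hd]
    rw [hd0, pow_zero, mul_one] at hsumZ
    have h2 : (p : ℤ) ^ M ∣ ∑ i ∈ S.erase i0, f i * (p : ℤ) ^ (d i) := by
      apply Finset.dvd_sum
      intro i hi
      rw [Finset.mem_erase] at hi
      apply Dvd.dvd.mul_left
      apply pow_dvd_pow
      have h3 := hn i hi.2 i0 hi0 hi.1
      have h4 := hdE i hi.2
      have h5 : |E n i - E n i0| = E n i - E n i0 := by
        rw [← h4]
        exact abs_of_nonneg (Int.natCast_nonneg _)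
      rw [h5, ← h4] at h3
      exact_mod_cast h3
    have h3 : f i0 = - ∑ i ∈ S.erase i0, f i * (p : ℤ) ^ (d i) := by linarith
    rw [h3]
    exact (dvd_neg).2 h2
  have hne : f i0 ≠ 0 := Finsupp.mem_support_iff.1 hi0
  have h1 := Int.natAbs_dvd_natAbs.2 hdvd
  rw [Int.natAbs_pow, Int.natAbs_natCast] at h1
  have h2 := Nat.le_of_dvd (Int.natAbs_pos.2 hne) h1
  have := hbig i0 hi0
  omega

/-- The exponents used for `BS p`. -/
def Ex (n : ℕ) (i : ℤ × ℤ × Bool) : ℤ :=
  (if i.2.2 then (n : ℤ) ^ 3 else 0) - ((n : ℤ) * i.1 + ((n : ℤ) ^ 2 + 1) * i.2.1)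

theorem NumLem_poly (a b c : ℤ) (h : ¬ (a = 0 ∧ b = 0 ∧ c = 0)) (M : ℤ) :
    ∀ᶠ n : ℕ in atTop, M ≤ |a * (n : ℤ) ^ 3 + b * ((n : ℤ) ^ 2 + 1) + c * (n : ℤ)| := by
  set P : Polynomial ℝ := Polynomial.C (a : ℝ) * Polynomial.X ^ 3 +
    Polynomial.C (b : ℝ) * Polynomial.X ^ 2 + Polynomial.C (c : ℝ) * Polynomial.X ^ 1 +
    Polynomial.C (b : ℝ) * Polynomial.X ^ 0 with hP
  have hdeg : 0 < P.degree := by
    have key : ∀ k : ℕ, 1 ≤ k → P.coeff k ≠ 0 → 0 < P.degree := by
      intro k hk hc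
      have := Polynomial.le_degree_of_ne_zero hc
      refine lt_of_lt_of_le ?_ this
      exact_mod_cast hk
    by_cases ha : a = 0
    · by_cases hb : b = 0
      · have hc : c ≠ 0 := fun hc => h ⟨ha, hb, hc⟩
        apply key 1 le_rfl
        rw [hP]
        simp only [Polynomial.coeff_add, Polynomial.coeff_C_mul_X_pow]
        norm_num
        exact_mod_cast hc
      · apply key 2 (by norm_num)
        rw [hP]
        simp only [Polynomial.coeff_add, Polynomial.coeff_C_mul_X_pow]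
        norm_num
        exact_mod_cast hb
    · apply key 3 (by norm_num)
      rw [hP]
      simp only [Polynomial.coeff_add, Polynomial.coeff_C_mul_X_pow]
      norm_num
      exact_mod_cast ha
  have h1 : Tendsto (fun x : ℝ => |Polynomial.eval x P|) atTop atTop :=
    P.abs_tendsto_atTop hdeg
  have h2 := (h1.comp tendsto_natCast_atTop_atTop).eventually (eventually_ge_atTop (M : ℝ))
  filter_upwards [h2] with n hn
  simp only [Function.comp, hP, Polynomial.eval_add, Polynomial.eval_mul, Polynomial.eval_C,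
    Polynomial.eval_pow, Polynomial.eval_X] at hn
  have e : (a : ℝ) * (n : ℝ) ^ 3 + b * (n : ℝ) ^ 2 + c * (n : ℝ) ^ 1 + b * (n : ℝ) ^ 0 =
      ((a * (n : ℤ) ^ 3 + b * ((n : ℤ) ^ 2 + 1) + c * (n : ℤ) : ℤ) : ℝ) := by
    push_cast
    ring
  rw [e] at hn
  exact_mod_cast hn

theorem ex_sep (i j : ℤ × ℤ × Bool) (h : i ≠ j) (M : ℤ) :
    ∀ᶠ n in atTop, M ≤ |Ex n i - Ex n j| := by
  set a : ℤ := (if i.2.2 then 1 else 0) - (if j.2.2 then 1 else 0) with ha
  have h1 := NumLem_poly a (j.2.1 - i.2.1) (j.1 - i.1) (by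
    rintro ⟨h1, h2, h3⟩
    apply h
    have e3 : i.2.2 = j.2.2 := by
      rw [ha] at h1
      cases hi : i.2.2 <;> cases hj : j.2.2 <;> simp_all
    have e1 : i.1 = j.1 := by omega
    have e2 : i.2.1 = j.2.1 := by omega
    exact Prod.ext e1 (Prod.ext e2 e3)) M
  filter_upwards [h1] with n hn
  refine hn.trans (le_of_eq ?_)
  congr 1
  rw [ha]
  unfold Ex
  cases i.2.2 <;> cases j.2.2 <;> simp <;> ring

/-- `n i + (n² + 1) j` does not vanish for large `n`. -/
theorem lin_sep (i j : ℤ) (h : (i, j) ≠ (0, 0)) :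
    ∀ᶠ n : ℕ in atTop, (n : ℤ) * i + ((n : ℤ) ^ 2 + 1) * j ≠ 0 := by
  have h1 := NumLem_poly 0 j i (by
    rintro ⟨-, h1, h2⟩
    apply h
    rw [h1, h2]) 1
  filter_upwards [h1] with n hn h0
  have e : (0 : ℤ) * (n : ℤ) ^ 3 + j * ((n : ℤ) ^ 2 + 1) + i * (n : ℤ) =
      (n : ℤ) * i + ((n : ℤ) ^ 2 + 1) * j := by ring
  rw [e, h0] at hn
  simp at hn

end FComp
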