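import Pool.Agent.FComp.Lamp

/-!
# Module RELH: the universal property of `ℤ² ≀ ℤ²`
-/

namespace FComp

/-- A family of commuting elements gives a homomorphism on finitely supported functions. -/
theorem RH_free {Γ : Type} [Group Γ] {ι : Type} (c : ι → Γ) (hc : ∀ i j, Commute (c i) (c j)) :
    ∃ φ : Multiplicative (ι →₀ ℤ) →* Γ,
      ∀ (i : ι) (m : ℤ), φ (Multiplicative.ofAdd (Finsupp.single i m)) = (c i) ^ m := by
  classical
  let K : Subgroup Γ := Subgroup.closure (Set.range c)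
  letI : CommGroup K := Subgroup.closureCommGroupOfComm (k := Set.range c) (by
    rintro _ ⟨i, rfl⟩ _ ⟨j, rfl⟩
    exact hc i j)
  have hmem : ∀ i, c i ∈ K := fun i => Subgroup.subset_closure ⟨i, rfl⟩
  let ψ : (ι →₀ ℤ) →+ Additive K :=
    Finsupp.liftAddHom (fun i => zmultiplesHom (Additive K) (Additive.ofMul ⟨c i, hmem i⟩))
  let φ : Multiplicative (ι →₀ ℤ) →* K := AddMonoidHom.toMultiplicativeLeft ψ
  refine ⟨K.subtype.comp φ, fun i m => ?_⟩
  show ((Additive.toMul (ψ (Finsupp.single i m)) : K) : Γ) = _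
  have h : ψ (Finsupp.single i m) = m • Additive.ofMul ⟨c i, hmem i⟩ := by
    simp only [ψ]
    rw [Finsupp.liftAddHom_apply_single, zmultiplesHom_apply]
  rw [h, toMul_zsmul]
  simp

/-- The universal property. HINT: `SemidirectProduct.lift`; the conjugates
`x ^ i * y ^ j * g ε * (x ^ i * y ^ j)⁻¹` commute with each other, so the subgroup which they
generate is commutative (`Subgroup.closureCommGroupOfComm`) and `Finsupp.liftAddHom` gives the
homomorphism on the lamps. -/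
theorem rel_hom {Γ : Type} [Group Γ] (g : Bool → Γ) (x y : Γ) (hxy : Commute x y)
    (hc : ∀ (ε ε' : Bool) (i j : ℤ),
      Commute (g ε) (x ^ i * y ^ j * g ε' * (x ^ i * y ^ j)⁻¹)) :
    ∃ Φ : Lam →* Γ, (∀ ε, Φ (lamp ε) = g ε) ∧ (∀ z : ℤ × ℤ, Φ (mv z) = x ^ z.1 * y ^ z.2) ∧
      ∀ (i j : ℤ) (ε : Bool) (m : ℤ),
        Φ (SemidirectProduct.inl (Multiplicative.ofAdd (Finsupp.single ((i, j, ε) : Idx) m))) =
          (x ^ i * y ^ j * g ε * (x ^ i * y ^ j)⁻¹) ^ m := by
  classical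
  have hxy' : ∀ i j : ℤ, Commute (x ^ i) (y ^ j) := fun i j => (hxy.zpow_left i).zpow_right j
  -- the shift homomorphism
  have hadd : ∀ z w : ℤ × ℤ, x ^ (z.1 + w.1) * y ^ (z.2 + w.2) =
      (x ^ z.1 * y ^ z.2) * (x ^ w.1 * y ^ w.2) := by
    intro z w
    rw [zpow_add, zpow_add]
    have := (hxy' w.1 z.2).eq
    calc x ^ z.1 * x ^ w.1 * (y ^ z.2 * y ^ w.2) = x ^ z.1 * (x ^ w.1 * y ^ z.2) * y ^ w.2 := by
          group
      _ = x ^ z.1 * (y ^ z.2 * x ^ w.1) * y ^ w.2 := by rw [this]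
      _ = _ := by group
  let f₂ : Multiplicative (ℤ × ℤ) →* Γ :=
    { toFun := fun z => x ^ z.toAdd.1 * y ^ z.toAdd.2
      map_one' := by simp
      map_mul' := fun z w => hadd z.toAdd w.toAdd }
  have hf₂ : ∀ z : ℤ × ℤ, f₂ (Multiplicative.ofAdd z) = x ^ z.1 * y ^ z.2 := fun z => rfl
  let c : Idx → Γ := fun i => f₂ (Multiplicative.ofAdd (i.1, i.2.1)) * g i.2.2 *
    (f₂ (Multiplicative.ofAdd (i.1, i.2.1)))⁻¹
  have hcc : ∀ i j, Commute (c i) (c j) := by
    intro i j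
    have h := hc i.2.2 j.2.2 (j.1 - i.1) (j.2.1 - i.2.1)
    have e1 : f₂ (Multiplicative.ofAdd (j.1, j.2.1)) =
        f₂ (Multiplicative.ofAdd (i.1, i.2.1)) *
          f₂ (Multiplicative.ofAdd (j.1 - i.1, j.2.1 - i.2.1)) := by
      rw [← map_mul, ← ofAdd_add]
      congr 2
      ext <;> simp
    have e2 : c j = f₂ (Multiplicative.ofAdd (i.1, i.2.1)) *
        (x ^ (j.1 - i.1) * y ^ (j.2.1 - i.2.1) * g j.2.2 *
          (x ^ (j.1 - i.1) * y ^ (j.2.1 - i.2.1))⁻¹) *
        (f₂ (Multiplicative.ofAdd (i.1, i.2.1)))⁻¹ := by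
      simp only [c]
      rw [e1, hf₂ (j.1 - i.1, j.2.1 - i.2.1)]
      group
    rw [e2]
    have key : ∀ q a b : Γ, Commute a b → Commute (q * a * q⁻¹) (q * b * q⁻¹) := by
      intro q a b hab
      show q * a * q⁻¹ * (q * b * q⁻¹) = q * b * q⁻¹ * (q * a * q⁻¹)
      have := hab.eq
      calc q * a * q⁻¹ * (q * b * q⁻¹) = q * (a * b) * q⁻¹ := by group
        _ = q * (b * a) * q⁻¹ := by rw [this]
        _ = _ := by group
    exact key _ _ _ h
  obtain ⟨f₁, hf₁⟩ := RH_free c hcc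
  have hsh : ∀ (z : ℤ × ℤ) (i : Idx), c (shIdx z i) =
      f₂ (Multiplicative.ofAdd z) * c i * (f₂ (Multiplicative.ofAdd z))⁻¹ := by
    intro z i
    have e1 : f₂ (Multiplicative.ofAdd (i.1 + z.1, i.2.1 + z.2)) =
        f₂ (Multiplicative.ofAdd z) * f₂ (Multiplicative.ofAdd (i.1, i.2.1)) := by
      rw [← map_mul, ← ofAdd_add]
      congr 2
      ext <;> simp [add_comm]
    show f₂ (Multiplicative.ofAdd (i.1 + z.1, i.2.1 + z.2)) * g i.2.2 *
      (f₂ (Multiplicative.ofAdd (i.1 + z.1, i.2.1 + z.2)))⁻¹ = _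
    rw [e1]
    simp only [c]
    group
  have hcompat : ∀ z, f₁.comp (lampAct z).toMonoidHom = (MulAut.conj (f₂ z)).toMonoidHom.comp f₁ := by
    intro z
    refine MonoidHom.ext fun f => ?_
    show f₁ (lampAct z (Multiplicative.ofAdd (Multiplicative.toAdd f))) =
      f₂ z * f₁ (Multiplicative.ofAdd (Multiplicative.toAdd f)) * (f₂ z)⁻¹
    generalize Multiplicative.toAdd f = F
    induction F using Finsupp.induction_linear with
    | zero => simp
    | add F G hF hG =>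
      rw [ofAdd_add, map_mul, map_mul, map_mul, hF, hG]
      group
    | single i m =>
      have h1 : lampAct z (Multiplicative.ofAdd (Finsupp.single i m)) =
          Multiplicative.ofAdd (Finsupp.single (shIdx z.toAdd i) m) := LAM_act_single z.toAdd i m
      rw [h1, hf₁, hf₁, hsh, conj_zpow]
      rfl
  let Φ : Lam →* Γ := SemidirectProduct.lift f₁ f₂ hcompat
  refine ⟨Φ, ?_, ?_, ?_⟩
  · intro ε
    show SemidirectProduct.lift f₁ f₂ hcompat (SemidirectProduct.inl _) = _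
    rw [SemidirectProduct.lift_inl, hf₁]
    simp [c, hf₂]
  · intro z
    show SemidirectProduct.lift f₁ f₂ hcompat (SemidirectProduct.inr _) = _
    rw [SemidirectProduct.lift_inr, hf₂]
  · intro i j ε m
    show SemidirectProduct.lift f₁ f₂ hcompat (SemidirectProduct.inl _) = _
    rw [SemidirectProduct.lift_inl, hf₁]
    rfl

end FComp
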