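import Pool.Agent.FComp.BSPerm
import Pool.Agent.FComp.RelHom
import Pool.Agent.FComp.NumLem

/-!
# Module BSA: `BS p → ℤ² ≀ ℤ²`
-/

namespace FComp

open Filter

/-- The generating tuples of `BS p` which converge to the one of `Lam`. -/
def bsTup (p n : ℕ) : Fin 4 → BS p :=
  ![BS.a p, (BS.t p ^ (n ^ 3))⁻¹ * BS.a p * BS.t p ^ (n ^ 3), BS.t p ^ n, BS.t p ^ (n ^ 2 + 1)]

/-- Module BSA. HINT: `t = t ^ (n ^ 2 + 1) * (t ^ n) ^ (-n)`. -/
theorem bsTup_gen (p n : ℕ) : Gen (bsTup p n) := by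
  unfold Gen
  rw [eq_top_iff, ← bs_closure, Subgroup.closure_le]
  have h2 : BS.t p ^ n ∈ Subgroup.closure (Set.range (bsTup p n)) :=
    Subgroup.subset_closure ⟨2, rfl⟩
  have h3 : BS.t p ^ (n ^ 2 + 1) ∈ Subgroup.closure (Set.range (bsTup p n)) :=
    Subgroup.subset_closure ⟨3, rfl⟩
  rintro x (hx | hx)
  · exact Subgroup.subset_closure ⟨0, hx.symm⟩
  · have h4 : BS.t p = BS.t p ^ (n ^ 2 + 1) * ((BS.t p ^ n) ^ n)⁻¹ := by
      rw [← pow_mul, ← pow_two, pow_succ']
      group
    rw [Set.mem_singleton_iff.1 hx]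
    change BS.t p ∈ Subgroup.closure (Set.range (bsTup p n))
    rw [h4]
    exact Subgroup.mul_mem _ h3 (Subgroup.inv_mem _ (Subgroup.pow_mem _ h2 n))

/-- the exponents -/
def BSArrow_e (n : ℕ) (ε : Bool) : ℤ := if ε then -(n : ℤ) ^ 3 else 0

/-- the lamps -/
def BSArrow_g (p n : ℕ) (ε : Bool) : BS p :=
  BS.t p ^ (BSArrow_e n ε) * BS.a p * (BS.t p ^ (BSArrow_e n ε))⁻¹

theorem BSArrow_conj (p n : ℕ) (i j : ℤ) (ε : Bool) :
    (BS.t p ^ n) ^ i * (BS.t p ^ (n ^ 2 + 1)) ^ j * BSArrow_g p n ε *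
      ((BS.t p ^ n) ^ i * (BS.t p ^ (n ^ 2 + 1)) ^ j)⁻¹ =
    BS.t p ^ (-Ex n (i, j, ε)) * BS.a p * (BS.t p ^ (-Ex n (i, j, ε)))⁻¹ := by
  have h : (BS.t p ^ n) ^ i * (BS.t p ^ (n ^ 2 + 1)) ^ j * BS.t p ^ (BSArrow_e n ε) =
      BS.t p ^ (-Ex n (i, j, ε)) := by
    generalize BS.t p = T
    rw [← zpow_natCast T n, ← zpow_natCast T (n ^ 2 + 1), ← zpow_mul, ← zpow_mul, ← zpow_add,
      ← zpow_add]
    congr 1
    cases ε <;> simp [Ex, BSArrow_e]
    ring
  rw [← h, BSArrow_g]
  group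

theorem BSArrow_trans (σ : Equiv.Perm ℚ) (r : ℚ) (h : ∀ z, σ z = z + r) (m : ℤ) (z : ℚ) :
    (σ ^ m) z = z + m * r := by
  induction m using Int.induction_on generalizing z with
  | zero => simp
  | succ m ih =>
    rw [zpow_add_one, Equiv.Perm.mul_apply, ih, h]
    push_cast
    ring
  | pred m ih =>
    have h' : σ⁻¹ z = z - r := by
      rw [Equiv.Perm.inv_eq_iff_eq, h]; ring
    rw [zpow_sub_one, Equiv.Perm.mul_apply, ih, h']
    push_cast
    ring

/-- Module BSA. HINT: the relations of `Lam` hold at `bsTup p n` for all `n` by `bs_conj_comm`, so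
by `rel_hom` there is `Φ n : Lam → BS p` with `Φ n (lift LT w) = lift (bsTup p n) w`. If
`lift LT w = (f, e) ≠ 1`: for `e ≠ 0` use `bs_exp` and `lin_sep`; for `e = 0` and `f ≠ 0` the
permutation `π (Φ n (f, 0))` is `z ↦ z + f.sum (fun i c => c * p ^ Ex n i)`, use `num_sep` and
`ex_sep`. -/
theorem arrow_bs (p : ℕ) (hp : 2 ≤ p) : Arrow (BS p) Lam := by
  refine ⟨4, LT, bsTup p, LT_gen, bsTup_gen p, (conv_iff _ _).2 ?_⟩
  have hΦ : ∀ n : ℕ, ∃ Φ : Lam →* BS p, (∀ ε, Φ (lamp ε) = BSArrow_g p n ε) ∧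
      (∀ z : ℤ × ℤ, Φ (mv z) = (BS.t p ^ n) ^ z.1 * (BS.t p ^ (n ^ 2 + 1)) ^ z.2) ∧
      ∀ (i j : ℤ) (ε : Bool) (m : ℤ),
        Φ (SemidirectProduct.inl (Multiplicative.ofAdd (Finsupp.single ((i, j, ε) : Idx) m))) =
          ((BS.t p ^ n) ^ i * (BS.t p ^ (n ^ 2 + 1)) ^ j * BSArrow_g p n ε *
            ((BS.t p ^ n) ^ i * (BS.t p ^ (n ^ 2 + 1)) ^ j)⁻¹) ^ m := by
    intro n
    apply rel_hom
    · exact (Commute.refl (BS.t p)).pow_pow _ _
    · intro ε ε' i j
      rw [BSArrow_conj]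
      exact bs_conj_comm p _ _
  choose Φ hΦ1 hΦ2 hΦ3 using hΦ
  have hw : ∀ (n : ℕ) (w : FreeGroup (Fin 4)),
      Φ n (FreeGroup.lift LT w) = FreeGroup.lift (bsTup p n) w := by
    intro n w
    have : (Φ n).comp (FreeGroup.lift LT) = FreeGroup.lift (bsTup p n) := by
      ext i
      rw [MonoidHom.comp_apply, FreeGroup.lift_apply_of, FreeGroup.lift_apply_of]
      fin_cases i
      · change Φ n (lamp false) = BS.a p
        rw [hΦ1]
        simp [BSArrow_g, BSArrow_e]
      · change Φ n (lamp true) = (BS.t p ^ (n ^ 3))⁻¹ * BS.a p * BS.t p ^ (n ^ 3)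
        rw [hΦ1, BSArrow_g, BSArrow_e, if_pos rfl, zpow_neg, inv_inv]
        norm_cast
      · change Φ n (mv (1, 0)) = BS.t p ^ n
        rw [hΦ2]
        simp
      · change Φ n (mv (0, 1)) = BS.t p ^ (n ^ 2 + 1)
        rw [hΦ2]
        simp
    exact DFunLike.congr_fun this w
  obtain ⟨π, hπa, hπt⟩ := bs_perm p hp
  obtain ⟨τ, hτa, hτt⟩ := bs_exp p
  have hp0 : (p : ℚ) ≠ 0 := by
    have : p ≠ 0 := by omega
    exact_mod_cast this
  -- the exponent sum of the lamps
  have hτl : ∀ (n : ℕ) (f : Idx →₀ ℤ),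
      τ (Φ n (SemidirectProduct.inl (Multiplicative.ofAdd f))) = 1 := by
    intro n f
    induction f using Finsupp.induction_linear with
    | zero => rw [ofAdd_zero, map_one, map_one, map_one]
    | add f g hf hg => rw [ofAdd_add, map_mul, map_mul, map_mul, hf, hg, mul_one]
    | single i m =>
      obtain ⟨i, j, ε⟩ := i
      rw [hΦ3, BSArrow_conj, map_zpow, map_mul, map_mul, map_inv, hτa, mul_one, mul_inv_cancel,
        one_zpow]
  have hπl : ∀ (n : ℕ) (f : Idx →₀ ℤ) (z : ℚ),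
      π (Φ n (SemidirectProduct.inl (Multiplicative.ofAdd f))) z =
        z + f.sum fun i c => (c : ℚ) * (p : ℚ) ^ (Ex n i) := by
    intro n f
    induction f using Finsupp.induction_linear with
    | zero => intro z; rw [ofAdd_zero, map_one, map_one, map_one]; simp
    | add f g hf hg =>
      intro z
      rw [ofAdd_add, map_mul, map_mul, map_mul, Equiv.Perm.mul_apply, hf, hg,
        Finsupp.sum_add_index']
      · ring
      · intro i; simp
      · intro i c c'; push_cast; ring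
    | single i m =>
      intro z
      obtain ⟨i, j, ε⟩ := i
      rw [hΦ3, BSArrow_conj, map_zpow, Finsupp.sum_single_index (by simp)]
      apply BSArrow_trans
      intro z
      rw [map_mul, map_mul, Equiv.Perm.mul_apply, Equiv.Perm.mul_apply, ← zpow_neg, hπt, hπa, hπt]
      rw [neg_neg, add_mul, one_mul, mul_assoc, ← zpow_add₀ hp0]
      simp
  intro w
  by_cases h : FreeGroup.lift LT w = 1
  · refine Eventually.of_forall fun n => ?_
    rw [← hw, h, map_one]
    exact ⟨fun _ => rfl, fun _ => rfl⟩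
  · have hne : ∀ᶠ n in atTop, Φ n (FreeGroup.lift LT w) ≠ 1 := by
      set v := FreeGroup.lift LT w with hv
      have hvd : v = SemidirectProduct.inl (Multiplicative.ofAdd v.left.toAdd) *
          mv v.right.toAdd := by
        exact (SemidirectProduct.inl_left_mul_inr_right v).symm
      by_cases he : v.right.toAdd = (0, 0)
      · have hf : v.left.toAdd ≠ 0 := by
          intro hf
          apply h
          rw [hvd, hf, he]
          rw [ofAdd_zero, map_one, one_mul]
          exact map_one SemidirectProduct.inr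
        filter_upwards [num_sep p hp v.left.toAdd hf Ex ex_sep] with n hn h1
        apply hn
        have h2 := hπl n v.left.toAdd 0
        have h3 : Φ n v = Φ n (SemidirectProduct.inl (Multiplicative.ofAdd v.left.toAdd)) := by
          conv_lhs => rw [hvd, he]
          rw [map_mul, hΦ2]
          simp
        rw [← h3, h1, map_one] at h2
        simpa using h2.symm
      · filter_upwards [lin_sep v.right.toAdd.1 v.right.toAdd.2 he] with n hn h1
        apply hn
        have h2 : τ (Φ n v) = 1 := by rw [h1, map_one]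
        rw [hvd, map_mul, map_mul, hτl, one_mul, hΦ2, map_mul, map_zpow, map_zpow, map_pow,
          map_pow, hτt] at h2
        have h3 := congrArg Multiplicative.toAdd h2
        simp only [toAdd_mul, toAdd_zpow, toAdd_pow, toAdd_ofAdd, toAdd_one, smul_eq_mul] at h3
        push_cast at h3
        simp only [nsmul_eq_mul, mul_one] at h3
        push_cast at h3
        linarith
    filter_upwards [hne] with n hn
    rw [← hw]
    exact ⟨fun h1 => absurd h1 hn, fun h1 => absurd h1 h⟩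

end FComp
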