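import Pool.Agent.FComp.BSmet

/-!
# Module BSP: two representations of `BS p`
-/

namespace FComp

/-- division by `p` -/
def BSP_T (p : ℕ) (hp : (p : ℚ) ≠ 0) : Equiv.Perm ℚ where
  toFun z := z * (p : ℚ)⁻¹
  invFun z := z * p
  left_inv z := by
    change z * (p : ℚ)⁻¹ * p = z
    rw [mul_assoc, inv_mul_cancel₀ hp, mul_one]
  right_inv z := by
    change z * p * (p : ℚ)⁻¹ = z
    rw [mul_assoc, mul_inv_cancel₀ hp, mul_one]

theorem BSP_T_pow (p : ℕ) (hp : (p : ℚ) ≠ 0) (n : ℕ) (z : ℚ) :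
    (BSP_T p hp ^ n) z = z * ((p : ℚ)⁻¹) ^ n := by
  induction n with
  | zero => rw [pow_zero, pow_zero, mul_one]; rfl
  | succ n ih =>
    rw [pow_succ', Equiv.Perm.mul_apply, ih]
    change z * ((p : ℚ)⁻¹) ^ n * (p : ℚ)⁻¹ = _
    rw [pow_succ, mul_assoc]

theorem BSP_T_zpow (p : ℕ) (hp : (p : ℚ) ≠ 0) (m : ℤ) (z : ℚ) :
    (BSP_T p hp ^ m) z = z * (p : ℚ) ^ (-m) := by
  rcases Int.eq_nat_or_neg m with ⟨n, rfl | rfl⟩
  · rw [zpow_natCast, BSP_T_pow, zpow_neg, zpow_natCast, inv_pow]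
  · rw [zpow_neg, zpow_natCast, neg_neg, zpow_natCast, Equiv.Perm.inv_eq_iff_eq, BSP_T_pow,
      mul_assoc, inv_pow, mul_inv_cancel₀ (pow_ne_zero n hp), mul_one]

/-- the translation by one -/
def BSP_A : Equiv.Perm ℚ where
  toFun z := z + 1
  invFun z := z - 1
  left_inv z := by ring
  right_inv z := by ring

theorem BSP_A_pow (n : ℕ) (z : ℚ) : (BSP_A ^ n) z = z + n := by
  induction n with
  | zero => rw [pow_zero, Nat.cast_zero, add_zero]; rfl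
  | succ n ih =>
    rw [pow_succ', Equiv.Perm.mul_apply, ih]
    change z + n + 1 = _
    push_cast
    ring

/-- `BS p` acts on `ℚ`: `a` is `z ↦ z + 1` and `t` is `z ↦ z / p`. -/
theorem bs_perm (p : ℕ) (hp : 2 ≤ p) : ∃ π : BS p →* Equiv.Perm ℚ,
    (∀ z, π (BS.a p) z = z + 1) ∧ ∀ (m : ℤ) (z : ℚ), π (BS.t p ^ m) z = z * (p : ℚ) ^ (-m) := by
  have hp0 : (p : ℚ) ≠ 0 := by
    have : p ≠ 0 := by omega
    exact_mod_cast this
  obtain ⟨π, h1, h2⟩ := bs_lift (p := p) BSP_A (BSP_T p hp0) (by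
    ext z
    rw [BSP_A_pow, Equiv.Perm.mul_apply, Equiv.Perm.mul_apply, Equiv.Perm.inv_eq_iff_eq]
    change z * (p : ℚ)⁻¹ + 1 = (z + p) * (p : ℚ)⁻¹
    rw [add_mul, mul_inv_cancel₀ hp0])
  refine ⟨π, fun z => ?_, fun m z => ?_⟩
  · rw [h1]
    rfl
  · rw [map_zpow, h2, BSP_T_zpow]

/-- The exponent sum of `t`. -/
theorem bs_exp (p : ℕ) : ∃ τ : BS p →* Multiplicative ℤ,
    τ (BS.a p) = 1 ∧ τ (BS.t p) = Multiplicative.ofAdd 1 :=
  bs_lift (p := p) 1 (Multiplicative.ofAdd 1) (by rw [mul_one, inv_mul_cancel, one_pow])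

end FComp
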