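import Pool.Agent.FComp.Classes

/-!
# Module BSM: elementary facts on the groups `BS p`
-/

namespace FComp

open scoped commutatorElement

theorem bs_rel (p : ℕ) : (BS.t p)⁻¹ * BS.a p * BS.t p = BS.a p ^ p := by
  rw [← mul_inv_eq_one]
  exact PresentedGroup.one_of_mem (rels := {(FreeGroup.of (1 : Fin 2))⁻¹ * FreeGroup.of 0 *
    FreeGroup.of 1 * ((FreeGroup.of (0 : Fin 2)) ^ p)⁻¹}) rfl

/-- The universal property. -/
theorem bs_lift {Γ : Type} [Group Γ] {p : ℕ} (a t : Γ) (h : t⁻¹ * a * t = a ^ p) :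
    ∃ f : BS p →* Γ, f (BS.a p) = a ∧ f (BS.t p) = t := by
  have hr : ∀ r ∈ ({(FreeGroup.of (1 : Fin 2))⁻¹ * FreeGroup.of 0 *
      FreeGroup.of 1 * ((FreeGroup.of (0 : Fin 2)) ^ p)⁻¹} : Set (FreeGroup (Fin 2))),
      FreeGroup.lift ![a, t] r = 1 := by
    intro r hr
    rw [Set.mem_singleton_iff.1 hr]
    simp [h]
  refine ⟨PresentedGroup.toGroup hr, ?_, ?_⟩
  · exact PresentedGroup.toGroup.of hr
  · exact PresentedGroup.toGroup.of hr

theorem bs_closure (p : ℕ) : Subgroup.closure {BS.a p, BS.t p} = ⊤ := by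
  rw [eq_top_iff]
  intro x _
  apply PresentedGroup.generated_by
  intro j
  apply Subgroup.subset_closure
  fin_cases j
  · left; rfl
  · right; rfl

theorem BSmet_conj_pow (p m : ℕ) :
    (BS.t p ^ m)⁻¹ * BS.a p * BS.t p ^ m = BS.a p ^ (p ^ m) := by
  induction m with
  | zero => simp
  | succ m ih =>
    have h1 : (BS.t p ^ (m + 1))⁻¹ * BS.a p * BS.t p ^ (m + 1) =
        (BS.t p)⁻¹ * ((BS.t p ^ m)⁻¹ * BS.a p * BS.t p ^ m) * BS.t p := by
      rw [pow_succ]; group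
    have h2 : (BS.t p)⁻¹ * BS.a p ^ (p ^ m) * BS.t p =
        ((BS.t p)⁻¹ * BS.a p * BS.t p) ^ (p ^ m) := by
      have := conj_pow (i := p ^ m) (a := (BS.t p)⁻¹) (b := BS.a p)
      rw [inv_inv] at this
      exact this.symm
    rw [h1, ih, h2, bs_rel, ← pow_mul, pow_succ, mul_comm]

/-- the conjugates of `a` by powers of `t` -/
def BSmet_c (p : ℕ) (i : ℤ) : BS p := BS.t p ^ i * BS.a p * (BS.t p ^ i)⁻¹

theorem BSmet_c_pow (p : ℕ) (i : ℤ) (m : ℕ) :
    BSmet_c p i = BSmet_c p (i + m) ^ (p ^ m) := by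
  unfold BSmet_c
  rw [conj_pow, ← BSmet_conj_pow, ← zpow_natCast (BS.t p) m, zpow_add]
  group

/-- HINT: `t^(-m) a t^m = a^(p^m)` commutes with `a` for `m ≥ 0`; conjugate. -/
theorem bs_conj_comm (p : ℕ) (i j : ℤ) :
    Commute (BS.t p ^ i * BS.a p * (BS.t p ^ i)⁻¹) (BS.t p ^ j * BS.a p * (BS.t p ^ j)⁻¹) := by
  have key : ∀ i j : ℤ, i ≤ j → Commute (BSmet_c p i) (BSmet_c p j) := by
    intro i j hij
    obtain ⟨m, hm⟩ := Int.eq_ofNat_of_zero_le (sub_nonneg.2 hij)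
    have : j = i + m := by omega
    rw [this, BSmet_c_pow p i m]
    exact Commute.pow_left rfl _
  rcases le_total i j with h | h
  · exact key i j h
  · exact (key j i h).symm

/-- `BS p` is metabelian. HINT: the subgroup generated by all `t^i a t^(-i)` is commutative and
normal and the quotient is generated by the image of `t`, so all commutators lie in it. -/
theorem bs_metabelian (p : ℕ) (a b c d : BS p) : ⁅⁅a, b⁆, ⁅c, d⁆⁆ = 1 := by
  set t := BS.t p with ht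
  set K : Subgroup (BS p) := Subgroup.closure (Set.range (BSmet_c p)) with hK
  have hcm : ∀ i j, BSmet_c p i * BSmet_c p j = BSmet_c p j * BSmet_c p i :=
    fun i j => bs_conj_comm p i j
  have hcomm : ∀ x ∈ K, ∀ y ∈ K, x * y = y * x := by
    have h0 : ∀ x ∈ Set.range (BSmet_c p), ∀ y ∈ Set.range (BSmet_c p), x * y = y * x := by
      rintro _ ⟨i, rfl⟩ _ ⟨j, rfl⟩
      exact hcm i j
    intro x hx y hy
    have := (Subgroup.isMulCommutative_closure h0).is_comm.comm ⟨x, hx⟩ ⟨y, hy⟩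
    exact congrArg Subtype.val this
  have hconj : ∀ x ∈ K, ∀ m : ℤ, t ^ m * x * (t ^ m)⁻¹ ∈ K := by
    intro x hx m
    induction hx using Subgroup.closure_induction with
    | mem x hx =>
      obtain ⟨i, rfl⟩ := hx
      have : t ^ m * BSmet_c p i * (t ^ m)⁻¹ = BSmet_c p (m + i) := by
        unfold BSmet_c
        rw [← ht, zpow_add]; group
      rw [this]
      exact Subgroup.subset_closure ⟨_, rfl⟩
    | one => simp
    | mul x y _ _ hx hy =>
      have : t ^ m * (x * y) * (t ^ m)⁻¹ =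
        (t ^ m * x * (t ^ m)⁻¹) * (t ^ m * y * (t ^ m)⁻¹) := by group
      rw [this]
      exact K.mul_mem hx hy
    | inv x _ hx =>
      have : t ^ m * x⁻¹ * (t ^ m)⁻¹ = (t ^ m * x * (t ^ m)⁻¹)⁻¹ := by group
      rw [this]
      exact K.inv_mem hx
  let F : Subgroup (BS p) :=
    { carrier := {x | ∃ k ∈ K, ∃ m : ℤ, x = k * t ^ m}
      mul_mem' := by
        rintro _ _ ⟨k, hk, m, rfl⟩ ⟨k', hk', m', rfl⟩
        refine ⟨k * (t ^ m * k' * (t ^ m)⁻¹), K.mul_mem hk (hconj k' hk' m), m + m', ?_⟩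
        rw [zpow_add]; group
      one_mem' := ⟨1, K.one_mem, 0, by simp⟩
      inv_mem' := by
        rintro _ ⟨k, hk, m, rfl⟩
        refine ⟨t ^ (-m) * k⁻¹ * (t ^ (-m))⁻¹, hconj _ (K.inv_mem hk) _, -m, ?_⟩
        group }
  have hF : ∀ x : BS p, ∃ k ∈ K, ∃ m : ℤ, x = k * t ^ m := by
    intro x
    change x ∈ F
    apply PresentedGroup.generated_by
    intro j
    fin_cases j
    · refine ⟨BSmet_c p 0, Subgroup.subset_closure ⟨0, rfl⟩, 0, ?_⟩
      simp [BSmet_c, BS.a]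
    · exact ⟨1, K.one_mem, 1, by simp [ht, BS.t]⟩
  have hcom : ∀ x y : BS p, ⁅x, y⁆ ∈ K := by
    intro x y
    obtain ⟨k, hk, m, rfl⟩ := hF x
    obtain ⟨k', hk', m', rfl⟩ := hF y
    have : ⁅k * t ^ m, k' * t ^ m'⁆ =
        k * (t ^ m * k' * (t ^ m)⁻¹) * ((t ^ m' * k⁻¹ * (t ^ m')⁻¹) * k'⁻¹) := by
      rw [commutatorElement_def]
      have h1 : t ^ m * t ^ m' = t ^ m' * t ^ m := by rw [← zpow_add, ← zpow_add, add_comm]
      calc k * t ^ m * (k' * t ^ m') * (k * t ^ m)⁻¹ * (k' * t ^ m')⁻¹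
          = k * (t ^ m * k' * (t ^ m)⁻¹) * (t ^ m * t ^ m' * (t ^ m)⁻¹) * k⁻¹ *
            (t ^ m')⁻¹ * k'⁻¹ := by group
        _ = _ := by rw [h1]; group
    rw [this]
    exact K.mul_mem (K.mul_mem hk (hconj _ hk' _))
      (K.mul_mem (hconj _ (K.inv_mem hk) _) (K.inv_mem hk'))
  rw [commutatorElement_eq_one_iff_mul_comm]
  exact hcomm _ (hcom a b) _ (hcom c d)

end FComp
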