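import Pool.Agent.FComp.Defs

/-!
# Basic facts on convergence (module BASIC)
-/

namespace FComp

open Filter

variable {G H Γ : Type} [Group G] [Group H] [Group Γ] {k : ℕ}

theorem val_eq (S : Fin k → G) (w : List (Fin k × Bool)) :
    val S w = FreeGroup.lift S (FreeGroup.mk w) := by
  rw [FreeGroup.lift_mk]; rfl

/-- Convergence, one element of the free group at a time. -/
theorem conv_iff (S : ℕ → Fin k → G) (T : Fin k → H) :
    Conv S T ↔ ∀ w : FreeGroup (Fin k), ∀ᶠ n in atTop,
      (FreeGroup.lift (S n) w = 1 ↔ FreeGroup.lift T w = 1) := by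
  constructor
  · intro h w
    obtain ⟨N, hN⟩ := h w.toWord.length
    filter_upwards [eventually_ge_atTop N] with n hn
    have := hN n hn w.toWord le_rfl
    rwa [val_eq, val_eq, FreeGroup.mk_toWord] at this
  · intro h R
    have hf : {w : List (Fin k × Bool) | w.length ≤ R}.Finite := List.finite_length_le _ R
    have := (Filter.eventually_all_finite hf).2 (fun w _ => h (FreeGroup.mk w))
    obtain ⟨N, hN⟩ := eventually_atTop.1 this
    refine ⟨N, fun n hn w hw => ?_⟩
    rw [val_eq, val_eq]
    exact hN n hn w hw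

theorem gen_iff (S : Fin k → G) : Gen S ↔ Function.Surjective (FreeGroup.lift S) := by
  rw [← MonoidHom.range_eq_top, FreeGroup.range_lift_eq_closure]
  rfl

/-- Convergence implies that equations between words pass to large `n`. -/
theorem Conv.eq {S : ℕ → Fin k → G} {T : Fin k → H} (h : Conv S T) {v w : FreeGroup (Fin k)}
    (e : FreeGroup.lift T v = FreeGroup.lift T w) :
    ∀ᶠ n in atTop, FreeGroup.lift (S n) v = FreeGroup.lift (S n) w := by
  filter_upwards [(conv_iff S T).1 h (v * w⁻¹)] with n hn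
  rw [map_mul, map_inv, map_mul, map_inv, mul_inv_eq_one, mul_inv_eq_one] at hn
  exact hn.2 e

/-- An equation which holds for infinitely many `n` holds in the limit. -/
theorem Conv.lim {S : ℕ → Fin k → G} {T : Fin k → H} (h : Conv S T) {v w : FreeGroup (Fin k)}
    (e : ∃ᶠ n in atTop, FreeGroup.lift (S n) v = FreeGroup.lift (S n) w) :
    FreeGroup.lift T v = FreeGroup.lift T w := by
  obtain ⟨n, h1, h2⟩ := (e.and_eventually ((conv_iff S T).1 h (v * w⁻¹))).exists
  rw [map_mul, map_inv, map_mul, map_inv, mul_inv_eq_one, mul_inv_eq_one] at h2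
  exact h2.1 h1

/-- A homomorphism from the limit: if every relation of `(H, T)` is a relation of `(Γ, s)` there is
a homomorphism `H → Γ` which maps `T` to `s`. -/
theorem exists_hom {T : Fin k → H} (hT : Gen T) {s : Fin k → Γ}
    (h : ∀ w : FreeGroup (Fin k), FreeGroup.lift T w = 1 → FreeGroup.lift s w = 1) :
    ∃ f : H →* Γ, ∀ w, f (FreeGroup.lift T w) = FreeGroup.lift s w := by
  have hs := (gen_iff T).1 hT
  refine ⟨(FreeGroup.lift T).liftOfSurjective hs ⟨FreeGroup.lift s, fun w hw => h w hw⟩,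
    fun w => ?_⟩
  exact MonoidHom.liftOfRightInverse_comp_apply _ _ _ _ _

theorem Gen.fg {S : Fin k → G} (h : Gen S) : Group.FG G :=
  ⟨(Subgroup.fg_iff _).2 ⟨Set.range S, h, Set.finite_range S⟩⟩

theorem exists_gen (G : Type) [Group G] (h : Group.FG G) : ∃ (r : ℕ) (q : Fin r → G), Gen q := by
  obtain ⟨S, hS, hf⟩ := (Subgroup.fg_iff _).1 h.out
  obtain ⟨r, q, -, hq⟩ := hf.fin_param
  exact ⟨r, q, by rw [Gen, hq, hS]⟩

theorem Arrow.fg_left (h : Arrow G H) : Group.FG G := by
  obtain ⟨k, T, S, hT, hS, _⟩ := h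
  exact (hS 0).fg

theorem Arrow.fg_right (h : Arrow G H) : Group.FG H := by
  obtain ⟨k, T, S, hT, hS, _⟩ := h
  exact hT.fg

end FComp
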