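import Pool.Agent.FComp.Basic

/-!
# The classes of groups used for the lower bound, and trivial facts
-/

namespace FComp

open scoped commutatorElement

/-- `Q` is a quotient of `G`. -/
def Sur (Q G : Type) [Group Q] [Group G] : Prop := ∃ f : G →* Q, Function.Surjective f

/-- `Q` is a direct factor of `G`: `ι` is the inclusion and `ρ` the projection. -/
def Dir (Q G : Type) [Group Q] [Group G] : Prop :=
  ∃ (ι : Q →* G) (ρ : G →* Q), (∀ q, ρ (ι q) = q) ∧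
    ∀ g q, g * ι q * g⁻¹ = ι (ρ g * q * (ρ g)⁻¹)

/-- `Q` is a direct factor of `G` with a metabelian complement. -/
def Met (Q G : Type) [Group Q] [Group G] : Prop :=
  ∃ (ι : Q →* G) (ρ : G →* Q), (∀ q, ρ (ι q) = q) ∧
    (∀ g q, g * ι q * g⁻¹ = ι (ρ g * q * (ρ g)⁻¹)) ∧
    ∀ a b c d, ρ a = 1 → ρ b = 1 → ρ c = 1 → ρ d = 1 → ⁅⁅a, b⁆, ⁅c, d⁆⁆ = 1

/-- `G` is a quotient of `BS p × Q` in which `Q` survives. -/
def Quo (p : ℕ) (Q G : Type) [Group Q] [Group G] : Prop :=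
  ∃ θ : BS p × Q →* G, Function.Surjective θ ∧ ∀ q, θ (1, q) = 1 → q = 1

variable {Q G H : Type} [Group Q] [Group G] [Group H] {p : ℕ}

theorem Met.dir (h : Met Q G) : Dir Q G := by
  obtain ⟨ι, ρ, h1, h2, _⟩ := h
  exact ⟨ι, ρ, h1, h2⟩

theorem Dir.sur (h : Dir Q G) : Sur Q G := by
  obtain ⟨ι, ρ, h1, h2⟩ := h
  exact ⟨ρ, fun q => ⟨ι q, h1 q⟩⟩

theorem Quo.congr (e : G ≃* H) (h : Quo p Q G) : Quo p Q H := by
  obtain ⟨θ, h1, h2⟩ := h
  refine ⟨e.toMonoidHom.comp θ, e.surjective.comp h1, fun q hq => h2 q ?_⟩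
  exact e.injective (by simpa using hq)

theorem quo_self (p : ℕ) (Q : Type) [Group Q] : Quo p Q (BS p × Q) :=
  ⟨MonoidHom.id _, Function.surjective_id, fun _ hq => (Prod.ext_iff.1 hq).2⟩

end FComp
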