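import Mathlib

/-!
# The limit preorder on finitely generated groups: definitions
-/

namespace FComp

/-- Finitely generated groups. (A finitely generated group is countable, so it has an isomorphic
copy in `Type`.) -/
structure FGGroup where
  /-- the underlying type -/
  carrier : Type
  [group : Group carrier]
  fg : Group.FG carrier

instance : CoeSort FGGroup Type := ⟨FGGroup.carrier⟩

instance (A : FGGroup) : Group A := A.group

/-- The value of a word in `k` letters and their inverses at a `k`-tuple: `(i, true)` is the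
letter `i` and `(i, false)` is its inverse. -/
def val {G : Type} [Group G] {k : ℕ} (S : Fin k → G) (w : List (Fin k × Bool)) : G :=
  (w.map fun x => cond x.2 (S x.1) (S x.1)⁻¹).prod

/-- The tuple `S` generates the group. -/
def Gen {G : Type} [Group G] {k : ℕ} (S : Fin k → G) : Prop :=
  Subgroup.closure (Set.range S) = ⊤

/-- The marked groups `(G, S n)` converge to the marked group `(H, T)`: for every `R`, for all
large `n`, every word of length at most `R` is a relation of `(G, S n)` if and only if it is one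
of `(H, T)`. -/
def Conv {G H : Type} [Group G] [Group H] {k : ℕ} (S : ℕ → Fin k → G) (T : Fin k → H) : Prop :=
  ∀ R : ℕ, ∃ N : ℕ, ∀ n, N ≤ n → ∀ w : List (Fin k × Bool), w.length ≤ R →
    (val (S n) w = 1 ↔ val T w = 1)

/-- The relation `G → H`: a generating tuple of `H` is a limit of generating tuples of `G`. -/
def Arrow (G H : Type) [Group G] [Group H] : Prop :=
  ∃ (k : ℕ) (T : Fin k → H) (S : ℕ → Fin k → G), Gen T ∧ (∀ n, Gen (S n)) ∧ Conv S T

/-- There is a chain `A = A₀, A₁, ..., A_ℓ = B` with `A_i → A_(i+1)` or `A_(i+1) → A_i` for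
every `i < ℓ`. -/
def Linked (ℓ : ℕ) (A B : FGGroup) : Prop :=
  ∃ c : ℕ → FGGroup, Nonempty (c 0 ≃* A) ∧ Nonempty (c ℓ ≃* B) ∧
    ∀ i < ℓ, Arrow (c i) (c (i + 1)) ∨ Arrow (c (i + 1)) (c i)

/-- The distance: the least length of a chain, and `⊤` if there is none. -/
noncomputable def gdist (A B : FGGroup) : ℕ∞ := sInf {d | ∃ ℓ : ℕ, d = ℓ ∧ Linked ℓ A B}

/-- The free group of rank `m`. -/
def free (m : ℕ) : FGGroup := ⟨FreeGroup (Fin m), inferInstance⟩

/-- The connected component of the free group of rank two. -/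
def Comp : Set FGGroup := {A | gdist A (free 2) ≠ ⊤}

/-- The diameter of the component. -/
noncomputable def diam : ℕ∞ := ⨆ A ∈ Comp, ⨆ B ∈ Comp, gdist A B

/-- The Baumslag-Solitar group `⟨a, t | t⁻¹ a t = a ^ p⟩`; `a` is the letter `0` and `t` the
letter `1`. -/
abbrev BS (p : ℕ) : Type :=
  PresentedGroup {(FreeGroup.of (1 : Fin 2))⁻¹ * FreeGroup.of 0 * FreeGroup.of 1 *
    ((FreeGroup.of (0 : Fin 2)) ^ p)⁻¹}

/-- The letter `a` of `BS p`. -/
def BS.a (p : ℕ) : BS p := PresentedGroup.of 0
/-- The letter `t` of `BS p`. -/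
def BS.t (p : ℕ) : BS p := PresentedGroup.of 1

end FComp
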