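import Pool.Agent.FComp.Classes

/-!
# Module DIR: finite centerless direct factors pass backward
-/

namespace FComp

open scoped commutatorElement
open Filter

variable {Q G H : Type} [Group Q] [Group G] [Group H]

/-- HINT: choose words `v q` with `lift T (v q) = ι q`. For large `n` the finitely many relations
`v q * v q' = v (q q')`, `t_i * v q * t_i⁻¹ = v (ρ T_i * q * (ρ T_i)⁻¹)` (here `t_i` is the letter
`i` of the free group) and the inequations `v q ≠ 1`, `q ≠ 1`, hold at `S n`. So
`ι' q = lift (S n) (v q)` is an injective homomorphism, and the set of all `g` for which there is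
`r` with `∀ q, g * ι' q * g⁻¹ = ι' (r * q * r⁻¹)` is a subgroup which contains `S n i`, hence
everything. `r` is unique because `Q` has trivial center, so `g ↦ r` is a homomorphism `ρ'`. -/
theorem dir_bwd [Finite Q] (hQ : Subgroup.center Q = ⊥) (h : Arrow G H) (hH : Dir Q H) :
    Dir Q G := by
  obtain ⟨k, T, S, hT, hS, hc⟩ := h
  obtain ⟨ι, ρ, h1, h2⟩ := hH
  have hιi : Function.Injective ι := Function.LeftInverse.injective h1
  have hsurj := (gen_iff T).1 hT
  choose v hv using fun q : Q => hsurj (ι q)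
  have e1 : ∀ᶠ n in atTop, ∀ q q' : Q, FreeGroup.lift (S n) (v q * v q') =
      FreeGroup.lift (S n) (v (q * q')) := by
    rw [eventually_all]
    intro q
    rw [eventually_all]
    intro q'
    apply hc.eq
    rw [map_mul, hv, hv, hv, map_mul]
  have e2 : ∀ᶠ n in atTop, ∀ (i : Fin k) (q : Q),
      FreeGroup.lift (S n) (FreeGroup.of i * v q * (FreeGroup.of i)⁻¹) =
      FreeGroup.lift (S n) (v (ρ (T i) * q * (ρ (T i))⁻¹)) := by
    rw [eventually_all]
    intro i
    rw [eventually_all]
    intro q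
    apply hc.eq
    rw [map_mul, map_mul, map_inv, FreeGroup.lift_apply_of, hv, hv, h2]
  have e3 : ∀ᶠ n in atTop, ∀ q : Q, q ≠ 1 → FreeGroup.lift (S n) (v q) ≠ 1 := by
    rw [eventually_all]
    intro q
    filter_upwards [(conv_iff S T).1 hc (v q)] with n hn hq h4
    apply hq
    have h5 := hn.1 h4
    rw [hv] at h5
    exact hιi (h5.trans (map_one ι).symm)
  obtain ⟨n, f1, f2, f3⟩ := (e1.and (e2.and e3)).exists
  set s := S n with hs
  let ι' : Q →* G := MonoidHom.mk' (fun q => FreeGroup.lift s (v q)) (fun q q' => by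
    rw [← f1, map_mul])
  have hι' : ∀ q, ι' q = FreeGroup.lift s (v q) := fun q => rfl
  have hι'i : Function.Injective ι' := by
    rw [injective_iff_map_eq_one]
    intro q hq
    by_contra hne
    exact f3 q hne hq
  have hall : ∀ g : G, ∃ r : Q, ∀ q, g * ι' q * g⁻¹ = ι' (r * q * r⁻¹) := by
    intro g
    have hg : g ∈ Subgroup.closure (Set.range s) := by
      have h6 := hS n
      unfold Gen at h6
      rw [← hs] at h6
      rw [h6]
      exact Subgroup.mem_top g
    induction hg using Subgroup.closure_induction with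
    | mem x hx =>
      obtain ⟨i, rfl⟩ := hx
      refine ⟨ρ (T i), fun q => ?_⟩
      have h7 := f2 i q
      rw [map_mul, map_mul, map_inv, FreeGroup.lift_apply_of] at h7
      rw [hι', hι', h7]
    | one => exact ⟨1, fun q => by simp⟩
    | mul x y _ _ hx hy =>
      obtain ⟨r, hr⟩ := hx
      obtain ⟨r', hr'⟩ := hy
      refine ⟨r * r', fun q => ?_⟩
      have h8 : x * y * ι' q * (x * y)⁻¹ = x * (y * ι' q * y⁻¹) * x⁻¹ := by group
      rw [h8, hr', hr]
      congr 1
      group
    | inv x _ hx =>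
      obtain ⟨r, hr⟩ := hx
      refine ⟨r⁻¹, fun q => ?_⟩
      have h8 := hr (r⁻¹ * q * r⁻¹⁻¹)
      have h9 : r * (r⁻¹ * q * r⁻¹⁻¹) * r⁻¹ = q := by group
      rw [h9] at h8
      rw [← h8]
      group
  have huniq : ∀ r r' : Q, (∀ q, ι' (r * q * r⁻¹) = ι' (r' * q * r'⁻¹)) → r = r' := by
    intro r r' hrr
    have hcen : r'⁻¹ * r ∈ Subgroup.center Q := by
      rw [Subgroup.mem_center_iff]
      intro q
      have h8 := hι'i (hrr q)
      have h9 : r * q = r' * q * r'⁻¹ * r := by
        rw [← h8]; group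
      calc q * (r'⁻¹ * r) = r'⁻¹ * (r' * q * r'⁻¹ * r) := by group
        _ = r'⁻¹ * r * q := by rw [← h9]; group
    rw [hQ, Subgroup.mem_bot] at hcen
    exact (inv_mul_eq_one.1 hcen).symm
  choose ρf hρf using hall
  let ρ' : G →* Q := MonoidHom.mk' ρf (fun g g' => by
    apply huniq
    intro q
    rw [← hρf]
    have h8 : g * g' * ι' q * (g * g')⁻¹ = g * (g' * ι' q * g'⁻¹) * g⁻¹ := by group
    rw [h8, hρf, hρf]
    congr 1
    group)
  refine ⟨ι', ρ', fun q => ?_, fun g q => hρf g q⟩
  change ρf (ι' q) = q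
  apply huniq
  intro q'
  rw [← hρf, ← map_inv, ← map_mul, ← map_mul]

end FComp
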