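import Pool.Agent.FComp.Basic

/-!
# Module FRE: `F_m → F_k` for `2 ≤ m ≤ k`
-/

namespace FComp

open Filter

/-- Images of a nontrivial element under maps of the letters which are eventually injective on
every finite set. -/
theorem map_eventually {α β : Type} (g : FreeGroup α) (hg : g ≠ 1) (l : ℕ → α → β)
    (hl : ∀ s : Set α, s.Finite → ∀ᶠ n in atTop, Set.InjOn (l n) s) :
    ∀ᶠ n in atTop, FreeGroup.map (l n) g ≠ 1 := by
  classical
  let s : Set α := {x | x ∈ (g.toWord.map Prod.fst)}
  have hs : s.Finite := List.finite_toSet _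
  filter_upwards [hl s hs] with n hn h
  apply hg
  have hne : g.toWord ≠ [] := by
    intro h0
    exact hg (FreeGroup.toWord_eq_nil_iff.1 h0)
  obtain ⟨x0, hx0⟩ := List.exists_mem_of_ne_nil _ hne
  have : Nonempty α := ⟨x0.1⟩
  let r : β → α := Function.invFunOn (l n) s
  have hr : ∀ x ∈ s, r (l n x) = x := fun x hx => hn.leftInvOn_invFunOn hx
  have h1 : FreeGroup.map r (FreeGroup.map (l n) g) = g := by
    conv_rhs => rw [← FreeGroup.mk_toWord (x := g)]
    conv_lhs => rw [← FreeGroup.mk_toWord (x := g)]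
    rw [FreeGroup.map.mk, FreeGroup.map.mk, List.map_map]
    congr 1
    conv_rhs => rw [← List.map_id g.toWord]
    apply List.map_congr_left
    rintro ⟨x, b⟩ hx
    have : x ∈ s := List.mem_map.2 ⟨(x, b), hx, rfl⟩
    simp [hr x this]
  rw [← h1, h, map_one]

section
variable (ι : Type)

/-- The shift of the first coordinate of the letters. -/
def FreeArrow_act : Multiplicative ℤ →* MulAut (FreeGroup (ℤ × ι)) where
  toFun z := FreeGroup.freeGroupCongr ((Equiv.addRight z.toAdd).prodCongr (Equiv.refl ι))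
  map_one' := by
    apply MulEquiv.toMonoidHom_injective
    apply FreeGroup.ext_hom
    rintro ⟨i, j⟩
    simp [FreeGroup.freeGroupCongr]
  map_mul' z z' := by
    apply MulEquiv.toMonoidHom_injective
    apply FreeGroup.ext_hom
    rintro ⟨i, j⟩
    simp [FreeGroup.freeGroupCongr]
    ring_nf

theorem FreeArrow_act_of (z : Multiplicative ℤ) (i : ℤ) (j : ι) :
    FreeArrow_act ι z (FreeGroup.of (i, j)) = FreeGroup.of (i + z.toAdd, j) := by
  simp [FreeArrow_act, FreeGroup.freeGroupCongr]

abbrev FreeArrow_S : Type := FreeGroup (ℤ × ι) ⋊[FreeArrow_act ι] Multiplicative ℤ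

end

/-- `of 0` is the shift, `of (j + 1)` is the letter `(0, j)` -/
noncomputable def FreeArrow_theta (k : ℕ) : FreeGroup (Fin (k + 1)) →* FreeArrow_S (Fin k) :=
  FreeGroup.lift (Fin.cons (SemidirectProduct.inr (Multiplicative.ofAdd 1))
    fun j => SemidirectProduct.inl (FreeGroup.of (0, j)))

theorem FreeArrow_theta_zero (k : ℕ) : FreeArrow_theta k (FreeGroup.of 0) =
    SemidirectProduct.inr (Multiplicative.ofAdd 1) := by
  simp [FreeArrow_theta]

theorem FreeArrow_theta_succ (k : ℕ) (j : Fin k) : FreeArrow_theta k (FreeGroup.of j.succ) =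
    SemidirectProduct.inl (FreeGroup.of (0, j)) := by
  simp [FreeArrow_theta]

/-- the left inverse -/
noncomputable def FreeArrow_inv (k : ℕ) : FreeArrow_S (Fin k) →* FreeGroup (Fin (k + 1)) :=
  SemidirectProduct.lift
    (FreeGroup.lift fun p : ℤ × Fin k =>
      (FreeGroup.of 0) ^ p.1 * FreeGroup.of p.2.succ * ((FreeGroup.of 0) ^ p.1)⁻¹)
    (zpowersHom _ (FreeGroup.of 0)) (by
      intro z
      apply FreeGroup.ext_hom
      rintro ⟨i, j⟩
      simp only [MonoidHom.comp_apply, MulEquiv.toMonoidHom_eq_coe, MonoidHom.coe_coe]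
      rw [FreeArrow_act_of, FreeGroup.lift_apply_of, FreeGroup.lift_apply_of, MulAut.conj_apply,
        zpowersHom_apply]
      simp only
      rw [add_comm i, zpow_add]
      group)

theorem FreeArrow_theta_inj (k : ℕ) : Function.Injective (FreeArrow_theta k) := by
  have h : (FreeArrow_inv k).comp (FreeArrow_theta k) = MonoidHom.id _ := by
    apply FreeGroup.ext_hom
    intro i
    refine Fin.cases ?_ (fun j => ?_) i
    · rw [MonoidHom.comp_apply, FreeArrow_theta_zero]
      simp [FreeArrow_inv]
    · rw [MonoidHom.comp_apply, FreeArrow_theta_succ]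
      simp [FreeArrow_inv]
  intro x y hxy
  have h1 := DFunLike.congr_fun h x
  have h2 := DFunLike.congr_fun h y
  simp only [MonoidHom.comp_apply, MonoidHom.id_apply] at h1 h2
  rw [← h1, ← h2, hxy]

/-- the map on the letters -/
def FreeArrow_l (m k : ℕ) (hm : 0 < m) (n : ℕ) (p : ℤ × Fin k) : ℤ × Fin m :=
  if h : (p.2 : ℕ) < m then (p.1, ⟨p.2, h⟩)
  else (p.1 + n * ((p.2 : ℕ) + 1 - m : ℕ), ⟨0, hm⟩)

theorem FreeArrow_l_inj (m k : ℕ) (hm : 0 < m) (s : Set (ℤ × Fin k)) (hs : s.Finite) :
    ∀ᶠ n in atTop, Set.InjOn (FreeArrow_l m k hm n) s := by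
  have key : ∀ p ∈ s ×ˢ s, ∀ᶠ n : ℕ in atTop,
      FreeArrow_l m k hm n p.1 = FreeArrow_l m k hm n p.2 → p.1 = p.2 := by
    rintro ⟨⟨z, j⟩, ⟨z', j'⟩⟩ _
    filter_upwards [eventually_gt_atTop (z - z').natAbs] with n hn
    intro h
    simp only [FreeArrow_l] at h
    split_ifs at h with h1 h2 h2
    · rw [Prod.mk.injEq, Fin.mk.injEq] at h
      exact Prod.ext h.1 (Fin.ext h.2)
    · exfalso
      rw [Prod.mk.injEq] at h
      obtain ⟨h3, _⟩ := h
      have h4 : 1 ≤ ((j' : ℕ) + 1 - m) := by omega
      have h5 : (n : ℤ) * 1 ≤ n * (((j' : ℕ) + 1 - m : ℕ) : ℤ) := by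
        apply mul_le_mul_of_nonneg_left _ (by positivity)
        exact_mod_cast h4
      omega
    · exfalso
      rw [Prod.mk.injEq] at h
      obtain ⟨h3, _⟩ := h
      have h4 : 1 ≤ ((j : ℕ) + 1 - m) := by omega
      have h5 : (n : ℤ) * 1 ≤ n * (((j : ℕ) + 1 - m : ℕ) : ℤ) := by
        apply mul_le_mul_of_nonneg_left _ (by positivity)
        exact_mod_cast h4
      omega
    · rw [Prod.mk.injEq] at h
      obtain ⟨h3, _⟩ := h
      have h4 : j = j' := by
        by_contra hne
        have hne' : (j : ℕ) ≠ j' := fun h => hne (Fin.ext h)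
        set c := ((j : ℕ) + 1 - m) with hc
        set c' := ((j' : ℕ) + 1 - m) with hc'
        have hcc : c ≠ c' := by omega
        rcases lt_or_gt_of_ne hcc with hlt | hlt
        · have h5 : (n : ℤ) * ((c : ℤ) + 1) ≤ n * (c' : ℤ) := by
            apply mul_le_mul_of_nonneg_left _ (by positivity)
            exact_mod_cast hlt
          rw [mul_add, mul_one] at h5
          omega
        · have h5 : (n : ℤ) * ((c' : ℤ) + 1) ≤ n * (c : ℤ) := by
            apply mul_le_mul_of_nonneg_left _ (by positivity)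
            exact_mod_cast hlt
          rw [mul_add, mul_one] at h5
          omega
      subst h4
      exact Prod.ext (by simpa using h3) rfl
  have h2 := (Set.Finite.eventually_all (hs.prod hs)).2 key
  filter_upwards [h2] with n hn
  intro p hp q hq h
  exact hn (p, q) ⟨hp, hq⟩ h

/-- HINT: letters `x = of 0`, `of 1, ..., of (m - 1)`; the generating tuples of `F_m` are
`x, of 1, ..., of (m - 1)` and `x ^ (n * j) * of 1 * x ^ (-(n * j))` for `j = 1, ..., k - m`.
The homomorphisms `F_k → FreeGroup (ℤ × Fin (k - 1)) ⋊ ℤ`, `x ↦` shift, `of (j + 1) ↦ of (0, j)`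
(injective, it has a left inverse) reduce the claim to `map_eventually`. -/
theorem arrow_free_free (m k : ℕ) (hm : 2 ≤ m) (hk : m ≤ k) :
    Arrow (FreeGroup (Fin m)) (FreeGroup (Fin k)) := by
  obtain ⟨m, rfl⟩ : ∃ m', m = m' + 1 := ⟨m - 1, by omega⟩
  obtain ⟨k, rfl⟩ : ∃ k', k = k' + 1 := ⟨k - 1, by omega⟩
  have hm' : 0 < m := by omega
  -- the generating tuples
  let S : ℕ → Fin (k + 1) → FreeGroup (Fin (m + 1)) := fun n =>
    Fin.cons (FreeGroup.of 0) (fun j : Fin k =>
      (FreeGroup.of 0) ^ (FreeArrow_l m k hm' n (0, j)).1 *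
        FreeGroup.of (FreeArrow_l m k hm' n (0, j)).2.succ *
        ((FreeGroup.of 0) ^ (FreeArrow_l m k hm' n (0, j)).1)⁻¹)
  refine ⟨k + 1, FreeGroup.of, S, ?_, ?_, ?_⟩
  · exact FreeGroup.closure_range_of _
  · intro n
    show Subgroup.closure (Set.range (S n)) = ⊤
    rw [eq_top_iff, ← FreeGroup.closure_range_of, Subgroup.closure_le]
    rintro _ ⟨i, rfl⟩
    refine Fin.cases ?_ (fun j => ?_) i
    · exact Subgroup.subset_closure ⟨0, rfl⟩
    · apply Subgroup.subset_closure
      have hj : (j : ℕ) < k := lt_of_lt_of_le j.2 (by omega)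
      refine ⟨(⟨j, hj⟩ : Fin k).succ, ?_⟩
      have h1 : FreeArrow_l m k hm' n (0, ⟨j, hj⟩) = (0, j) := by
        simp [FreeArrow_l]
      show (FreeGroup.of 0) ^ (FreeArrow_l m k hm' n (0, ⟨j, hj⟩)).1 *
        FreeGroup.of (FreeArrow_l m k hm' n (0, ⟨j, hj⟩)).2.succ *
        ((FreeGroup.of 0) ^ (FreeArrow_l m k hm' n (0, ⟨j, hj⟩)).1)⁻¹ = _
      rw [h1]
      simp
  · rw [conv_iff]
    intro w
    have hlift : FreeGroup.lift (FreeGroup.of : Fin (k + 1) → FreeGroup (Fin (k + 1))) w = w := by
      rw [FreeGroup.lift_of_eq_id]; rfl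
    rw [hlift]
    by_cases hw : w = 1
    · subst hw
      simp
    · -- the map of semidirect products
      let Λ : ℕ → FreeArrow_S (Fin k) →* FreeArrow_S (Fin m) := fun n =>
        SemidirectProduct.map (FreeGroup.map (FreeArrow_l m k hm' n)) (MonoidHom.id _) (by
          intro z
          apply FreeGroup.ext_hom
          rintro ⟨i, j⟩
          show FreeGroup.map _ (FreeArrow_act (Fin k) z (FreeGroup.of (i, j))) =
            FreeArrow_act (Fin m) z (FreeGroup.map _ (FreeGroup.of (i, j)))
          rw [FreeArrow_act_of, FreeGroup.map.of, FreeGroup.map.of]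
          by_cases h : (j : ℕ) < m
          · have e1 : FreeArrow_l m k hm' n (i + z.toAdd, j) = (i + z.toAdd, ⟨j, h⟩) := by
              simp [FreeArrow_l, h]
            have e2 : FreeArrow_l m k hm' n (i, j) = (i, ⟨j, h⟩) := by
              simp [FreeArrow_l, h]
            rw [e1, e2, FreeArrow_act_of]
          · have e1 : FreeArrow_l m k hm' n (i + z.toAdd, j) =
                (i + z.toAdd + n * ((j : ℕ) + 1 - m : ℕ), ⟨0, hm'⟩) := by
              simp [FreeArrow_l, h]
            have e2 : FreeArrow_l m k hm' n (i, j) =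
                (i + n * ((j : ℕ) + 1 - m : ℕ), ⟨0, hm'⟩) := by
              simp [FreeArrow_l, h]
            rw [e1, e2, FreeArrow_act_of, add_right_comm])
      have hΛ : ∀ n, (FreeArrow_theta m).comp (FreeGroup.lift (S n)) =
          (Λ n).comp (FreeArrow_theta k) := by
        intro n
        apply FreeGroup.ext_hom
        intro i
        refine Fin.cases ?_ (fun j => ?_) i
        · rw [MonoidHom.comp_apply, MonoidHom.comp_apply, FreeArrow_theta_zero,
            FreeGroup.lift_apply_of]
          show FreeArrow_theta m (FreeGroup.of 0) = _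
          rw [FreeArrow_theta_zero, SemidirectProduct.map_inr]
          rfl
        · rw [MonoidHom.comp_apply, MonoidHom.comp_apply, FreeArrow_theta_succ,
            FreeGroup.lift_apply_of]
          show FreeArrow_theta m ((FreeGroup.of 0) ^ (FreeArrow_l m k hm' n (0, j)).1 *
            FreeGroup.of (FreeArrow_l m k hm' n (0, j)).2.succ *
            ((FreeGroup.of 0) ^ (FreeArrow_l m k hm' n (0, j)).1)⁻¹) = _
          rw [SemidirectProduct.map_inl, FreeGroup.map.of, map_mul, map_mul, map_inv, map_zpow,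
            FreeArrow_theta_zero, FreeArrow_theta_succ, ← map_zpow, ← map_inv,
            ← SemidirectProduct.inl_aut, FreeArrow_act_of]
          have e : ∀ p : ℤ × Fin m,
              ((0 : ℤ) + ((Multiplicative.ofAdd (1 : ℤ)) ^ p.1).toAdd, p.2) = p := by
            rintro ⟨a, b⟩
            simp
          rw [e]
      have hne : ∀ᶠ n in atTop, Λ n (FreeArrow_theta k w) ≠ 1 := by
        have h1 : FreeArrow_theta k w ≠ 1 := fun h =>
          hw (FreeArrow_theta_inj k (h.trans (map_one _).symm))
        by_cases hz : (FreeArrow_theta k w).right = 1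
        · have hg : (FreeArrow_theta k w).left ≠ 1 := by
            intro h
            exact h1 (SemidirectProduct.ext h hz)
          filter_upwards [map_eventually _ hg _ (FreeArrow_l_inj m k hm')] with n hn h
          exact hn (congrArg SemidirectProduct.left h)
        · refine Eventually.of_forall fun n h => hz ?_
          exact congrArg SemidirectProduct.right h
      filter_upwards [hne] with n hn
      refine ⟨fun h => ?_, fun h => absurd h hw⟩
      exfalso
      apply hn
      have h1 := DFunLike.congr_fun (hΛ n) w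
      rw [MonoidHom.comp_apply, MonoidHom.comp_apply] at h1
      rw [← h1, h, map_one]

end FComp
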