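import Pool.Agent.FComp.Wr

/-!
# Module FAM: the commutators `[a, b ^ j]` are free generators
-/

namespace FComp

open scoped commutatorElement

/-- The shift of the letters. -/
def FreeFam_act : Multiplicative ℤ →* MulAut (FreeGroup ℤ) where
  toFun z := FreeGroup.freeGroupCongr (Equiv.addRight z.toAdd)
  map_one' := by
    apply MulEquiv.toMonoidHom_injective
    apply FreeGroup.ext_hom
    intro i
    simp [FreeGroup.freeGroupCongr]
  map_mul' z z' := by
    apply MulEquiv.toMonoidHom_injective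
    apply FreeGroup.ext_hom
    intro i
    simp [FreeGroup.freeGroupCongr]
    ring_nf

theorem FreeFam_act_of (z : Multiplicative ℤ) (i : ℤ) :
    FreeFam_act z (FreeGroup.of i) = FreeGroup.of (i + z.toAdd) := by
  simp [FreeFam_act, FreeGroup.freeGroupCongr]

/-- the homomorphism of the hint -/
noncomputable def FreeFam_phi : F2 →* FreeGroup ℤ ⋊[FreeFam_act] Multiplicative ℤ :=
  FreeGroup.lift ![SemidirectProduct.inl (FreeGroup.of 0), SemidirectProduct.inr (Multiplicative.ofAdd 1)]

theorem FreeFam_phi_cc (j : ℕ) : FreeFam_phi (cc j) =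
    SemidirectProduct.inl (FreeGroup.of 0 * (FreeGroup.of ((j : ℤ) + 1))⁻¹) := by
  have h0 : FreeFam_phi (FreeGroup.of 0) = SemidirectProduct.inl (FreeGroup.of 0) := by
    simp [FreeFam_phi]
  have h1 : FreeFam_phi (FreeGroup.of 1) = SemidirectProduct.inr (Multiplicative.ofAdd 1) := by
    simp [FreeFam_phi]
  rw [cc, map_commutatorElement, map_pow, h0, h1, commutatorElement_def, ← map_pow, mul_assoc,
    mul_assoc, ← mul_assoc (SemidirectProduct.inr _) _ _, ← map_inv, ← map_inv,
    ← SemidirectProduct.inl_aut, map_inv, FreeFam_act_of, ← map_mul]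
  simp

/-- HINT: the homomorphism `F2 → FreeGroup ℤ ⋊ Multiplicative ℤ`, `a ↦ of 0`, `b ↦` shift, sends
`cc j` to `of 0 * (of (j + 1))⁻¹` (up to the sign of the shift); then `of 0 ↦ 1`,
`of (j + 1) ↦ (letter j)⁻¹` is a left inverse. -/
theorem cc_free (k : ℕ) : Function.Injective (FreeGroup.lift fun i : Fin k => cc i) := by
  let L : FreeGroup (Fin k) →* FreeGroup ℤ :=
    FreeGroup.lift fun i : Fin k => FreeGroup.of 0 * (FreeGroup.of (((i : ℕ) : ℤ) + 1))⁻¹
  let ψ : FreeGroup ℤ →* FreeGroup (Fin k) :=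
    FreeGroup.lift fun z : ℤ => if h : (z - 1).toNat < k ∧ 1 ≤ z then
      (FreeGroup.of (⟨(z - 1).toNat, h.1⟩ : Fin k))⁻¹ else 1
  have h1 : ψ.comp L = MonoidHom.id _ := by
    apply FreeGroup.ext_hom
    intro i
    have h0 : ψ (FreeGroup.of 0) = 1 := by
      simp [ψ]
    have h2 : ψ (FreeGroup.of (((i : ℕ) : ℤ) + 1)) = (FreeGroup.of i)⁻¹ := by
      have h3 : ((((i : ℕ) : ℤ) + 1) - 1).toNat = i := by simp
      simp only [ψ, FreeGroup.lift_apply_of]
      rw [dif_pos ⟨by rw [h3]; exact i.2, by omega⟩]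
      congr 2
      exact Fin.ext h3
    simp only [L, MonoidHom.comp_apply, FreeGroup.lift_apply_of, map_mul, map_inv, h0, h2,
      MonoidHom.id_apply, one_mul, inv_inv]
  have h2 : FreeFam_phi.comp (FreeGroup.lift fun i : Fin k => cc i) =
      SemidirectProduct.inl.comp L := by
    apply FreeGroup.ext_hom
    intro i
    simp only [MonoidHom.comp_apply, FreeGroup.lift_apply_of, L]
    exact FreeFam_phi_cc i
  intro x y hxy
  have h3 : FreeFam_phi (FreeGroup.lift (fun i : Fin k => cc i) x) =
      FreeFam_phi (FreeGroup.lift (fun i : Fin k => cc i) y) := congrArg _ hxy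
  have h4 : (SemidirectProduct.inl (L x) : FreeGroup ℤ ⋊[FreeFam_act] Multiplicative ℤ) =
      SemidirectProduct.inl (L y) :=
    (DFunLike.congr_fun h2 x).symm.trans (h3.trans (DFunLike.congr_fun h2 y))
  have h5 : L x = L y := SemidirectProduct.inl_injective h4
  calc x = ψ (L x) := (DFunLike.congr_fun h1 x).symm
    _ = ψ (L y) := by rw [h5]
    _ = y := DFunLike.congr_fun h1 y

end FComp
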