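import Pool.Agent.FComp.WrA

/-!
# Module WRB: the tuples `tup n` generate
-/

namespace FComp

open scoped commutatorElement

/-- The normal closure of one commutator. -/
theorem comm_le : commutator F2 ≤
    Subgroup.normalClosure {⁅(FreeGroup.of 0 : F2), FreeGroup.of 1⁆} := by
  set N : Subgroup F2 := Subgroup.normalClosure {⁅(FreeGroup.of 0 : F2), FreeGroup.of 1⁆}
    with hN
  have h01 : Commute (QuotientGroup.mk' N (FreeGroup.of 0)) (QuotientGroup.mk' N
      (FreeGroup.of 1)) := by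
    rw [← commutatorElement_eq_one_iff_commute, ← map_commutatorElement]
    exact (QuotientGroup.eq_one_iff _).2 (Subgroup.subset_normalClosure rfl)
  have hgen : ∀ i j : Fin 2, Commute (QuotientGroup.mk' N (FreeGroup.of i))
      (QuotientGroup.mk' N (FreeGroup.of j)) := by
    intro i j
    fin_cases i <;> fin_cases j
    · exact Commute.refl _
    · exact h01
    · exact h01.symm
    · exact Commute.refl _
  have h2 : ∀ (i : Fin 2) (y : F2), Commute (QuotientGroup.mk' N (FreeGroup.of i))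
      (QuotientGroup.mk' N y) := by
    intro i y
    induction y using FreeGroup.induction_on with
    | C1 => rw [map_one]; exact Commute.one_right _
    | of j => exact hgen i j
    | inv_of j h => rw [map_inv]; exact h.inv_right
    | mul x y hx hy => rw [map_mul]; exact hx.mul_right hy
  have h3 : ∀ (x y : F2), Commute (QuotientGroup.mk' N x) (QuotientGroup.mk' N y) := by
    intro x y
    induction x using FreeGroup.induction_on with
    | C1 => rw [map_one]; exact Commute.one_left _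
    | of j => exact h2 j y
    | inv_of j h => rw [map_inv]; exact h.inv_left
    | mul x z hx hz => rw [map_mul]; exact hx.mul_left hz
  rw [commutator_def, Subgroup.commutator_le]
  intro x _ y _
  have h4 := h3 x y
  rw [← commutatorElement_eq_one_iff_commute, ← map_commutatorElement] at h4
  exact (QuotientGroup.eq_one_iff _).1 h4

theorem WrB_conj_lp (x : W) (f : P → F2) :
    x * lp f * x⁻¹ = lp (fun u => x.left u * f (x.right⁻¹ * u) * (x.left u)⁻¹) := by
  apply RegularWreathProduct.ext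
  · funext u
    simp [lp]
  · simp [lp]

theorem WrB_conj_sg (x : W) (w : P) (l : F2) :
    x * sg w l * x⁻¹ =
      sg (x.right * w) (x.left (x.right * w) * l * (x.left (x.right * w))⁻¹) := by
  rw [sg, WrB_conj_lp, sg]
  congr 1
  funext u
  by_cases h : u = x.right * w
  · subst h
    simp
  · have h' : x.right⁻¹ * u ≠ w := fun h' => h (by rw [← h']; simp)
    rw [Pi.mulSingle_eq_of_ne h, Pi.mulSingle_eq_of_ne h']
    simp

theorem WrB_lp_mul (f g : P → F2) : lp f * lp g = lp (f * g) := by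
  apply RegularWreathProduct.ext
  · funext u
    simp [lp]
  · simp [lp]

theorem WrB_lp_inv (f : P → F2) : (lp f)⁻¹ = lp f⁻¹ := by
  apply RegularWreathProduct.ext
  · funext u
    simp [lp]
  · simp [lp]

theorem WrB_comm_lp (f g : P → F2) : ⁅lp f, lp g⁆ = lp (fun u => ⁅f u, g u⁆) := by
  rw [commutatorElement_def, WrB_lp_inv, WrB_lp_inv, WrB_lp_mul, WrB_lp_mul, WrB_lp_mul]
  rfl

theorem WrB_pow0 (n k : ℕ) : (tup n 0 ^ k).right = Multiplicative.ofAdd ((k : ℤ), (0 : ℤ)) ∧
    ∀ u : P, (n : ℤ) < |u.toAdd.2| → (tup n 0 ^ k).left u = 1 := by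
  induction k with
  | zero =>
    refine ⟨?_, fun u _ => ?_⟩
    · rw [pow_zero, RegularWreathProduct.one_right]
      rfl
    · rw [pow_zero, RegularWreathProduct.one_left]
      rfl
  | succ k ih =>
    rw [pow_succ']
    refine ⟨?_, fun u hu => ?_⟩
    · rw [RegularWreathProduct.mul_right, ih.1]
      show Multiplicative.ofAdd ((1 : ℤ), (0 : ℤ)) * _ = _
      rw [← ofAdd_add]
      congr 1
      ext
      · simp [add_comm]
      · simp
    · rw [RegularWreathProduct.mul_left]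
      have h1 : (tup n 0).left u = 1 := by
        show sq n (cc 0) u = 1
        unfold sq
        rw [if_neg]
        rintro ⟨-, h⟩
        exact absurd h (not_le.2 hu)
      have h2 : (tup n 0 ^ k).left ((tup n 0).right⁻¹ * u) = 1 := by
        apply ih.2
        have : ((tup n 0).right⁻¹ * u).toAdd.2 = u.toAdd.2 := by
          show ((Multiplicative.ofAdd ((1 : ℤ), (0 : ℤ)))⁻¹ * u).toAdd.2 = u.toAdd.2
          rw [toAdd_mul, toAdd_inv, toAdd_ofAdd]
          simp
        rw [this]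
        exact hu
      rw [Pi.mul_apply, h1, h2, one_mul]

/-- the place of the far lamp -/
def WrBw (n : ℕ) : P := Multiplicative.ofAdd (2 * (n : ℤ) + 1, (n : ℤ) + 1)

theorem WrB_sq_far (n : ℕ) (l : F2) {u : P} (h : ¬(|u.toAdd.1| ≤ n ∧ |u.toAdd.2| ≤ n)) :
    sq n l u = 1 := by
  unfold sq
  rw [if_neg h]

theorem WrB_t3 (n : ℕ) : ∃ f : P → F2, tup n 3 = lp f ∧ f (WrBw n) = FreeGroup.of 1 ∧
    ∀ u, u ≠ WrBw n → ¬(|u.toAdd.1| ≤ n ∧ |u.toAdd.2| ≤ n) → f u = 1 := by
  refine ⟨_, rfl, ?_, fun u hu hs => ?_⟩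
  · rw [Pi.mul_apply, WrB_sq_far, one_mul]
    · exact Pi.mulSingle_eq_same _ _
    · rintro ⟨-, h⟩
      have h' : |(n : ℤ) + 1| ≤ n := h
      rw [abs_of_nonneg (by positivity)] at h'
      omega
  · rw [Pi.mul_apply, WrB_sq_far n _ hs, one_mul]
    exact Pi.mulSingle_eq_of_ne hu _

theorem WrB_t2 (n : ℕ) : ∃ f : P → F2,
    tup n 0 ^ (2 * n + 1) * tup n 2 * (tup n 0 ^ (2 * n + 1))⁻¹ = lp f ∧
      f (WrBw n) = FreeGroup.of 0 ∧
      ∀ u : P, (|u.toAdd.1| ≤ (n : ℤ) ∧ |u.toAdd.2| ≤ (n : ℤ)) → f u = 1 := by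
  obtain ⟨hr, hl⟩ := WrB_pow0 n (2 * n + 1)
  have e2 : tup n 2 = lp (sq n (cc 2) * Pi.mulSingle
    (Multiplicative.ofAdd ((0 : ℤ), (n : ℤ) + 1)) (FreeGroup.of 0)) := rfl
  rw [e2, WrB_conj_lp]
  refine ⟨_, rfl, ?_, fun u hs => ?_⟩
  · have h1 : (tup n 0 ^ (2 * n + 1)).left (WrBw n) = 1 := by
      apply hl
      show (n : ℤ) < |(n : ℤ) + 1|
      rw [abs_of_nonneg (by positivity)]
      omega
    have h2 : (Multiplicative.ofAdd (((2 * n + 1 : ℕ) : ℤ), (0 : ℤ)))⁻¹ * WrBw n =
        Multiplicative.ofAdd ((0 : ℤ), (n : ℤ) + 1) := by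
      unfold WrBw
      rw [← ofAdd_neg, ← ofAdd_add]
      congr 1
      ext
      · simp
      · simp
    rw [hr, h1, h2, Pi.mul_apply, WrB_sq_far]
    · simp
    · rintro ⟨-, h⟩
      have h' : |(n : ℤ) + 1| ≤ n := h
      rw [abs_of_nonneg (by positivity)] at h'
      omega
  · have ha : ((Multiplicative.ofAdd (((2 * n + 1 : ℕ) : ℤ), (0 : ℤ)))⁻¹ * u).toAdd =
        (u.toAdd.1 - (2 * n + 1), u.toAdd.2) := by
      rw [toAdd_mul, toAdd_inv, toAdd_ofAdd]
      ext
      · simp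
        ring
      · simp
    rw [hr, Pi.mul_apply, WrB_sq_far, Pi.mulSingle_eq_of_ne]
    · simp
    · intro h
      rw [← ofAdd_toAdd ((Multiplicative.ofAdd (((2 * n + 1 : ℕ) : ℤ), (0 : ℤ)))⁻¹ * u),
        ha] at h
      have h7 : u.toAdd.2 = (n : ℤ) + 1 := congrArg (fun v : P => v.toAdd.2) h
      have h8 := abs_le.1 hs.2
      omega
    · rintro ⟨h, -⟩
      rw [ha] at h
      have h' : |u.toAdd.1 - (2 * (n : ℤ) + 1)| ≤ n := h
      have h5 := abs_le.1 h'
      have h6 := abs_le.1 hs.1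
      omega

/-- the far lamp -/
theorem WrB_far (n : ℕ) :
    ⁅tup n 0 ^ (2 * n + 1) * tup n 2 * (tup n 0 ^ (2 * n + 1))⁻¹, tup n 3⁆ =
      sg (WrBw n) ⁅(FreeGroup.of 0 : F2), FreeGroup.of 1⁆ := by
  obtain ⟨f, h1, h2, h3⟩ := WrB_t2 n
  obtain ⟨f', h1', h2', h3'⟩ := WrB_t3 n
  rw [h1, h1', WrB_comm_lp, sg]
  congr 1
  funext u
  by_cases hu : u = WrBw n
  · subst hu
    rw [h2, h2', Pi.mulSingle_eq_same]
  · rw [Pi.mulSingle_eq_of_ne hu]
    by_cases hs : |u.toAdd.1| ≤ n ∧ |u.toAdd.2| ≤ n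
    · rw [h3 u hs, commutatorElement_one_left]
    · rw [h3' u hu hs, commutatorElement_one_right]

theorem WrB_sg_mul (w : P) (l l' : F2) : sg w (l * l') = sg w l * sg w l' := by
  rw [sg, sg, sg, WrB_lp_mul, Pi.mulSingle_mul]

theorem WrB_cc_mem (i : ℕ) : cc i ∈ commutator F2 :=
  Subgroup.commutator_mem_commutator (Subgroup.mem_top _) (Subgroup.mem_top _)

theorem WrB_finite (n : ℕ) (l : F2) : {u | sq n l u ≠ 1}.Finite := by
  have h : ((Set.Icc (-(n : ℤ)) n ×ˢ Set.Icc (-(n : ℤ)) n).image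
      (Multiplicative.ofAdd : ℤ × ℤ → P)).Finite :=
    ((Set.finite_Icc _ _).prod (Set.finite_Icc _ _)).image _
  refine h.subset fun u hu => ?_
  by_cases hs : |u.toAdd.1| ≤ n ∧ |u.toAdd.2| ≤ n
  · exact ⟨u.toAdd, ⟨abs_le.1 hs.1, abs_le.1 hs.2⟩, rfl⟩
  · exact absurd (WrB_sq_far n l hs) hu

/-- HINT: let `B` be the closure and `h i = tup n i`. `h 0 ^ (2 n + 1)` conjugates
`h 2` to an element `h'` with lamps in the translated square and the lamp `a` at
`w = (2 n + 1, n + 1)` (the lamps of `h 0 ^ (2 n + 1)` at `w` are trivial because the second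
coordinate is `n + 1`), so `⁅h', h 3⁆ = sg w ⁅a, b⁆`. Conjugation by `h'` and `h 3` and `comm_le`
give all `sg w l` with `l ∈ commutator F2`, conjugation by `h 0`, `h 1` gives all `sg u l` with
`l ∈ commutator F2`, `lp_mem` gives `lp (sq n (cc i))`, so the shifts and `a`, `b` are in `B`. -/
theorem tup_gen (n : ℕ) : Subgroup.closure (tup n '' {0, 1, 2, 3}) = A := by
  set B := Subgroup.closure (tup n '' {0, 1, 2, 3}) with hB
  apply le_antisymm
  · rw [hB, Subgroup.closure_le]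
    rintro _ ⟨j, -, rfl⟩
    exact tup_mem n j
  have m0 : tup n 0 ∈ B := Subgroup.subset_closure ⟨0, by simp, rfl⟩
  have m1 : tup n 1 ∈ B := Subgroup.subset_closure ⟨1, by simp, rfl⟩
  have m2 : tup n 2 ∈ B := Subgroup.subset_closure ⟨2, by simp, rfl⟩
  have m3 : tup n 3 ∈ B := Subgroup.subset_closure ⟨3, by simp, rfl⟩
  have m2' : tup n 0 ^ (2 * n + 1) * tup n 2 * (tup n 0 ^ (2 * n + 1))⁻¹ ∈ B :=
    B.mul_mem (B.mul_mem (B.pow_mem m0 _) m2) (B.inv_mem (B.pow_mem m0 _))
  -- all values at the far place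
  have key : ∀ y : F2, ∃ x ∈ B, x.right = 1 ∧ x.left (WrBw n) = y := by
    intro y
    induction y using FreeGroup.induction_on with
    | C1 => exact ⟨1, B.one_mem, rfl, rfl⟩
    | of i =>
      fin_cases i
      · obtain ⟨f, h1, h2, -⟩ := WrB_t2 n
        exact ⟨_, m2', by rw [h1]; rfl, by rw [h1]; exact h2⟩
      · obtain ⟨f, h1, h2, -⟩ := WrB_t3 n
        exact ⟨_, m3, by rw [h1]; rfl, by rw [h1]; exact h2⟩
    | inv_of i h =>
      obtain ⟨x, hx, h1, h2⟩ := h
      refine ⟨x⁻¹, B.inv_mem hx, by rw [RegularWreathProduct.inv_right, h1, inv_one], ?_⟩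
      rw [RegularWreathProduct.inv_left, h1]
      show (x.left (1 * WrBw n))⁻¹ = _
      rw [one_mul, h2]
    | mul y z hy hz =>
      obtain ⟨x, hx, h1, h2⟩ := hy
      obtain ⟨x', hx', h1', h2'⟩ := hz
      refine ⟨x * x', B.mul_mem hx hx',
        by rw [RegularWreathProduct.mul_right, h1, h1', one_mul], ?_⟩
      rw [RegularWreathProduct.mul_left, Pi.mul_apply, h1, inv_one, one_mul, h2, h2']
  -- the commutator subgroup at the far place
  have hfar : ∀ l ∈ commutator F2, sg (WrBw n) l ∈ B := by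
    let S : Subgroup F2 :=
      { carrier := {l | sg (WrBw n) l ∈ B}
        mul_mem' := fun {l l'} h h' => by
          show sg (WrBw n) (l * l') ∈ B
          rw [WrB_sg_mul]
          exact B.mul_mem h h'
        one_mem' := by
          show sg (WrBw n) 1 ∈ B
          have : sg (WrBw n) 1 = 1 := by
            rw [sg, Pi.mulSingle_one]
            rfl
          rw [this]
          exact B.one_mem
        inv_mem' := fun {l} h => by
          show sg (WrBw n) l⁻¹ ∈ B
          have : sg (WrBw n) l⁻¹ = (sg (WrBw n) l)⁻¹ := by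
            rw [sg, sg, WrB_lp_inv, Pi.mulSingle_inv]
          rw [this]
          exact B.inv_mem h }
    have hS : S.Normal := ⟨fun l hl y => by
      obtain ⟨x, hx, h1, h2⟩ := key y
      have h3 := WrB_conj_sg x (WrBw n) l
      rw [h1, one_mul, h2] at h3
      show sg (WrBw n) (y * l * y⁻¹) ∈ B
      rw [← h3]
      exact B.mul_mem (B.mul_mem hx hl) (B.inv_mem hx)⟩
    have h5 : ⁅(FreeGroup.of 0 : F2), FreeGroup.of 1⁆ ∈ S := by
      show sg (WrBw n) _ ∈ B
      rw [← WrB_far, commutatorElement_def]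
      exact B.mul_mem (B.mul_mem (B.mul_mem m2' m3) (B.inv_mem m2')) (B.inv_mem m3)
    intro l hl
    have h6 : Subgroup.normalClosure {⁅(FreeGroup.of 0 : F2), FreeGroup.of 1⁆} ≤ S :=
      Subgroup.normalClosure_le_normal (Set.singleton_subset_iff.2 h5)
    exact h6 (comm_le hl)
  -- the commutator subgroup everywhere
  have hall : ∀ u : P, ∀ l ∈ (commutator F2 : Set F2), sg u l ∈ B := by
    intro u l hl
    obtain ⟨x, hx, hxr⟩ : ∃ x ∈ B, x.right * WrBw n = u := by
      refine ⟨tup n 0 ^ ((u * (WrBw n)⁻¹).toAdd.1) * tup n 1 ^ ((u * (WrBw n)⁻¹).toAdd.2),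
        B.mul_mem (B.zpow_mem m0 _) (B.zpow_mem m1 _), ?_⟩
      have h1 : (tup n 0 ^ ((u * (WrBw n)⁻¹).toAdd.1) *
          tup n 1 ^ ((u * (WrBw n)⁻¹).toAdd.2)).right = u * (WrBw n)⁻¹ := by
        have h2 : ∀ x : W, x.right = RegularWreathProduct.rightHom x := fun _ => rfl
        rw [h2, map_mul, map_zpow, map_zpow]
        show Multiplicative.ofAdd ((1 : ℤ), (0 : ℤ)) ^ _ *
          Multiplicative.ofAdd ((0 : ℤ), (1 : ℤ)) ^ _ = _
        rw [← ofAdd_zsmul, ← ofAdd_zsmul, ← ofAdd_add]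
        rw [← ofAdd_toAdd (u * (WrBw n)⁻¹)]
        congr 1
        ext
        · simp
        · simp
      rw [h1, inv_mul_cancel_right]
    set g := x.left (x.right * WrBw n) with hg
    have h1 := WrB_conj_sg x (WrBw n) (g⁻¹ * l * g)
    have h2 : g * (g⁻¹ * l * g) * g⁻¹ = l := by group
    rw [← hg, h2, hxr] at h1
    rw [← h1]
    refine B.mul_mem (B.mul_mem hx (hfar _ ?_)) (B.inv_mem hx)
    have hn : (commutator F2).Normal := inferInstance
    have h3 := hn.conj_mem l hl g⁻¹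
    rwa [inv_inv] at h3
  have hlp : ∀ i, lp (sq n (cc i)) ∈ B := by
    intro i
    refine lp_mem B (commutator F2 : Set F2) hall _ (WrB_finite n _) ?_
    intro u hu
    by_cases hs : |u.toAdd.1| ≤ n ∧ |u.toAdd.2| ≤ n
    · have : sq n (cc i) u = cc i := by
        unfold sq
        rw [if_pos hs]
      rw [this]
      exact WrB_cc_mem i
    · exact absurd (WrB_sq_far n _ hs) hu
  -- the shifts
  have t1 : tr (1, 0) ∈ B := by
    have h1 : tup n 0 = lp (sq n (cc 0)) * tr (1, 0) := by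
      apply RegularWreathProduct.ext
      · funext u
        simp [lp, tr, tup]
      · simp [lp, tr, tup]
    have h2 : tr (1, 0) = (lp (sq n (cc 0)))⁻¹ * tup n 0 := by rw [h1, inv_mul_cancel_left]
    rw [h2]
    exact B.mul_mem (B.inv_mem (hlp 0)) m0
  have t2 : tr (0, 1) ∈ B := by
    have h1 : tup n 1 = lp (sq n (cc 1)) * tr (0, 1) := by
      apply RegularWreathProduct.ext
      · funext u
        simp [lp, tr, tup]
      · simp [lp, tr, tup]
    have h2 : tr (0, 1) = (lp (sq n (cc 1)))⁻¹ * tup n 1 := by rw [h1, inv_mul_cancel_left]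
    rw [h2]
    exact B.mul_mem (B.inv_mem (hlp 1)) m1
  have tall : ∀ z : ℤ × ℤ, tr z ∈ B := by
    intro z
    have h1 : tr z = tr (1, 0) ^ z.1 * tr (0, 1) ^ z.2 := by
      have h2 : ∀ z : ℤ × ℤ, tr z = RegularWreathProduct.inl (Multiplicative.ofAdd z) :=
        fun _ => rfl
      rw [h2 z, h2 (1, 0), h2 (0, 1),
        ← map_zpow (RegularWreathProduct.inl : P →* W),
        ← map_zpow (RegularWreathProduct.inl : P →* W),
        ← map_mul (RegularWreathProduct.inl : P →* W),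
        ← ofAdd_zsmul, ← ofAdd_zsmul, ← ofAdd_add]
      congr 2
      ext
      · simp
      · simp
    rw [h1]
    exact B.mul_mem (B.zpow_mem t1 _) (B.zpow_mem t2 _)
  -- the single lamps
  have hs : ∀ (z : ℤ × ℤ) (l : F2), sg (Multiplicative.ofAdd z) l ∈ B → sg 1 l ∈ B := by
    intro z l h
    have h1 := tr_conj_sg (-z) (Multiplicative.ofAdd z) l
    rw [← ofAdd_add, neg_add_cancel, ofAdd_zero] at h1
    rw [← h1]
    exact B.mul_mem (B.mul_mem (tall _) h) (B.inv_mem (tall _))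
  have a1 : sg 1 (FreeGroup.of 0) ∈ B := by
    refine hs ((0 : ℤ), (n : ℤ) + 1) _ ?_
    have h1 : tup n 2 = lp (sq n (cc 2)) *
        sg (Multiplicative.ofAdd ((0 : ℤ), (n : ℤ) + 1)) (FreeGroup.of 0) := by
      rw [sg, WrB_lp_mul]
      rfl
    have h2 : sg (Multiplicative.ofAdd ((0 : ℤ), (n : ℤ) + 1)) (FreeGroup.of 0) =
        (lp (sq n (cc 2)))⁻¹ * tup n 2 := by rw [h1, inv_mul_cancel_left]
    rw [h2]
    exact B.mul_mem (B.inv_mem (hlp 2)) m2
  have a2 : sg 1 (FreeGroup.of 1) ∈ B := by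
    refine hs (2 * (n : ℤ) + 1, (n : ℤ) + 1) _ ?_
    have h1 : tup n 3 = lp (sq n (cc 3)) *
        sg (Multiplicative.ofAdd (2 * (n : ℤ) + 1, (n : ℤ) + 1)) (FreeGroup.of 1) := by
      rw [sg, WrB_lp_mul]
      rfl
    have h2 : sg (Multiplicative.ofAdd (2 * (n : ℤ) + 1, (n : ℤ) + 1)) (FreeGroup.of 1) =
        (lp (sq n (cc 3)))⁻¹ * tup n 3 := by rw [h1, inv_mul_cancel_left]
    rw [h2]
    exact B.mul_mem (B.inv_mem (hlp 3)) m3
  rw [A, Subgroup.closure_le]
  rintro x (rfl | rfl | rfl | rfl)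
  · exact a1
  · exact a2
  · exact t1
  · exact t2

end FComp
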