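import Pool.Agent.FComp.FreeFam
import Pool.Agent.FComp.WrB

/-!
# Module GIR: `(F₂ ≀ ℤ²) × Q` converges to free groups
-/

namespace FComp

open scoped commutatorElement

open Filter

theorem Girth_sq (n : ℕ) (l : F2) (u : P) (h1 : |u.toAdd.1| ≤ n) (h2 : |u.toAdd.2| ≤ n) :
    sq n l u = l := by
  unfold sq
  rw [if_pos ⟨h1, h2⟩]

theorem Girth_tup_left (j : ℕ) (u : P) : ∀ᶠ n in atTop, (tup n j).left u = cc j := by
  have h1 : ∀ᶠ n : ℕ in atTop, |u.toAdd.1| ≤ (n : ℤ) := by
    filter_upwards [eventually_ge_atTop (|u.toAdd.1|).toNat] with n hn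
    omega
  have h2 : ∀ᶠ n : ℕ in atTop, |u.toAdd.2| ≤ (n : ℤ) := by
    filter_upwards [eventually_ge_atTop (|u.toAdd.2|).toNat] with n hn
    omega
  filter_upwards [h1, h2] with n a1 a2
  have hs : ∀ l, sq n l u = l := fun l => Girth_sq n l u a1 a2
  have hne : ∀ z : ℤ × ℤ, z.2 = n + 1 → u ≠ Multiplicative.ofAdd z := by
    intro z hz h
    rw [h] at a2
    simp only [toAdd_ofAdd] at a2
    rw [hz] at a2
    have := le_abs_self ((n : ℤ) + 1)
    omega
  match j with
  | 0 => exact hs _
  | 1 => exact hs _
  | 2 =>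
    simp only [tup, lp, Pi.mul_apply]
    rw [hs, Pi.mulSingle_eq_of_ne (hne _ rfl), mul_one]
  | 3 =>
    simp only [tup, lp, Pi.mul_apply]
    rw [hs, Pi.mulSingle_eq_of_ne (hne _ rfl), mul_one]
  | j + 4 => exact hs _

/-- The shift part of the tuples. -/
def Girth_rt : ℕ → P
  | 0 => Multiplicative.ofAdd (1, 0)
  | 1 => Multiplicative.ofAdd (0, 1)
  | _ => 1

theorem Girth_tup_right (n j : ℕ) : (tup n j).right = Girth_rt j := by
  match j with
  | 0 => rfl
  | 1 => rfl
  | 2 => rfl
  | 3 => rfl
  | j + 4 => rfl

theorem Girth_lift_right (k : ℕ) (w : FreeGroup (Fin k)) (n : ℕ) :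
    (FreeGroup.lift (fun i : Fin k => tup n i) w).right =
      FreeGroup.lift (fun i : Fin k => Girth_rt i) w := by
  have h : (RegularWreathProduct.rightHom.comp
      (FreeGroup.lift (fun i : Fin k => tup n i)) : FreeGroup (Fin k) →* P) =
      FreeGroup.lift (fun i : Fin k => Girth_rt i) := by
    apply FreeGroup.ext_hom
    intro i
    simp only [MonoidHom.comp_apply, FreeGroup.lift_apply_of]
    exact Girth_tup_right n i
  exact DFunLike.congr_fun h w

/-- The value of a word at `tup n`, lamp by lamp: it is constant for large `n`.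
HINT: `FreeGroup.induction_on`. -/
theorem tup_lim (k : ℕ) (w : FreeGroup (Fin k)) (u : P) :
    ∀ᶠ n in atTop, (FreeGroup.lift (fun i : Fin k => tup n i) w).left u =
      FreeGroup.lift (fun i : Fin k => cc i) w := by
  revert u
  induction w using FreeGroup.induction_on with
  | C1 =>
    intro u
    exact Eventually.of_forall fun n => by simp
  | of i =>
    intro u
    filter_upwards [Girth_tup_left i u] with n hn
    simpa using hn
  | inv_of i _ =>
    intro u
    filter_upwards [Girth_tup_left i (Girth_rt i * u)] with n hn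
    have e1 : (FreeGroup.lift (fun i : Fin k => tup n i)) (FreeGroup.of i)⁻¹ = (tup n i)⁻¹ := by
      rw [map_inv, FreeGroup.lift_apply_of]
    have e2 : (FreeGroup.lift (fun i : Fin k => cc i)) (FreeGroup.of i)⁻¹ = (cc i)⁻¹ := by
      rw [map_inv, FreeGroup.lift_apply_of]
    rw [e1, e2, RegularWreathProduct.inv_left]
    change ((tup n i).left ((tup n i).right * u))⁻¹ = (cc i)⁻¹
    rw [Girth_tup_right, hn]
  | mul x y hx hy =>
    intro u
    filter_upwards [hx u, hy ((FreeGroup.lift (fun i : Fin k => Girth_rt i) x)⁻¹ * u)] with n h1 h2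
    rw [map_mul, map_mul, RegularWreathProduct.mul_left, Pi.mul_apply, Girth_lift_right, h1, h2]

/-- HINT: let `q : Fin r → Q` generate. Generating tuples of `A × Q`: `(tup n i, 1)` for `i < 4`,
`(tup n (4 + j), q j)` for `j < r` and `(tup n i, 1)` for the other `i < k`. -/
theorem arrow_free (Q : Type) [Group Q] (hQ : Group.FG Q) :
    ∃ k₀, ∀ k, k₀ ≤ k → Arrow (A × Q) (FreeGroup (Fin k)) := by
  classical
  obtain ⟨r, q, hq⟩ := exists_gen Q hQ
  refine ⟨4 + r, fun k hk => ?_⟩
  set qq : ℕ → Q := fun i => if h : 4 ≤ i ∧ i - 4 < r then q ⟨i - 4, h.2⟩ else 1 with hqq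
  set S : ℕ → Fin k → A × Q := fun n i => (⟨tup n i, tup_mem n i⟩, qq i) with hS
  refine ⟨k, FreeGroup.of, S, ?_, ?_, ?_⟩
  · unfold Gen
    exact FreeGroup.closure_range_of (Fin k)
  · intro n
    unfold Gen
    set B := Subgroup.closure (Set.range (S n)) with hB
    have hfirst : ∀ a : A, ((a, 1) : A × Q) ∈ B := by
      have hle : Subgroup.closure (tup n '' {0, 1, 2, 3}) ≤
          (B.comap (MonoidHom.inl A Q)).map A.subtype := by
        rw [Subgroup.closure_le]
        rintro x ⟨j, hj, rfl⟩
        have hj4 : j < 4 := by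
          simp only [Set.mem_insert_iff, Set.mem_singleton_iff] at hj
          omega
        refine ⟨⟨tup n j, tup_mem n j⟩, ?_, rfl⟩
        rw [SetLike.mem_coe, Subgroup.mem_comap]
        have : S n ⟨j, by omega⟩ = MonoidHom.inl A Q ⟨tup n j, tup_mem n j⟩ := by
          simp only [hS, MonoidHom.inl_apply, Prod.mk.injEq, true_and, hqq]
          rw [dif_neg (by omega)]
        rw [← this]
        exact Subgroup.subset_closure ⟨_, rfl⟩
      intro a
      have ha : (a : W) ∈ Subgroup.closure (tup n '' {0, 1, 2, 3}) := by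
        rw [tup_gen n]
        exact a.2
      obtain ⟨b, hb, hba⟩ := hle ha
      have : b = a := Subtype.ext hba
      rw [this, SetLike.mem_coe, Subgroup.mem_comap] at hb
      exact hb
    have hsecond : ∀ y : Q, ((1, y) : A × Q) ∈ B := by
      intro y
      have hy : y ∈ Subgroup.closure (Set.range q) := by
        rw [show Subgroup.closure (Set.range q) = ⊤ from hq]
        trivial
      have hle : Subgroup.closure (Set.range q) ≤ B.comap (MonoidHom.inr A Q) := by
        rw [Subgroup.closure_le]
        rintro x ⟨j, rfl⟩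
        rw [SetLike.mem_coe, Subgroup.mem_comap, MonoidHom.inr_apply]
        have hj := j.2
        have h1 : S n ⟨4 + j, by omega⟩ ∈ B := Subgroup.subset_closure ⟨_, rfl⟩
        have h2 : S n ⟨4 + j, by omega⟩ = (⟨tup n (4 + j), tup_mem n (4 + j)⟩, q j) := by
          simp only [hS, Prod.mk.injEq, true_and, hqq]
          rw [dif_pos (by omega)]
          congr 1
          ext
          simp
        rw [h2] at h1
        have h3 := hfirst ⟨tup n (4 + j), tup_mem n (4 + j)⟩
        have h4 := B.mul_mem (B.inv_mem h3) h1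
        have e : (((⟨tup n (4 + j), tup_mem n (4 + j)⟩, 1) : A × Q))⁻¹ *
            (⟨tup n (4 + j), tup_mem n (4 + j)⟩, q j) = (1, q j) := by
          ext <;> simp
        rwa [e] at h4
      exact hle hy
    rw [eq_top_iff]
    rintro ⟨a, y⟩ -
    have e : ((a, y) : A × Q) = (a, 1) * (1, y) := by simp
    rw [e]
    exact B.mul_mem (hfirst a) (hsecond y)
  · rw [conv_iff]
    intro w
    have hfst : ∀ n, ((FreeGroup.lift (S n) w).1 : W) =
        FreeGroup.lift (fun i : Fin k => tup n i) w := by
      intro n
      have h : (A.subtype.comp ((MonoidHom.fst A Q).comp (FreeGroup.lift (S n)))) =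
          FreeGroup.lift (fun i : Fin k => tup n i) := by
        apply FreeGroup.ext_hom
        intro i
        simp [hS]
      exact DFunLike.congr_fun h w
    have hT : FreeGroup.lift (FreeGroup.of : Fin k → FreeGroup (Fin k)) w = w := by
      have h : FreeGroup.lift (FreeGroup.of : Fin k → FreeGroup (Fin k)) =
          MonoidHom.id (FreeGroup (Fin k)) := by
        apply FreeGroup.ext_hom
        intro i
        simp
      exact DFunLike.congr_fun h w
    by_cases hw : w = 1
    · exact Eventually.of_forall fun n => by simp [hw]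
    · have hc : FreeGroup.lift (fun i : Fin k => cc i) w ≠ 1 := by
        intro h0
        apply hw
        apply cc_free k
        rw [h0, map_one]
      filter_upwards [tup_lim k w 1] with n hn
      rw [hT]
      constructor
      · intro h1
        exfalso
        apply hc
        rw [← hn, ← hfst n, h1]
        simp
      · intro h1
        exact (hw h1).elim

end FComp
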