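import Pool.Agent.FComp.Basic

/-!
# Module LAM: the group `ℤ² ≀ ℤ²`
-/

namespace FComp

open Filter

/-- The positions of the lamps: `(u, ε)` is the lamp of kind `ε` at the place `u`. -/
abbrev Idx : Type := ℤ × ℤ × Bool

/-- The shift of the positions. -/
def shIdx (z : ℤ × ℤ) : Idx ≃ Idx where
  toFun i := (i.1 + z.1, i.2.1 + z.2, i.2.2)
  invFun i := (i.1 - z.1, i.2.1 - z.2, i.2.2)
  left_inv i := by simp
  right_inv i := by simp

/-- The action of `ℤ²` on the lamps. -/
noncomputable def lampAct : Multiplicative (ℤ × ℤ) →* MulAut (Multiplicative (Idx →₀ ℤ)) where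
  toFun z := AddEquiv.toMultiplicative (Finsupp.domCongr (shIdx z.toAdd))
  map_one' := by
    ext f i
    show (Finsupp.equivMapDomain _ _) i = _
    rw [Finsupp.equivMapDomain_apply]
    simp [shIdx]
  map_mul' z z' := by
    ext f i
    show (Finsupp.equivMapDomain _ _) i = (Finsupp.equivMapDomain _ (Finsupp.equivMapDomain _ _)) i
    rw [Finsupp.equivMapDomain_apply, Finsupp.equivMapDomain_apply, Finsupp.equivMapDomain_apply]
    congr 1
    simp [shIdx]
    constructor <;> ring

/-- The group `ℤ² ≀ ℤ²`. -/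
abbrev Lam : Type := Multiplicative (Idx →₀ ℤ) ⋊[lampAct] Multiplicative (ℤ × ℤ)

/-- The lamp of kind `ε` at the origin. -/
noncomputable def lamp (ε : Bool) : Lam :=
  SemidirectProduct.inl (Multiplicative.ofAdd (Finsupp.single ((0, 0, ε) : Idx) (1 : ℤ)))

/-- The shift `z`. -/
noncomputable def mv (z : ℤ × ℤ) : Lam := SemidirectProduct.inr (Multiplicative.ofAdd z)

/-- The standard generating tuple. -/
noncomputable def LT : Fin 4 → Lam := ![lamp false, lamp true, mv (1, 0), mv (0, 1)]

theorem LAM_act_single (z : ℤ × ℤ) (i : Idx) (m : ℤ) :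
    lampAct (Multiplicative.ofAdd z) (Multiplicative.ofAdd (Finsupp.single i m)) =
      Multiplicative.ofAdd (Finsupp.single (shIdx z i) m) := by
  apply Multiplicative.toAdd.injective
  show Finsupp.equivMapDomain (shIdx z) (Finsupp.single i m) = Finsupp.single (shIdx z i) m
  exact Finsupp.equivMapDomain_single _ _ _

theorem LAM_conj (z : ℤ × ℤ) (f : Idx →₀ ℤ) :
    (SemidirectProduct.inl (lampAct (Multiplicative.ofAdd z) (Multiplicative.ofAdd f)) : Lam) =
      mv z * SemidirectProduct.inl (Multiplicative.ofAdd f) * (mv z)⁻¹ := by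
  rw [SemidirectProduct.inl_aut]
  rfl

theorem LT_gen : Gen LT := by
  unfold Gen
  rw [eq_top_iff]
  intro g _
  set H := Subgroup.closure (Set.range LT) with hH
  have h0 : lamp false ∈ H := Subgroup.subset_closure ⟨0, rfl⟩
  have h1 : lamp true ∈ H := Subgroup.subset_closure ⟨1, rfl⟩
  have h2 : mv (1, 0) ∈ H := Subgroup.subset_closure ⟨2, rfl⟩
  have h3 : mv (0, 1) ∈ H := Subgroup.subset_closure ⟨3, rfl⟩
  have hmv : ∀ z : ℤ × ℤ, mv z ∈ H := by
    intro z
    have e : mv z = (mv (1, 0)) ^ z.1 * (mv (0, 1)) ^ z.2 := by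
      unfold mv
      rw [← map_zpow (SemidirectProduct.inr : Multiplicative (ℤ × ℤ) →* Lam),
        ← map_zpow (SemidirectProduct.inr : Multiplicative (ℤ × ℤ) →* Lam),
        ← map_mul (SemidirectProduct.inr : Multiplicative (ℤ × ℤ) →* Lam)]
      congr 1
      apply Multiplicative.toAdd.injective
      show z = z.1 • ((1 : ℤ), (0 : ℤ)) + z.2 • ((0 : ℤ), (1 : ℤ))
      ext <;> simp
    rw [e]
    exact H.mul_mem (H.zpow_mem h2 _) (H.zpow_mem h3 _)
  have hl : ∀ ε, lamp ε ∈ H := by
    intro ε
    cases ε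
    · exact h0
    · exact h1
  have hsingle : ∀ (i : Idx) (m : ℤ),
      (SemidirectProduct.inl (Multiplicative.ofAdd (Finsupp.single i m)) : Lam) ∈ H := by
    intro i m
    have e1 : Multiplicative.ofAdd (Finsupp.single i m) =
        lampAct (Multiplicative.ofAdd (i.1, i.2.1))
          (Multiplicative.ofAdd (Finsupp.single ((0, 0, i.2.2) : Idx) m)) := by
      rw [LAM_act_single]
      congr 2
      simp [shIdx]
    rw [e1, LAM_conj]
    refine H.mul_mem (H.mul_mem (hmv _) ?_) (H.inv_mem (hmv _))
    have e2 : (SemidirectProduct.inl (Multiplicative.ofAdd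
        (Finsupp.single ((0, 0, i.2.2) : Idx) m)) : Lam) = (lamp i.2.2) ^ m := by
      unfold lamp
      rw [← map_zpow]
      congr 1
      apply Multiplicative.toAdd.injective
      show Finsupp.single ((0, 0, i.2.2) : Idx) m = m • Finsupp.single ((0, 0, i.2.2) : Idx) 1
      rw [Finsupp.smul_single]
      simp
    rw [e2]
    exact H.zpow_mem (hl _) _
  have hinl : ∀ f : Idx →₀ ℤ, (SemidirectProduct.inl (Multiplicative.ofAdd f) : Lam) ∈ H := by
    intro f
    induction f using Finsupp.induction_linear with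
    | zero => 
      rw [ofAdd_zero, map_one]
      exact H.one_mem
    | add f g hf hg =>
      rw [ofAdd_add, map_mul]
      exact H.mul_mem hf hg
    | single i m => exact hsingle i m
  have e : g = SemidirectProduct.inl g.left * SemidirectProduct.inr g.right :=
    (SemidirectProduct.inl_left_mul_inr_right g).symm
  rw [e]
  exact H.mul_mem (hinl g.left.toAdd) (hmv g.right.toAdd)

end FComp
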