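import Pool.Agent.FComp.Wr
import Pool.Agent.FComp.Lamp

/-!
# Module EMB: embeddings of `ℤ² ≀ ℤ²`
-/

namespace FComp

/-- The value of the action on the lamps. -/
theorem LamEmb_act (z : Multiplicative (ℤ × ℤ)) (F : Multiplicative (Idx →₀ ℤ)) (i : Idx) :
    (lampAct z F).toAdd i = F.toAdd (i.1 - z.toAdd.1, i.2.1 - z.toAdd.2, i.2.2) := by
  show (Finsupp.equivMapDomain (shIdx z.toAdd) F.toAdd) i = _
  rw [Finsupp.equivMapDomain_apply]
  rfl

/-- The embedding. -/
noncomputable def LamEmb_psi (v : ℤ × ℤ) :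
    Lam →* RegularWreathProduct (Multiplicative (ℤ × ℤ)) P where
  toFun x := ⟨fun u => Multiplicative.ofAdd
    (x.left.toAdd (u.toAdd.1, u.toAdd.2, false),
      x.left.toAdd (u.toAdd.1 - v.1, u.toAdd.2 - v.2, true)), x.right⟩
  map_one' := by
    apply RegularWreathProduct.ext
    · ext u
      · rfl
      · rfl
    · rfl
  map_mul' x y := by
    apply RegularWreathProduct.ext
    · funext u
      show Multiplicative.ofAdd (_ : ℤ × ℤ) = Multiplicative.ofAdd (_ : ℤ × ℤ) *
        Multiplicative.ofAdd (_ : ℤ × ℤ)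
      rw [← ofAdd_add, SemidirectProduct.mul_left, toAdd_mul, Finsupp.add_apply, Finsupp.add_apply,
        LamEmb_act, LamEmb_act]
      congr 1
      apply Prod.ext
      · show _ + _ = _ + _
        congr 2
        simp only [toAdd_mul, toAdd_inv, Prod.fst_add, Prod.fst_neg, Prod.snd_add, Prod.snd_neg,
          Prod.mk.injEq, and_true]
        constructor <;> ring
      · show _ + _ = _ + _
        congr 2
        simp only [toAdd_mul, toAdd_inv, Prod.fst_add, Prod.fst_neg, Prod.snd_add, Prod.snd_neg,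
          Prod.mk.injEq, and_true]
        constructor <;> ring
    · rfl

/-- The lamps of `Lam`, with the lamps of the second kind moved by `v`. -/
theorem lam_emb (v : ℤ × ℤ) : ∃ Ψ : Lam →* RegularWreathProduct (Multiplicative (ℤ × ℤ)) P,
    Function.Injective Ψ ∧
    Ψ (lamp false) = ⟨Pi.mulSingle 1 (Multiplicative.ofAdd (1, 0)), 1⟩ ∧
    Ψ (lamp true) = ⟨Pi.mulSingle (Multiplicative.ofAdd v) (Multiplicative.ofAdd (0, 1)), 1⟩ ∧
    Ψ (mv (1, 0)) = ⟨1, Multiplicative.ofAdd (1, 0)⟩ ∧
    Ψ (mv (0, 1)) = ⟨1, Multiplicative.ofAdd (0, 1)⟩ := by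
  refine ⟨LamEmb_psi v, ?_, ?_, ?_, ?_, ?_⟩
  · intro x y h
    have h1 := congrArg RegularWreathProduct.left h
    have h2 : x.right = y.right := congrArg RegularWreathProduct.right h
    have h3 : ∀ u : ℤ × ℤ, (x.left.toAdd (u.1, u.2, false),
        x.left.toAdd (u.1 - v.1, u.2 - v.2, true)) = (y.left.toAdd (u.1, u.2, false),
        y.left.toAdd (u.1 - v.1, u.2 - v.2, true)) := fun u =>
      Multiplicative.ofAdd.injective (congrFun h1 (Multiplicative.ofAdd u))
    apply SemidirectProduct.ext _ h2
    apply Multiplicative.toAdd.injective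
    ext ⟨a, b, ε⟩
    cases ε
    · exact congrArg Prod.fst (h3 (a, b))
    · have := congrArg Prod.snd (h3 (a + v.1, b + v.2))
      simpa using this
  · apply RegularWreathProduct.ext
    · funext u
      show Multiplicative.ofAdd ((Finsupp.single ((0, 0, false) : Idx) (1 : ℤ)) _,
        (Finsupp.single ((0, 0, false) : Idx) (1 : ℤ)) _) =
        (Pi.mulSingle 1 (Multiplicative.ofAdd ((1 : ℤ), (0 : ℤ))) : P → Multiplicative (ℤ × ℤ)) u
      by_cases hu : u = 1
      · subst hu
        rw [Pi.mulSingle_eq_same]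
        congr 1
        simp
      · rw [Pi.mulSingle_eq_of_ne hu]
        have h1 : ¬ ((0 : ℤ) = u.toAdd.1 ∧ (0 : ℤ) = u.toAdd.2) := by
          rintro ⟨h1, h2⟩
          apply hu
          apply Multiplicative.toAdd.injective
          exact Prod.ext h1.symm h2.symm
        have : ((Finsupp.single ((0, 0, false) : Idx) (1 : ℤ)) (u.toAdd.1, u.toAdd.2, false),
          (Finsupp.single ((0, 0, false) : Idx) (1 : ℤ))
            (u.toAdd.1 - v.1, u.toAdd.2 - v.2, true)) = ((0, 0) : ℤ × ℤ) := by
          simp [Finsupp.single_apply]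
          intro h2 h3
          exact h1 ⟨h2, h3⟩
        rw [this]
        rfl
    · rfl
  · apply RegularWreathProduct.ext
    · funext u
      show Multiplicative.ofAdd ((Finsupp.single ((0, 0, true) : Idx) (1 : ℤ)) _,
        (Finsupp.single ((0, 0, true) : Idx) (1 : ℤ)) _) =
        (Pi.mulSingle (Multiplicative.ofAdd v) (Multiplicative.ofAdd ((0 : ℤ), (1 : ℤ))) :
          P → Multiplicative (ℤ × ℤ)) u
      by_cases hu : u = Multiplicative.ofAdd v
      · rw [hu, Pi.mulSingle_eq_same]
        congr 1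
        simp
      · rw [Pi.mulSingle_eq_of_ne hu]
        have h1 : ¬ ((0 : ℤ) = u.toAdd.1 - v.1 ∧ (0 : ℤ) = u.toAdd.2 - v.2) := by
          rintro ⟨h1, h2⟩
          apply hu
          apply Multiplicative.toAdd.injective
          apply Prod.ext
          · show u.toAdd.1 = v.1
            omega
          · show u.toAdd.2 = v.2
            omega
        have : ((Finsupp.single ((0, 0, true) : Idx) (1 : ℤ)) (u.toAdd.1, u.toAdd.2, false),
          (Finsupp.single ((0, 0, true) : Idx) (1 : ℤ))
            (u.toAdd.1 - v.1, u.toAdd.2 - v.2, true)) = ((0, 0) : ℤ × ℤ) := by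
          simp [Finsupp.single_apply]
          intro h2 h3
          exact h1 ⟨h2, h3⟩
        rw [this]
        rfl
    · rfl
  · apply RegularWreathProduct.ext
    · rfl
    · rfl
  · apply RegularWreathProduct.ext
    · rfl
    · rfl

end FComp
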