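import Pool.Agent.FComp.SurFwd

/-!
# Module MET: a finite perfect direct factor with metabelian complement passes to limits
-/

namespace FComp

open scoped commutatorElement

open Filter

variable {Q G H : Type} [Group Q] [Group G] [Group H]

/-- In a group of the class `Met`, an element of the second derived subgroup is determined by its
projection. -/
theorem met_derived (ι : Q →* G) (ρ : G →* Q) (h1 : ∀ q, ρ (ι q) = q)
    (h2 : ∀ g q, g * ι q * g⁻¹ = ι (ρ g * q * (ρ g)⁻¹))
    (h3 : ∀ a b c d, ρ a = 1 → ρ b = 1 → ρ c = 1 → ρ d = 1 → ⁅⁅a, b⁆, ⁅c, d⁆⁆ = 1) {g : G}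
    (hg : g ∈ derivedSeries G 2) : g = ι (ρ g) := by
  -- the projection to the kernel
  have hcomm : ∀ g q, ρ g = 1 → g * ι q = ι q * g := by
    intro g q hg
    have := h2 g q
    rw [hg, one_mul, inv_one, mul_one, mul_inv_eq_iff_eq_mul] at this
    exact this
  have hρ : ∀ g, ρ ((ι (ρ g))⁻¹ * g) = 1 := by
    intro g
    rw [map_mul, map_inv, h1, inv_mul_cancel]
  let π : G →* G :=
    { toFun := fun g => (ι (ρ g))⁻¹ * g
      map_one' := by simp
      map_mul' := by
        intro a b
        have h := hcomm ((ι (ρ a))⁻¹ * a) (ρ b)⁻¹ (hρ a)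
        calc (ι (ρ (a * b)))⁻¹ * (a * b)
            = ((ι (ρ b)⁻¹) * ((ι (ρ a))⁻¹ * a)) * b := by
              rw [map_mul, map_mul, mul_inv_rev, map_inv]; group
          _ = (((ι (ρ a))⁻¹ * a) * ι (ρ b)⁻¹) * b := by rw [h]
          _ = _ := by rw [map_inv]; group }
  have hπ : ∀ g, ρ (π g) = 1 := hρ
  have hker : derivedSeries G 2 ≤ π.ker := by
    rw [derivedSeries_succ, Subgroup.commutator_le]
    intro x hx y hy
    have key : ∀ x ∈ derivedSeries G 1, ∀ y ∈ derivedSeries G 1, ⁅π x, π y⁆ = 1 := by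
      have hle : ∀ z ∈ derivedSeries G 1, ∀ c d : G, ⁅π z, ⁅π c, π d⁆⁆ = 1 := by
        intro z hz c d
        rw [derivedSeries_one, commutator_def, Subgroup.commutator_def] at hz
        refine Subgroup.closure_induction (p := fun z _ => ⁅π z, ⁅π c, π d⁆⁆ = 1) ?_ ?_ ?_ ?_ hz
        · rintro _ ⟨a, -, b, -, rfl⟩
          rw [map_commutatorElement]
          exact h3 _ _ _ _ (hπ a) (hπ b) (hπ c) (hπ d)
        · rw [map_one, commutatorElement_one_left]
        · intro a b _ _ ha hb
          rw [map_mul, commutatorElement_eq_one_iff_mul_comm] at *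
          rw [mul_assoc, hb, ← mul_assoc, ha, mul_assoc]
        · intro a _ ha
          rw [map_inv]
          rw [commutatorElement_eq_one_iff_commute] at *
          exact ha.inv_left
      intro x hx y hy
      rw [derivedSeries_one, commutator_def, Subgroup.commutator_def] at hy
      refine Subgroup.closure_induction (p := fun y _ => ⁅π x, π y⁆ = 1) ?_ ?_ ?_ ?_ hy
      · rintro _ ⟨a, -, b, -, rfl⟩
        rw [map_commutatorElement]
        exact hle x hx a b
      · rw [map_one, commutatorElement_one_right]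
      · intro a b _ _ ha hb
        rw [commutatorElement_eq_one_iff_commute] at *
        rw [map_mul]
        exact ha.mul_right hb
      · intro a _ ha
        rw [commutatorElement_eq_one_iff_commute] at *
        rw [map_inv]
        exact ha.inv_right
    rw [MonoidHom.mem_ker, map_commutatorElement]
    exact key x hx y hy
  have := hker hg
  rw [MonoidHom.mem_ker] at this
  exact (inv_mul_eq_one.1 this).symm

theorem met_fwd [Finite Q] (hQ : commutator Q = ⊤) (h : Arrow G H) (hG : Met Q G) : Met Q H := by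
  obtain ⟨k, T, S, hT, hS, hc⟩ := h
  obtain ⟨ι, ρ, h1, h2, h3⟩ := hG
  have hsurj : Function.Surjective ρ := fun q => ⟨ι q, h1 q⟩
  obtain ⟨s, hs⟩ := Sur_pigeon ρ S
  obtain ⟨g, hg⟩ := Sur_hom hT hc ρ hs
  have hss := Sur_gen hS ρ hsurj hs
  -- words in the second derived subgroup
  have hD : derivedSeries Q 2 = ⊤ := by
    rw [derivedSeries_succ, derivedSeries_one, hQ, ← commutator_def, hQ]
  have hv : ∀ q : Q, ∃ v ∈ derivedSeries (FreeGroup (Fin k)) 2, FreeGroup.lift s v = q := by
    intro q
    have : q ∈ (derivedSeries (FreeGroup (Fin k)) 2).map (FreeGroup.lift s) := by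
      rw [map_derivedSeries_eq hss, hD]
      exact Subgroup.mem_top q
    obtain ⟨v, hv, hq⟩ := this
    exact ⟨v, hv, hq⟩
  choose v hv1 hv2 using hv
  have good : ∀ n, (fun i => ρ (S n i)) = s → ∀ q, FreeGroup.lift (S n) (v q) = ι q := by
    intro n hn q
    have h4 : FreeGroup.lift (S n) (v q) ∈ derivedSeries G 2 :=
      map_derivedSeries_le_derivedSeries (FreeGroup.lift (S n)) 2 ⟨_, hv1 q, rfl⟩
    have h5 := met_derived ι ρ h1 h2 h3 h4
    rw [Sur_lift ρ (S n) s hn, hv2] at h5
    exact h5
  have surjT := (gen_iff T).1 hT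
  refine ⟨MonoidHom.mk' (fun q => FreeGroup.lift T (v q)) ?_, g, ?_, ?_, ?_⟩
  · intro a b
    rw [← map_mul]
    refine hc.lim (hs.mono fun n hn => ?_)
    rw [map_mul, good n hn, good n hn, good n hn, map_mul]
  · intro q
    show g (FreeGroup.lift T (v q)) = q
    rw [hg, hv2]
  · intro x q
    obtain ⟨w, rfl⟩ := surjT x
    show FreeGroup.lift T w * FreeGroup.lift T (v q) * (FreeGroup.lift T w)⁻¹ =
      FreeGroup.lift T (v _)
    rw [← map_mul, ← map_inv, ← map_mul, hg]
    refine hc.lim (hs.mono fun n hn => ?_)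
    rw [map_mul, map_mul, map_inv, good n hn, good n hn, h2, Sur_lift ρ (S n) s hn]
  · intro a b c d ha hb hc' hd
    obtain ⟨wa, rfl⟩ := surjT a
    obtain ⟨wb, rfl⟩ := surjT b
    obtain ⟨wc, rfl⟩ := surjT c
    obtain ⟨wd, rfl⟩ := surjT d
    rw [hg] at ha hb hc' hd
    rw [← map_commutatorElement, ← map_commutatorElement, ← map_commutatorElement,
      ← map_one (FreeGroup.lift T)]
    refine hc.lim (hs.mono fun n hn => ?_)
    rw [map_commutatorElement, map_commutatorElement, map_commutatorElement, map_one]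
    apply h3
    · rw [Sur_lift ρ (S n) s hn, ha]
    · rw [Sur_lift ρ (S n) s hn, hb]
    · rw [Sur_lift ρ (S n) s hn, hc']
    · rw [Sur_lift ρ (S n) s hn, hd]

end FComp
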