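import Pool.Agent.FComp.BSmet

/-!
# Module QUO: quotients of the finitely presented group `BS p × Q`
-/

namespace FComp

open scoped commutatorElement
open Filter

variable {Q G H : Type} [Group Q] [Group G] [Group H] {p : ℕ}

/-- HINT: choose words `v q`, `α`, `τ` with values `θ (1, q)`, `θ (a, 1)`, `θ (t, 1)` at `T`, and
for each `i` an element `(y i, q i)` of `BS p × Q` with `θ (y i, q i) = T i`, and a word
`z i : FreeGroup (Fin 2)` with value `y i` at `(a, t)`. For large `n` the finitely many relations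
(`v` multiplicative, `v q` commutes with `α` and `τ`, `τ⁻¹ α τ = α ^ p`,
letter `i` = `lift ![α, τ] (z i) * v (q i)`) and inequations (`v q ≠ 1`) hold at `S n`; use
`bs_lift` and `MonoidHom.noncommCoprod`. -/
theorem quo_bwd [Finite Q] (h : Arrow G H) (hH : Quo p Q H) : Quo p Q G := by
  obtain ⟨k, T, S, hT, hS, hc⟩ := h
  obtain ⟨θ, hθs, hθ⟩ := hH
  have hsurj := (gen_iff T).1 hT
  choose v hv using fun q : Q => hsurj (θ (1, q))
  obtain ⟨α, hα⟩ := hsurj (θ (BS.a p, 1))
  obtain ⟨τ, hτ⟩ := hsurj (θ (BS.t p, 1))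
  choose yq hyq using fun i : Fin k => hθs (T i)
  have hz : ∀ y : BS p, ∃ z : FreeGroup (Fin 2), FreeGroup.lift ![BS.a p, BS.t p] z = y := by
    intro y
    have hy : y ∈ Subgroup.closure {BS.a p, BS.t p} := by
      rw [bs_closure]; exact Subgroup.mem_top y
    induction hy using Subgroup.closure_induction with
    | mem x hx =>
      rcases hx with hx | hx
      · exact ⟨FreeGroup.of 0, by rw [hx]; simp⟩
      · exact ⟨FreeGroup.of 1, by rw [Set.mem_singleton_iff.1 hx]; simp⟩
    | one => exact ⟨1, map_one _⟩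
    | mul x y _ _ hx hy =>
      obtain ⟨z, rfl⟩ := hx
      obtain ⟨z', rfl⟩ := hy
      exact ⟨z * z', map_mul _ _ _⟩
    | inv x _ hx =>
      obtain ⟨z, rfl⟩ := hx
      exact ⟨z⁻¹, map_inv _ _⟩
  choose z hz' using fun i : Fin k => hz (yq i).1
  -- values of words in the two letters
  have hword : ∀ w : FreeGroup (Fin 2), FreeGroup.lift T (FreeGroup.lift ![α, τ] w) =
      θ (FreeGroup.lift ![BS.a p, BS.t p] w, 1) := by
    intro w
    have : (FreeGroup.lift T).comp (FreeGroup.lift ![α, τ]) =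
        (θ.comp (MonoidHom.inl (BS p) Q)).comp (FreeGroup.lift ![BS.a p, BS.t p]) := by
      ext i
      fin_cases i
      · simp [hα]
      · simp [hτ]
    exact DFunLike.congr_fun this w
  have e1 : ∀ᶠ n in atTop, ∀ q q' : Q, FreeGroup.lift (S n) (v q * v q') =
      FreeGroup.lift (S n) (v (q * q')) := by
    rw [eventually_all]
    intro q
    rw [eventually_all]
    intro q'
    apply hc.eq
    rw [map_mul, hv, hv, hv, ← map_mul]
    simp
  have e2 : ∀ᶠ n in atTop, ∀ q : Q, FreeGroup.lift (S n) (α * v q) =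
      FreeGroup.lift (S n) (v q * α) := by
    rw [eventually_all]
    intro q
    apply hc.eq
    rw [map_mul, map_mul, hv, hα, ← map_mul, ← map_mul]
    simp
  have e3 : ∀ᶠ n in atTop, ∀ q : Q, FreeGroup.lift (S n) (τ * v q) =
      FreeGroup.lift (S n) (v q * τ) := by
    rw [eventually_all]
    intro q
    apply hc.eq
    rw [map_mul, map_mul, hv, hτ, ← map_mul, ← map_mul]
    simp
  have e4 : ∀ᶠ n in atTop, FreeGroup.lift (S n) (τ⁻¹ * α * τ) =
      FreeGroup.lift (S n) (α ^ p) := by
    apply hc.eq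
    rw [map_mul, map_mul, map_inv, map_pow, hτ, hα, ← map_inv, ← map_mul, ← map_mul, ← map_pow]
    congr 1
    ext
    · exact bs_rel p
    · simp
  have e5 : ∀ᶠ n in atTop, ∀ i : Fin k, FreeGroup.lift (S n) (FreeGroup.of i) =
      FreeGroup.lift (S n) (FreeGroup.lift ![α, τ] (z i) * v (yq i).2) := by
    rw [eventually_all]
    intro i
    apply hc.eq
    rw [map_mul, hv, hword, hz', FreeGroup.lift_apply_of, ← map_mul, ← hyq i]
    congr 1
    ext <;> simp
  have e6 : ∀ᶠ n in atTop, ∀ q : Q, q ≠ 1 → FreeGroup.lift (S n) (v q) ≠ 1 := by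
    rw [eventually_all]
    intro q
    filter_upwards [(conv_iff S T).1 hc (v q)] with n hn hq h4
    apply hq
    have h5 := hn.1 h4
    rw [hv] at h5
    exact hθ q h5
  obtain ⟨n, f1, f2, f3, f4, f5, f6⟩ :=
    (e1.and (e2.and (e3.and (e4.and (e5.and e6))))).exists
  set s := S n with hs
  let ι' : Q →* G := MonoidHom.mk' (fun q => FreeGroup.lift s (v q)) (fun q q' => by
    rw [← f1, map_mul])
  have hι' : ∀ q, ι' q = FreeGroup.lift s (v q) := fun q => rfl
  obtain ⟨f, hfa, hft⟩ := bs_lift (p := p) (FreeGroup.lift s α) (FreeGroup.lift s τ) (by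
    rw [← map_inv, ← map_mul, ← map_mul, f4, map_pow])
  have hcomm : ∀ (y : BS p) (q : Q), Commute (f y) (ι' q) := by
    intro y q
    have hy : y ∈ Subgroup.closure {BS.a p, BS.t p} := by
      rw [bs_closure]; exact Subgroup.mem_top y
    induction hy using Subgroup.closure_induction with
    | mem x hx =>
      rcases hx with hx | hx
      · rw [hx, hfa, hι', Commute, SemiconjBy, ← map_mul, ← map_mul, f2]
      · rw [Set.mem_singleton_iff.1 hx, hft, hι', Commute, SemiconjBy, ← map_mul, ← map_mul, f3]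
    | one => rw [map_one]; exact Commute.one_left _
    | mul x y _ _ hx hy => rw [map_mul]; exact hx.mul_left hy
    | inv x _ hx => rw [map_inv]; exact hx.inv_left
  have hfw : ∀ w : FreeGroup (Fin 2), FreeGroup.lift s (FreeGroup.lift ![α, τ] w) =
      f (FreeGroup.lift ![BS.a p, BS.t p] w) := by
    intro w
    have : (FreeGroup.lift s).comp (FreeGroup.lift ![α, τ]) =
        f.comp (FreeGroup.lift ![BS.a p, BS.t p]) := by
      ext i
      fin_cases i
      · simp [hfa]
      · simp [hft]
    exact DFunLike.congr_fun this w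
  refine ⟨MonoidHom.noncommCoprod f ι' hcomm, ?_, ?_⟩
  · rw [← MonoidHom.range_eq_top, eq_top_iff]
    have h6 := hS n
    unfold Gen at h6
    rw [← hs] at h6
    rw [← h6, Subgroup.closure_le]
    rintro _ ⟨i, rfl⟩
    refine ⟨((yq i).1, (yq i).2), ?_⟩
    rw [MonoidHom.noncommCoprod_apply]
    have h7 := f5 i
    rw [FreeGroup.lift_apply_of, map_mul, hfw, hz'] at h7
    exact h7.symm
  · intro q hq
    rw [MonoidHom.noncommCoprod_apply] at hq
    simp only [map_one, one_mul] at hq
    by_contra hne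
    exact f6 q hne hq

/-- HINT: the kernel of `θ` lies in `BS p × 1` (if `θ (k, q) = 1` then `q` is central), so
`ρ (θ (k, q)) = q` is well defined; the kernel of `ρ` is `θ (BS p × 1)`. -/
theorem quo_met (hQ : Subgroup.center Q = ⊥) (h : Quo p Q G) : Met Q G := by
  obtain ⟨θ, hθs, hθ⟩ := h
  have hker : ∀ x : BS p × Q, θ x = 1 → x.2 = 1 := by
    intro x hx
    have hcen : x.2 ∈ Subgroup.center Q := by
      rw [Subgroup.mem_center_iff]
      intro q
      have h1 : θ (1, q * x.2 * q⁻¹ * x.2⁻¹) = 1 := by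
        have h2 : ((1 : BS p), q * x.2 * q⁻¹ * x.2⁻¹) = (1, q) * x * (1, q)⁻¹ * x⁻¹ := by
          ext <;> simp
        rw [h2, map_mul, map_mul, map_mul, hx, map_inv, map_inv, hx]
        simp
      have h3 := hθ _ h1
      calc q * x.2 = (q * x.2 * q⁻¹ * x.2⁻¹) * x.2 * q := by group
        _ = x.2 * q := by rw [h3, one_mul]
    rw [hQ, Subgroup.mem_bot] at hcen
    exact hcen
  have hker2 : ∀ x y : BS p × Q, θ x = θ y → x.2 = y.2 := by
    intro x y hxy
    have h1 : θ (x * y⁻¹) = 1 := by rw [map_mul, map_inv, hxy, mul_inv_cancel]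
    have h2 := hker _ h1
    simpa using mul_inv_eq_one.1 h2
  choose g hg using hθs
  have hρ : ∀ x : BS p × Q, (g (θ x)).2 = x.2 := fun x => hker2 _ _ (hg (θ x))
  let ρ : G →* Q := MonoidHom.mk' (fun x => (g x).2) (fun x y => by
    have h1 : θ (g (x * y)) = θ (g x * g y) := by rw [hg, map_mul, hg, hg]
    have h2 := hker2 _ _ h1
    simpa using h2)
  have hρ' : ∀ x, ρ x = (g x).2 := fun x => rfl
  refine ⟨θ.comp (MonoidHom.inr (BS p) Q), ρ, ?_, ?_, ?_⟩
  · intro q
    rw [hρ']
    exact hρ _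
  · intro x q
    have h1 : x = θ (g x) := (hg x).symm
    rw [hρ']
    conv_lhs => rw [h1]
    rw [MonoidHom.comp_apply, MonoidHom.comp_apply, ← map_mul, ← map_inv, ← map_mul]
    congr 1
    ext <;> simp
  · intro a b c d ha hb hc hd
    have key : ∀ x, ρ x = 1 → x = θ ((g x).1, 1) := by
      intro x hx
      rw [hρ'] at hx
      rw [← hx]
      exact (hg x).symm
    rw [key a ha, key b hb, key c hc, key d hd, ← map_commutatorElement, ← map_commutatorElement,
      ← map_commutatorElement]
    have h1 : ∀ x y : BS p, ⁅((x, 1) : BS p × Q), ((y, 1) : BS p × Q)⁆ = (⁅x, y⁆, 1) := by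
      intro x y
      simp [commutatorElement_def]
    rw [h1, h1, h1, bs_metabelian]
    exact map_one θ

end FComp
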