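import Pool.Agent.FComp.Classes

/-!
# Module SIM: facts on simple groups
-/

namespace FComp

open scoped commutatorElement

variable {Q₁ Q₂ G : Type} [Group Q₁] [Group Q₂] [Group G]

theorem center_simple [IsSimpleGroup Q₁] (h : ∃ a b : Q₁, a * b ≠ b * a) :
    Subgroup.center Q₁ = ⊥ := by
  rcases IsSimpleGroup.eq_bot_or_eq_top_of_normal (Subgroup.center Q₁) inferInstance with h' | h'
  · exact h'
  · obtain ⟨a, b, hab⟩ := h
    have : a ∈ Subgroup.center Q₁ := by rw [h']; exact Subgroup.mem_top a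
    exact absurd (Subgroup.mem_center_iff.1 this b).symm hab

theorem commutator_simple [IsSimpleGroup Q₁] (h : ∃ a b : Q₁, a * b ≠ b * a) :
    commutator Q₁ = ⊤ := by
  rcases IsSimpleGroup.eq_bot_or_eq_top_of_normal (commutator Q₁) inferInstance with h' | h'
  · obtain ⟨a, b, hab⟩ := h
    have : ⁅a, b⁆ ∈ commutator Q₁ :=
      Subgroup.commutator_mem_commutator (Subgroup.mem_top a) (Subgroup.mem_top b)
    rw [h', Subgroup.mem_bot, commutatorElement_eq_one_iff_mul_comm] at this
    exact absurd this hab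
  · exact h'

theorem met_sur_iso [IsSimpleGroup Q₁] [IsSimpleGroup Q₂] (h1 : ∃ a b : Q₁, a * b ≠ b * a)
    (hM : Met Q₂ G) (hS : Sur Q₁ G) : Nonempty (Q₁ ≃* Q₂) := by
  obtain ⟨ι, ρ, e1, e2, e3⟩ := hM
  obtain ⟨f, hf⟩ := hS
  have hc := commutator_simple h1
  -- the image of the kernel of `ρ`
  have hN : ((ρ.ker).map f).Normal := Subgroup.Normal.map inferInstance f hf
  have hbot : (ρ.ker).map f = ⊥ := by
    rcases IsSimpleGroup.eq_bot_or_eq_top_of_normal _ hN with h' | h'
    · exact h'
    · exfalso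
      have hker : ∀ q : Q₁, ∃ x, ρ x = 1 ∧ f x = q := by
        intro q
        have : q ∈ (ρ.ker).map f := by rw [h']; exact Subgroup.mem_top q
        obtain ⟨x, hx, rfl⟩ := this
        exact ⟨x, hx, rfl⟩
      have hall : ∀ a b c d : Q₁, ⁅⁅a, b⁆, ⁅c, d⁆⁆ = 1 := by
        intro a b c d
        obtain ⟨a, ha, rfl⟩ := hker a
        obtain ⟨b, hb, rfl⟩ := hker b
        obtain ⟨c, hc, rfl⟩ := hker c
        obtain ⟨d, hd, rfl⟩ := hker d
        rw [← map_commutatorElement, ← map_commutatorElement, ← map_commutatorElement,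
          e3 a b c d ha hb hc hd, map_one]
      have hcen : ∀ a b : Q₁, ⁅a, b⁆ ∈ Subgroup.center Q₁ := by
        intro a b
        have hle : (⊤ : Subgroup Q₁) ≤ Subgroup.centralizer {⁅a, b⁆} := by
          rw [← hc, commutator_def, Subgroup.commutator_le]
          intro c _ d _
          rw [Subgroup.mem_centralizer_singleton_iff]
          exact (commutatorElement_eq_one_iff_mul_comm.1 (hall c d a b))
        rw [Subgroup.mem_center_iff]
        intro g
        exact Subgroup.mem_centralizer_singleton_iff.1 (hle (Subgroup.mem_top g))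
      obtain ⟨a, b, hab⟩ := h1
      have := hcen a b
      rw [center_simple ⟨a, b, hab⟩, Subgroup.mem_bot, commutatorElement_eq_one_iff_mul_comm] at this
      exact hab this
  -- `f` factors through `ρ`
  have hfac : ∀ x, ρ x = 1 → f x = 1 := by
    intro x hx
    have : f x ∈ (ρ.ker).map f := ⟨x, hx, rfl⟩
    rwa [hbot, Subgroup.mem_bot] at this
  let g : Q₂ →* Q₁ := f.comp ι
  have hg : ∀ x, g (ρ x) = f x := by
    intro x
    show f (ι (ρ x)) = f x
    have : f ((ι (ρ x))⁻¹ * x) = 1 := hfac _ (by rw [map_mul, map_inv, e1, inv_mul_cancel])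
    rw [map_mul, map_inv, inv_mul_eq_one] at this
    exact this
  have hgs : Function.Surjective g := by
    intro q
    obtain ⟨x, rfl⟩ := hf q
    exact ⟨ρ x, hg x⟩
  have hgi : Function.Injective g := by
    rw [← MonoidHom.ker_eq_bot_iff]
    rcases IsSimpleGroup.eq_bot_or_eq_top_of_normal g.ker inferInstance with h' | h'
    · exact h'
    · exfalso
      obtain ⟨a, b, hab⟩ := h1
      obtain ⟨x, rfl⟩ := hgs a
      have : x ∈ g.ker := by rw [h']; exact Subgroup.mem_top x
      rw [MonoidHom.mem_ker] at this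
      rw [this] at hab
      simp at hab
  exact ⟨(MulEquiv.ofBijective g ⟨hgi, hgs⟩).symm⟩

end FComp
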