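import Pool.Agent.FComp.SurFwd
import Pool.Agent.FComp.DirBwd
import Pool.Agent.FComp.MetFwd
import Pool.Agent.FComp.QuoBwd
import Pool.Agent.FComp.Simple

/-!
# Module LOW: the lower bound
-/

namespace FComp

variable {Q₁ Q₂ : Type} [Group Q₁] [Group Q₂] {p : ℕ}

/-- The two groups `BS p × Q₁` and `BS p × Q₂` are at distance at least six. HINT: for the chain
`c 0, ..., c ℓ` with `ℓ ≤ 5`: `c 0` is in `Quo Q₁`, and a step (in either direction) leads from
`Quo` to `Met` (`Quo ⊆ Met`, `quo_bwd`, `met_fwd`), from `Met` to `Dir` and from `Dir` to `Sur`; a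
backward step stays in `Quo` or `Dir`, a forward step stays in `Met` or `Sur`. The same from the
other end with `Q₂`. `met_sur_iso` forbids `Sur Q₁` and `Met Q₂` at the same vertex.
For `ℓ ≤ 3` look at `c ℓ`; for `ℓ = 4` at `c 3`; for `ℓ = 5`: `c 3` is in `Sur Q₁` and `c 4` is in
`Met Q₂`; if `c 3 → c 4` then `c 4` is in `Sur Q₁`, if `c 4 → c 3` then `c 3` is in `Met Q₂`. -/
theorem lower [Finite Q₁] [Finite Q₂] [IsSimpleGroup Q₁] [IsSimpleGroup Q₂]
    (h1 : ∃ a b : Q₁, a * b ≠ b * a) (h2 : ∃ a b : Q₂, a * b ≠ b * a)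
    (hne : IsEmpty (Q₁ ≃* Q₂)) {ℓ : ℕ} (c : ℕ → FGGroup)
    (e0 : Nonempty (c 0 ≃* (BS p × Q₁))) (e1 : Nonempty (c ℓ ≃* (BS p × Q₂)))
    (hc : ∀ i < ℓ, Arrow (c i) (c (i + 1)) ∨ Arrow (c (i + 1)) (c i)) : 6 ≤ ℓ := by
  obtain ⟨e0⟩ := e0
  obtain ⟨e1⟩ := e1
  have z1 := center_simple h1
  have z2 := center_simple h2
  have p1 := commutator_simple h1
  have p2 := commutator_simple h2
  have bad : ∀ i, Sur Q₁ (c i) → Met Q₂ (c i) → False := fun i hS hM =>
    hne.elim (met_sur_iso h1 hM hS).some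
  -- from the left
  have a0 : Quo p Q₁ (c 0) := (quo_self p Q₁).congr e0.symm
  have sQM : ∀ i, i < ℓ → Quo p Q₁ (c i) → Met Q₁ (c (i + 1)) := by
    intro i hi h
    rcases hc i hi with h' | h'
    · exact met_fwd p1 h' (quo_met z1 h)
    · exact quo_met z1 (quo_bwd h' h)
  have sMD : ∀ i, i < ℓ → Met Q₁ (c i) → Dir Q₁ (c (i + 1)) := by
    intro i hi h
    rcases hc i hi with h' | h'
    · exact (met_fwd p1 h' h).dir
    · exact dir_bwd z1 h' h.dir
  have sDS : ∀ i, i < ℓ → Dir Q₁ (c i) → Sur Q₁ (c (i + 1)) := by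
    intro i hi h
    rcases hc i hi with h' | h'
    · exact sur_fwd h' h.sur
    · exact (dir_bwd z1 h' h).sur
  have a0' : Sur Q₁ (c 0) := (quo_met z1 a0).dir.sur
  have a1 : 0 < ℓ → Sur Q₁ (c 1) := fun h => (sQM 0 h a0).dir.sur
  have a2 : 1 < ℓ → Sur Q₁ (c 2) := fun h => (sMD 1 h (sQM 0 (by omega) a0)).sur
  have a3 : 2 < ℓ → Sur Q₁ (c 3) := fun h =>
    sDS 2 h (sMD 1 (by omega) (sQM 0 (by omega) a0))
  -- from the right
  have b0 : Quo p Q₂ (c ℓ) := (quo_self p Q₂).congr e1.symm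
  have b0' : Met Q₂ (c ℓ) := quo_met z2 b0
  have b1 : ∀ i, i + 1 = ℓ → Met Q₂ (c i) := by
    intro i hi
    subst hi
    rcases hc i (by omega) with h' | h'
    · exact quo_met z2 (quo_bwd h' b0)
    · exact met_fwd p2 h' b0'
  by_contra hlt
  have hlt : ℓ ≤ 5 := by omega
  interval_cases ℓ
  · exact bad 0 a0' b0'
  · exact bad 1 (a1 (by norm_num)) b0'
  · exact bad 2 (a2 (by norm_num)) b0'
  · exact bad 3 (a3 (by norm_num)) b0'
  · exact bad 3 (a3 (by norm_num)) (b1 3 rfl)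
  · have hS := a3 (by norm_num)
    have hM := b1 4 rfl
    rcases hc 3 (by norm_num) with h' | h'
    · exact bad 4 (sur_fwd h' hS) hM
    · exact bad 3 hS (met_fwd p2 h' hM)

end FComp
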