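import Pool.Agent.FComp.Basic

/-!
# Module PROD: direct products with a fixed group
-/

namespace FComp

variable {G H Q : Type} [Group G] [Group H] [Group Q]

/-- the tuple for a product -/
def Prod_tup {k r : ℕ} (S : Fin k → G) (q : Fin r → Q) : Fin (k + r) → G × Q :=
  fun i => Sum.elim (fun i => (S i, 1)) (fun j => (1, q j)) (finSumFinEquiv.symm i)

theorem Prod_tup_left {k r : ℕ} (S : Fin k → G) (q : Fin r → Q) (i : Fin k) :
    Prod_tup S q (finSumFinEquiv (Sum.inl i)) = (S i, 1) := by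
  simp only [Prod_tup, Equiv.symm_apply_apply, Sum.elim_inl]

theorem Prod_tup_right {k r : ℕ} (S : Fin k → G) (q : Fin r → Q) (j : Fin r) :
    Prod_tup S q (finSumFinEquiv (Sum.inr j)) = (1, q j) := by
  simp only [Prod_tup, Equiv.symm_apply_apply, Sum.elim_inr]

theorem Prod_gen {k r : ℕ} {S : Fin k → G} {q : Fin r → Q} (hS : Gen S) (hq : Gen q) :
    Gen (Prod_tup S q) := by
  rw [gen_iff] at hS hq ⊢
  rintro ⟨g, z⟩
  obtain ⟨v, hv⟩ := hS g
  obtain ⟨w, hw⟩ := hq z
  refine ⟨FreeGroup.map (fun i => finSumFinEquiv (Sum.inl i)) v *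
    FreeGroup.map (fun j => finSumFinEquiv (Sum.inr j)) w, ?_⟩
  have h1 : (FreeGroup.lift (Prod_tup S q)).comp
      (FreeGroup.map (fun i => finSumFinEquiv (Sum.inl i))) =
      (MonoidHom.inl G Q).comp (FreeGroup.lift S) := by
    apply FreeGroup.ext_hom
    intro i
    simp only [MonoidHom.comp_apply, FreeGroup.map.of, FreeGroup.lift_apply_of, Prod_tup_left,
      MonoidHom.inl_apply]
  have h2 : (FreeGroup.lift (Prod_tup S q)).comp
      (FreeGroup.map (fun j => finSumFinEquiv (Sum.inr j))) =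
      (MonoidHom.inr G Q).comp (FreeGroup.lift q) := by
    apply FreeGroup.ext_hom
    intro i
    simp only [MonoidHom.comp_apply, FreeGroup.map.of, FreeGroup.lift_apply_of, Prod_tup_right,
      MonoidHom.inr_apply]
  have h3 := DFunLike.congr_fun h1 v
  have h4 := DFunLike.congr_fun h2 w
  rw [MonoidHom.comp_apply, MonoidHom.comp_apply, hv] at h3
  rw [MonoidHom.comp_apply, MonoidHom.comp_apply, hw] at h4
  rw [map_mul, h3, h4]
  simp

theorem Prod_lift {k r : ℕ} (q : Fin r → Q) :
    ∃ (π₁ : FreeGroup (Fin (k + r)) →* FreeGroup (Fin k))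
      (π₂ : FreeGroup (Fin (k + r)) →* FreeGroup (Fin r)),
      ∀ (G : Type) [Group G] (S : Fin k → G) (w : FreeGroup (Fin (k + r))),
        FreeGroup.lift (Prod_tup S q) w = (FreeGroup.lift S (π₁ w), FreeGroup.lift q (π₂ w)) := by
  refine ⟨FreeGroup.lift (fun i => Sum.elim FreeGroup.of (fun _ => 1) (finSumFinEquiv.symm i)),
    FreeGroup.lift (fun i => Sum.elim (fun _ => 1) FreeGroup.of (finSumFinEquiv.symm i)), ?_⟩
  intro G _ S w
  have h : FreeGroup.lift (Prod_tup S q) = ((FreeGroup.lift S).comp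
      (FreeGroup.lift (fun i => Sum.elim FreeGroup.of (fun _ => 1) (finSumFinEquiv.symm i)))).prod
      ((FreeGroup.lift q).comp
      (FreeGroup.lift (fun i => Sum.elim (fun _ => 1) FreeGroup.of (finSumFinEquiv.symm i)))) := by
    apply FreeGroup.ext_hom
    intro i
    obtain ⟨z, rfl⟩ := finSumFinEquiv.surjective i
    rcases z with i | j
    · rw [FreeGroup.lift_apply_of, Prod_tup_left]
      simp only [MonoidHom.prod_apply, MonoidHom.comp_apply, FreeGroup.lift_apply_of,
        Equiv.symm_apply_apply, Sum.elim_inl, map_one]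
    · rw [FreeGroup.lift_apply_of, Prod_tup_right]
      simp only [MonoidHom.prod_apply, MonoidHom.comp_apply, FreeGroup.lift_apply_of,
        Equiv.symm_apply_apply, Sum.elim_inr, map_one]
  rw [h]
  rfl

/-- HINT: `Fin.append`-like tuples `((T i, 1))_i, ((1, q j))_j` in `H × Q` and
`((S n i, 1))_i, ((1, q j))_j` in `G × Q`; a word `w` in `k + r` letters has the value
`(lift T (π₁ w), lift q (π₂ w))` with the homomorphisms `π₁, π₂` which send the other letters to
one. (Index type `Fin k ⊕ Fin r` and `finSumFinEquiv` may be convenient.) -/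
theorem arrow_prod (hQ : Group.FG Q) (h : Arrow G H) : Arrow (G × Q) (H × Q) := by
  obtain ⟨k, T, S, hT, hS, hc⟩ := h
  obtain ⟨r, q, hq⟩ := exists_gen Q hQ
  refine ⟨k + r, Prod_tup T q, fun n => Prod_tup (S n) q, Prod_gen hT hq,
    fun n => Prod_gen (hS n) hq, ?_⟩
  rw [conv_iff] at hc ⊢
  intro w
  obtain ⟨π₁, π₂, hπ⟩ := Prod_lift (k := k) q
  filter_upwards [hc (π₁ w)] with n hn
  rw [hπ, hπ, Prod.mk_eq_one, Prod.mk_eq_one, hn]

end FComp
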