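import Pool.Agent.FComp.RelHom

/-!
# Module RELE: relations which hold for large `n`
-/

namespace FComp

open Filter

/-- Words which are relations of `LT` are relations of `S n` for large `n`, if the defining
relations of `Lam` hold for large `n`, one at a time. HINT: apply `rel_hom` to the group
`Filter.Germ atTop Γ` (a group by Mathlib) and the classes of the sequences `S n i`. -/
theorem rel_eventually {Γ : Type} [Group Γ] (g : ℕ → Bool → Γ) (x y : ℕ → Γ)
    (hxy : ∀ᶠ n in atTop, Commute (x n) (y n))
    (hc : ∀ (ε ε' : Bool) (i j : ℤ), ∀ᶠ n in atTop,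
      Commute (g n ε) (x n ^ i * y n ^ j * g n ε' * (x n ^ i * y n ^ j)⁻¹))
    (w : FreeGroup (Fin 4)) (hw : FreeGroup.lift LT w = 1) :
    ∀ᶠ n in atTop, FreeGroup.lift ![g n false, g n true, x n, y n] w = 1 := by
  let C : (ℕ → Γ) →* Filter.Germ (atTop : Filter ℕ) Γ := Filter.Germ.coeMulHom atTop
  have hC : ∀ a b : ℕ → Γ, (∀ᶠ n in atTop, a n = b n) → C a = C b := by
    intro a b h
    exact Filter.Germ.coe_eq.2 h
  have hC' : ∀ a b : ℕ → Γ, C a = C b → (∀ᶠ n in atTop, a n = b n) := by
    intro a b h
    exact Filter.Germ.coe_eq.1 h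
  have hCc : ∀ a b : ℕ → Γ, (∀ᶠ n in atTop, Commute (a n) (b n)) → Commute (C a) (C b) := by
    intro a b h
    show C a * C b = C b * C a
    rw [← map_mul, ← map_mul]
    exact hC _ _ h
  obtain ⟨Φ, h1, h2, -⟩ := rel_hom (Γ := Filter.Germ (atTop : Filter ℕ) Γ)
    (fun ε => C (fun n => g n ε)) (C x) (C y) (hCc x y hxy) (by
      intro ε ε' i j
      have h := hCc (fun n => g n ε) (x ^ i * y ^ j * (fun n => g n ε') * (x ^ i * y ^ j)⁻¹)
        (hc ε ε' i j)
      simpa only [map_mul, map_zpow, map_inv] using h)
  have key : (C.comp (MonoidHom.mk' (fun w : FreeGroup (Fin 4) => fun n =>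
      FreeGroup.lift ![g n false, g n true, x n, y n] w) (by
        intro a b
        funext n
        simp))) = Φ.comp (FreeGroup.lift LT) := by
    apply FreeGroup.ext_hom
    intro i
    fin_cases i
    · simp only [MonoidHom.comp_apply, MonoidHom.mk'_apply, FreeGroup.lift_apply_of]
      exact (h1 false).symm
    · simp only [MonoidHom.comp_apply, MonoidHom.mk'_apply, FreeGroup.lift_apply_of]
      exact (h1 true).symm
    · simp only [MonoidHom.comp_apply, MonoidHom.mk'_apply, FreeGroup.lift_apply_of]
      have := h2 (1, 0)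
      simp only [zpow_one, zpow_zero, mul_one] at this
      exact this.symm
    · simp only [MonoidHom.comp_apply, MonoidHom.mk'_apply, FreeGroup.lift_apply_of]
      have := h2 (0, 1)
      simp only [zpow_one, zpow_zero, one_mul] at this
      exact this.symm
  have h3 := DFunLike.congr_fun key w
  rw [MonoidHom.comp_apply, MonoidHom.comp_apply, hw, map_one, ← map_one C] at h3
  exact hC' _ _ h3

end FComp
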