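import Pool.Agent.FComp.Classes

/-!
# Module SUR: finite quotients pass to limits
-/

namespace FComp

open Filter

variable {Q G H : Type} [Group Q] [Group G] [Group H]

theorem Sur_pigeon {k : ℕ} [Finite Q] (f : G →* Q) (S : ℕ → Fin k → G) :
    ∃ s : Fin k → Q, ∃ᶠ n in atTop, (fun i => f (S n i)) = s := by
  by_contra hcon
  push Not at hcon
  obtain ⟨n, hn⟩ := (Filter.eventually_all.2 hcon).exists
  exact hn _ rfl

theorem Sur_lift {k : ℕ} (f : G →* Q) (S : Fin k → G) (s : Fin k → Q)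
    (h : (fun i => f (S i)) = s) (w : FreeGroup (Fin k)) :
    f (FreeGroup.lift S w) = FreeGroup.lift s w := by
  have : f.comp (FreeGroup.lift S) = FreeGroup.lift s := by
    ext i
    simp [← h]
  exact DFunLike.congr_fun this w

/-- The homomorphism from the limit. -/
theorem Sur_hom {k : ℕ} {T : Fin k → H} {S : ℕ → Fin k → G} (hT : Gen T) (hc : Conv S T)
    (f : G →* Q) {s : Fin k → Q} (hs : ∃ᶠ n in atTop, (fun i => f (S n i)) = s) :
    ∃ g : H →* Q, ∀ w, g (FreeGroup.lift T w) = FreeGroup.lift s w := by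
  refine exists_hom hT fun w hw => ?_
  have h1 : ∀ᶠ n in atTop, FreeGroup.lift (S n) w = FreeGroup.lift (S n) 1 :=
    hc.eq (by rw [hw, map_one])
  obtain ⟨n, h2, h3⟩ := (hs.and_eventually h1).exists
  rw [← Sur_lift f (S n) s h2, h3, map_one, map_one]

theorem Sur_gen {k : ℕ} {S : ℕ → Fin k → G} (hS : ∀ n, Gen (S n))
    (f : G →* Q) (hf : Function.Surjective f) {s : Fin k → Q}
    (hs : ∃ᶠ n in atTop, (fun i => f (S n i)) = s) :
    Function.Surjective (FreeGroup.lift s) := by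
  intro q
  obtain ⟨n, h2⟩ := hs.exists
  obtain ⟨g, rfl⟩ := hf q
  obtain ⟨w, rfl⟩ := (gen_iff _).1 (hS n) g
  exact ⟨w, (Sur_lift f (S n) s h2 w).symm⟩

theorem sur_fwd [Finite Q] (h : Arrow G H) (hG : Sur Q G) : Sur Q H := by
  obtain ⟨k, T, S, hT, hS, hc⟩ := h
  obtain ⟨f, hf⟩ := hG
  obtain ⟨s, hs⟩ := Sur_pigeon f S
  obtain ⟨g, hg⟩ := Sur_hom hT hc f hs
  refine ⟨g, fun q => ?_⟩
  obtain ⟨w, rfl⟩ := Sur_gen hS f hf hs q
  exact ⟨_, hg w⟩

end FComp
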