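import Pool.Agent.FComp.WrA
import Pool.Agent.FComp.RelEv
import Pool.Agent.FComp.LamEmb

/-!
# Module WRL: `F₂ ≀ ℤ² → ℤ² ≀ ℤ²`
-/

namespace FComp

open scoped commutatorElement

open Filter

/-- homomorphisms of the lamps -/
def WRL_map {D D' Q : Type} [Group D] [Group D'] [Group Q] (f : D →* D') :
    RegularWreathProduct D Q →* RegularWreathProduct D' Q where
  toFun x := ⟨fun u => f (x.left u), x.right⟩
  map_one' := by
    ext u
    · exact map_one f
    · rfl
  map_mul' x y := by
    ext u
    · exact map_mul f _ _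
    · rfl

theorem WRL_tr_zpow (z : ℤ × ℤ) (m : ℤ) : tr z ^ m = tr (m • z) := by
  let f : Multiplicative (ℤ × ℤ) →* W :=
    { toFun := fun u => tr u.toAdd
      map_one' := rfl
      map_mul' := fun u v => tr_mul _ _ }
  have h := map_zpow f (Multiplicative.ofAdd z) m
  exact h.symm

theorem WRL_tr_xy (i j : ℤ) : tr (1, 0) ^ i * tr (0, 1) ^ j = tr (i, j) := by
  rw [WRL_tr_zpow, WRL_tr_zpow, ← tr_mul]
  congr 1
  simp

theorem WRL_sg_comm {u v : P} {l m : F2} (h : u ≠ v) : Commute (sg u l) (sg v m) := by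
  have hm : ∀ f g : P → F2, lp f * lp g = lp (f * g) := by
    intro f g
    unfold lp
    rw [RegularWreathProduct.mul_def]
    simp
  change sg u l * sg v m = sg v m * sg u l
  unfold sg
  rw [hm, hm]
  congr 1
  exact (Pi.mulSingle_commute (f := fun _ : P => F2) h l m)

/-- the generating tuples -/
noncomputable def WRL_S (n : ℕ) : Fin 4 → A :=
  ![⟨sg 1 (FreeGroup.of 0), sg_mem _ _⟩,
    ⟨sg (Multiplicative.ofAdd ((n : ℤ), (0 : ℤ))) (FreeGroup.of 1), sg_mem _ _⟩,
    ⟨tr (1, 0), tr_mem _⟩, ⟨tr (0, 1), tr_mem _⟩]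

theorem WRL_gen (n : ℕ) : Gen (WRL_S n) := by
  unfold Gen
  rw [eq_top_iff]
  rintro ⟨x, hx⟩ -
  have h1 : (Subgroup.closure (Set.range (WRL_S n))).map A.subtype =
      Subgroup.closure (A.subtype '' Set.range (WRL_S n)) := A.subtype.map_closure _
  have h2 : A ≤ (Subgroup.closure (Set.range (WRL_S n))).map A.subtype := by
    rw [h1]
    have hg : ∀ i, (WRL_S n i : W) ∈ Subgroup.closure (A.subtype '' Set.range (WRL_S n)) :=
      fun i => Subgroup.subset_closure ⟨_, ⟨i, rfl⟩, rfl⟩
    have g0 : sg 1 (FreeGroup.of 0) ∈ Subgroup.closure (A.subtype '' Set.range (WRL_S n)) := hg 0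
    have g1 : sg (Multiplicative.ofAdd ((n : ℤ), (0 : ℤ))) (FreeGroup.of 1) ∈
        Subgroup.closure (A.subtype '' Set.range (WRL_S n)) := hg 1
    have g2 : tr (1, 0) ∈ Subgroup.closure (A.subtype '' Set.range (WRL_S n)) := hg 2
    have g3 : tr (0, 1) ∈ Subgroup.closure (A.subtype '' Set.range (WRL_S n)) := hg 3
    refine (Subgroup.closure_le _).2 ?_
    rintro y (rfl | rfl | rfl | rfl)
    · exact g0
    · have h3 : sg 1 (FreeGroup.of 1) = tr ((-(n : ℤ)), 0) *
          sg (Multiplicative.ofAdd ((n : ℤ), (0 : ℤ))) (FreeGroup.of 1) *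
            (tr ((-(n : ℤ)), 0))⁻¹ := by
        rw [tr_conj_sg, ← ofAdd_add]
        simp
        rfl
      have h4 : tr ((-(n : ℤ)), 0) ∈ Subgroup.closure (A.subtype '' Set.range (WRL_S n)) := by
        have h5 := WRL_tr_zpow (1, 0) (-(n : ℤ))
        have h6 : (-(n : ℤ)) • ((1 : ℤ), (0 : ℤ)) = (-(n : ℤ), 0) := by simp
        rw [h6] at h5
        rw [← h5]
        exact Subgroup.zpow_mem _ g2 _
      have h7 : sg 1 (FreeGroup.of 1) ∈
          Subgroup.closure (A.subtype '' Set.range (WRL_S n)) := by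
        have h8 := Subgroup.mul_mem _ (Subgroup.mul_mem _ h4 g1) (Subgroup.inv_mem _ h4)
        exact Eq.mpr (congrArg (fun z => z ∈
          Subgroup.closure (A.subtype '' Set.range (WRL_S n))) h3) h8
      exact h7
    · exact g2
    · exact g3
  obtain ⟨y, hy, hyx⟩ := h2 hx
  have h3 : y = ⟨x, hx⟩ := Subtype.ext hyx
  rwa [← h3]

/-- HINT: the generating tuples `(sg 1 a, sg (n, 0) b, tr (1, 0), tr (0, 1))` of `A`. Relations of
`LT` hold for large `n` by `rel_eventually` (in the group `A` or `W`); if `lift LT w ≠ 1` then the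
value of `w` at the tuple is not one for any `n`, by `lam_emb (n, 0)` and the homomorphism
`W → RegularWreathProduct (Multiplicative (ℤ × ℤ)) P` induced by the abelianisation
`a ↦ (1, 0)`, `b ↦ (0, 1)` of the lamps. -/
theorem arrow_wr : Arrow A Lam := by
  refine ⟨4, LT, WRL_S, LT_gen, WRL_gen, ?_⟩
  rw [conv_iff]
  intro w
  by_cases hw : FreeGroup.lift LT w = 1
  · -- relations hold for large `n`
    let g : ℕ → Bool → A := fun n ε => bif ε then WRL_S n 1 else WRL_S n 0
    have hcomm : ∀ u v : A, Commute (u : W) (v : W) → Commute u v := fun u v h =>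
      Subtype.ext h
    have h1 := rel_eventually g (fun n => WRL_S n 2) (fun n => WRL_S n 3) (by
      refine Filter.Eventually.of_forall fun n => ?_
      apply hcomm
      change tr (1, 0) * tr (0, 1) = tr (0, 1) * tr (1, 0)
      rw [← tr_mul, ← tr_mul, add_comm]) (by
      intro ε ε' i j
      have hconj : ∀ n, ((WRL_S n 2 ^ i * WRL_S n 3 ^ j * g n ε' *
          (WRL_S n 2 ^ i * WRL_S n 3 ^ j)⁻¹ : A) : W) =
          tr (i, j) * (g n ε' : W) * (tr (i, j))⁻¹ := by
        intro n
        have h2 : ((WRL_S n 2 ^ i * WRL_S n 3 ^ j : A) : W) = tr (i, j) := by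
          rw [← WRL_tr_xy]
          rfl
        rw [Subgroup.coe_mul, Subgroup.coe_mul, Subgroup.coe_inv, h2]
      cases ε <;> cases ε'
      · refine Filter.Eventually.of_forall fun n => ?_
        apply hcomm
        rw [hconj]
        change Commute (sg 1 (FreeGroup.of 0))
          (tr (i, j) * sg 1 (FreeGroup.of 0) * (tr (i, j))⁻¹)
        rw [tr_conj_sg, mul_one]
        by_cases h2 : (1 : P) = Multiplicative.ofAdd (i, j)
        · rw [← h2]
        · exact WRL_sg_comm h2
      · filter_upwards [Filter.eventually_gt_atTop (i.natAbs)] with n hn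
        apply hcomm
        rw [hconj]
        change Commute (sg 1 (FreeGroup.of 0))
          (tr (i, j) * sg (Multiplicative.ofAdd ((n : ℤ), (0 : ℤ))) (FreeGroup.of 1) *
            (tr (i, j))⁻¹)
        rw [tr_conj_sg]
        refine WRL_sg_comm fun h2 => ?_
        have h3 := congrArg (fun u : P => u.toAdd.1) h2
        change (0 : ℤ) = i + n at h3
        omega
      · filter_upwards [Filter.eventually_gt_atTop (i.natAbs)] with n hn
        apply hcomm
        rw [hconj]
        change Commute (sg (Multiplicative.ofAdd ((n : ℤ), (0 : ℤ))) (FreeGroup.of 1))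
          (tr (i, j) * sg 1 (FreeGroup.of 0) * (tr (i, j))⁻¹)
        rw [tr_conj_sg, mul_one]
        refine WRL_sg_comm fun h2 => ?_
        have h3 := congrArg (fun u : P => u.toAdd.1) h2
        change (n : ℤ) = i at h3
        omega
      · refine Filter.Eventually.of_forall fun n => ?_
        apply hcomm
        rw [hconj]
        change Commute (sg (Multiplicative.ofAdd ((n : ℤ), (0 : ℤ))) (FreeGroup.of 1))
          (tr (i, j) * sg (Multiplicative.ofAdd ((n : ℤ), (0 : ℤ))) (FreeGroup.of 1) *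
            (tr (i, j))⁻¹)
        rw [tr_conj_sg]
        by_cases h2 : Multiplicative.ofAdd ((n : ℤ), (0 : ℤ)) =
            Multiplicative.ofAdd (i, j) * Multiplicative.ofAdd ((n : ℤ), (0 : ℤ))
        · rw [← h2]
        · exact WRL_sg_comm h2) w hw
    filter_upwards [h1] with n hn
    refine iff_of_true ?_ hw
    have h2 : ![g n false, g n true, WRL_S n 2, WRL_S n 3] = WRL_S n := by
      funext i
      fin_cases i <;> rfl
    rw [h2] at hn
    exact hn
  · refine Filter.Eventually.of_forall fun n => iff_of_false (fun h1 => hw ?_) hw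
    obtain ⟨Ψ, hinj, e0, e1, e2, e3⟩ := lam_emb ((n : ℤ), 0)
    obtain ⟨ab, a0, a1⟩ : ∃ ab : F2 →* Multiplicative (ℤ × ℤ),
        ab (FreeGroup.of 0) = Multiplicative.ofAdd (1, 0) ∧
        ab (FreeGroup.of 1) = Multiplicative.ofAdd (0, 1) :=
      ⟨FreeGroup.lift ![Multiplicative.ofAdd (1, 0), Multiplicative.ofAdd (0, 1)], by simp,
        by simp⟩
    apply hinj
    rw [map_one]
    have hsg : ∀ (u : P) (l : F2), WRL_map ab (sg u l) = ⟨Pi.mulSingle u (ab l), 1⟩ := by
      intro u l
      refine RegularWreathProduct.ext ?_ rfl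
      funext v
      change ab ((Pi.mulSingle u l : P → F2) v) = (Pi.mulSingle u (ab l) : P → _) v
      by_cases hv : v = u
      · subst hv
        rw [Pi.mulSingle_eq_same, Pi.mulSingle_eq_same]
      · rw [Pi.mulSingle_eq_of_ne hv, Pi.mulSingle_eq_of_ne hv, map_one]
    have htr : ∀ z, WRL_map ab (tr z) = ⟨1, Multiplicative.ofAdd z⟩ := by
      intro z
      refine RegularWreathProduct.ext ?_ rfl
      funext v
      change ab 1 = 1
      rw [map_one]
    have h2 : Ψ.comp (FreeGroup.lift LT) =
        ((WRL_map ab).comp A.subtype).comp (FreeGroup.lift (WRL_S n)) := by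
      ext i : 1
      rw [MonoidHom.comp_apply, MonoidHom.comp_apply, MonoidHom.comp_apply, FreeGroup.lift_apply_of,
        FreeGroup.lift_apply_of]
      fin_cases i
      · change Ψ (lamp false) = WRL_map ab (sg 1 (FreeGroup.of 0))
        rw [e0, hsg, a0]
      · change Ψ (lamp true) =
          WRL_map ab (sg (Multiplicative.ofAdd ((n : ℤ), (0 : ℤ))) (FreeGroup.of 1))
        rw [e1, hsg, a1]
      · change Ψ (mv (1, 0)) = WRL_map ab (tr (1, 0))
        rw [e2, htr]
      · change Ψ (mv (0, 1)) = WRL_map ab (tr (0, 1))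
        rw [e3, htr]
    have h3 := DFunLike.congr_fun h2 w
    change Ψ (FreeGroup.lift LT w) = WRL_map ab (A.subtype (FreeGroup.lift (WRL_S n) w)) at h3
    rw [h3, h1, map_one, map_one]

end FComp
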