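import Pool.Agent.FComp.Prod
import Pool.Agent.FComp.BSArrow
import Pool.Agent.FComp.WrArrow
import Pool.Agent.FComp.Girth
import Pool.Agent.FComp.FreeArrow
import Pool.Agent.FComp.Lower

/-!
# Module UPP: the theorem
-/

namespace FComp

theorem arrow_refl {G : Type} [Group G] (h : Group.FG G) : Arrow G G := by
  obtain ⟨r, q, hq⟩ := exists_gen G h
  exact ⟨r, q, fun _ => q, hq, fun _ => hq, fun _ => ⟨0, fun _ _ _ _ => Iff.rfl⟩⟩

theorem bs_fg (p : ℕ) : Group.FG (BS p) :=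
  ⟨(Subgroup.fg_iff _).2 ⟨{BS.a p, BS.t p}, bs_closure p, Set.toFinite _⟩⟩

theorem bsq_fg (p : ℕ) (Q : Type) [Group Q] [Finite Q] : Group.FG (BS p × Q) :=
  (arrow_prod (Q := Q) inferInstance (arrow_refl (bs_fg p))).fg_left

/-- The group `BS p × Q` as a finitely generated group. -/
def bsq (p : ℕ) (Q : Type) [Group Q] [Finite Q] : FGGroup := ⟨BS p × Q, bsq_fg p Q⟩

theorem lam_arrow (p : ℕ) (hp : 2 ≤ p) (Q : Type) [Group Q] [Finite Q] :
    Arrow (BS p × Q) (Lam × Q) := arrow_prod inferInstance (arrow_bs p hp)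

theorem wr_arrow (Q : Type) [Group Q] [Finite Q] : Arrow (A × Q) (Lam × Q) :=
  arrow_prod inferInstance arrow_wr

theorem Linked.gdist_le {ℓ : ℕ} {A B : FGGroup} (h : Linked ℓ A B) : gdist A B ≤ ℓ :=
  sInf_le ⟨ℓ, rfl, h⟩

theorem Linked.gdist_ne {ℓ : ℕ} {A B : FGGroup} (h : Linked ℓ A B) : gdist A B ≠ ⊤ :=
  ne_top_of_le_ne_top (ENat.natCast_ne_top ℓ) h.gdist_le

theorem linked_six (p : ℕ) (hp : 2 ≤ p) (Q₁ Q₂ : Type) [Group Q₁] [Group Q₂] [Finite Q₁]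
    [Finite Q₂] : Linked 6 (bsq p Q₁) (bsq p Q₂) := by
  obtain ⟨k₁, h₁⟩ := arrow_free Q₁ inferInstance
  obtain ⟨k₂, h₂⟩ := arrow_free Q₂ inferInstance
  have f₁ := h₁ (max k₁ k₂) (le_max_left _ _)
  have f₂ := h₂ (max k₁ k₂) (le_max_right _ _)
  refine ⟨fun i => match i with
    | 0 => bsq p Q₁
    | 1 => ⟨Lam × Q₁, (lam_arrow p hp Q₁).fg_right⟩
    | 2 => ⟨A × Q₁, f₁.fg_left⟩
    | 3 => free (max k₁ k₂)
    | 4 => ⟨A × Q₂, f₂.fg_left⟩
    | 5 => ⟨Lam × Q₂, (lam_arrow p hp Q₂).fg_right⟩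
    | _ => bsq p Q₂, ⟨MulEquiv.refl _⟩, ⟨MulEquiv.refl _⟩, ?_⟩
  intro i hi
  interval_cases i
  · exact Or.inl (lam_arrow p hp Q₁)
  · exact Or.inr (wr_arrow Q₁)
  · exact Or.inl f₁
  · exact Or.inr f₂
  · exact Or.inl (wr_arrow Q₂)
  · exact Or.inr (lam_arrow p hp Q₂)

theorem bsq_comp (p : ℕ) (hp : 2 ≤ p) (Q : Type) [Group Q] [Finite Q] : bsq p Q ∈ Comp := by
  obtain ⟨k₁, h₁⟩ := arrow_free Q inferInstance
  have f₁ := h₁ (max k₁ 2) (le_max_left _ _)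
  have h : Linked 4 (bsq p Q) (free 2) := by
    refine ⟨fun i => match i with
      | 0 => bsq p Q
      | 1 => ⟨Lam × Q, (lam_arrow p hp Q).fg_right⟩
      | 2 => ⟨A × Q, f₁.fg_left⟩
      | 3 => free (max k₁ 2)
      | _ => free 2, ⟨MulEquiv.refl _⟩, ⟨MulEquiv.refl _⟩, ?_⟩
    intro i hi
    interval_cases i
    · exact Or.inl (lam_arrow p hp Q)
    · exact Or.inr (wr_arrow Q)
    · exact Or.inl f₁
    · exact Or.inr (arrow_free_free 2 _ le_rfl (le_max_right _ _))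
  exact h.gdist_ne

theorem free_comp (m : ℕ) (hm : 2 ≤ m) : free m ∈ Comp := by
  have h : Linked 1 (free m) (free 2) := by
    refine ⟨fun i => match i with
      | 0 => free m
      | _ => free 2, ⟨MulEquiv.refl _⟩, ⟨MulEquiv.refl _⟩, ?_⟩
    intro i hi
    interval_cases i
    exact Or.inr (arrow_free_free 2 m le_rfl hm)
  exact h.gdist_ne

theorem gdist_eq (p : ℕ) (hp : 2 ≤ p) (Q₁ Q₂ : Type) [Group Q₁] [Group Q₂] [Finite Q₁] [Finite Q₂]
    [IsSimpleGroup Q₁] [IsSimpleGroup Q₂] (h1 : ∃ a b : Q₁, a * b ≠ b * a)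
    (h2 : ∃ a b : Q₂, a * b ≠ b * a) (hne : IsEmpty (Q₁ ≃* Q₂)) :
    gdist (bsq p Q₁) (bsq p Q₂) = 6 := by
  apply le_antisymm
  · exact (linked_six p hp Q₁ Q₂).gdist_le
  · apply le_sInf
    rintro d ⟨ℓ, rfl, c, e0, e1, hc⟩
    have := lower h1 h2 hne c e0 e1 hc
    exact_mod_cast this

open Equiv in
theorem alt5 : ∃ a b : alternatingGroup (Fin 5), a * b ≠ b * a := by
  refine ⟨⟨swap 0 1 * swap 1 2, ?_⟩, ⟨swap 0 1 * swap 1 3, ?_⟩, ?_⟩
  · rw [Perm.mem_alternatingGroup]; decide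
  · rw [Perm.mem_alternatingGroup]; decide
  · intro h
    have := congrArg (fun x : alternatingGroup (Fin 5) => (x : Perm (Fin 5)) 0) h
    revert this
    decide
open Equiv in
theorem alt6 : ∃ a b : alternatingGroup (Fin 6), a * b ≠ b * a := by
  refine ⟨⟨swap 0 1 * swap 1 2, ?_⟩, ⟨swap 0 1 * swap 1 3, ?_⟩, ?_⟩
  · rw [Perm.mem_alternatingGroup]; decide
  · rw [Perm.mem_alternatingGroup]; decide
  · intro h
    have := congrArg (fun x : alternatingGroup (Fin 6) => (x : Perm (Fin 6)) 0) h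
    revert this
    decide

theorem main : (∀ m, 2 ≤ m → free m ∈ Comp) ∧
    (∀ p, 2 ≤ p → ∀ (Q₁ Q₂ : Type) [Group Q₁] [Group Q₂] [Finite Q₁] [Finite Q₂]
      [IsSimpleGroup Q₁] [IsSimpleGroup Q₂], (∃ a b : Q₁, a * b ≠ b * a) →
      (∃ a b : Q₂, a * b ≠ b * a) → IsEmpty (Q₁ ≃* Q₂) →
      bsq p Q₁ ∈ Comp ∧ bsq p Q₂ ∈ Comp ∧ gdist (bsq p Q₁) (bsq p Q₂) = 6) ∧
    6 ≤ diam := by
  refine ⟨free_comp, ?_, ?_⟩
  · intro p hp Q₁ Q₂ _ _ _ _ _ _ h1 h2 hne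
    exact ⟨bsq_comp p hp Q₁, bsq_comp p hp Q₂, gdist_eq p hp Q₁ Q₂ h1 h2 hne⟩
  · have s5 : IsSimpleGroup (alternatingGroup (Fin 5)) := alternatingGroup.isSimpleGroup (by simp)
    have s6 : IsSimpleGroup (alternatingGroup (Fin 6)) := alternatingGroup.isSimpleGroup (by simp)
    have c5 : ∃ a b : alternatingGroup (Fin 5), a * b ≠ b * a := alt5
    have c6 : ∃ a b : alternatingGroup (Fin 6), a * b ≠ b * a := alt6
    have hne : IsEmpty (alternatingGroup (Fin 5) ≃* alternatingGroup (Fin 6)) := by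
      constructor
      intro e
      have := Nat.card_congr e.toEquiv
      rw [nat_card_alternatingGroup, nat_card_alternatingGroup] at this
      simp [Nat.factorial] at this
    have h := gdist_eq 2 le_rfl _ _ c5 c6 hne
    rw [← h]
    exact le_trans (le_iSup₂ (f := fun B (_ : B ∈ Comp) => gdist (bsq 2 (alternatingGroup (Fin 5))) B)
      (bsq 2 (alternatingGroup (Fin 6))) (bsq_comp 2 le_rfl _))
      (le_iSup₂ (f := fun A (_ : A ∈ Comp) => ⨆ B ∈ Comp, gdist A B)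
      (bsq 2 (alternatingGroup (Fin 5))) (bsq_comp 2 le_rfl _))

end FComp
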