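import Pool.Agent.FComp.Basic

/-!
# The wreath product `F₂ ≀ ℤ²`: definitions
-/

namespace FComp

open scoped commutatorElement

/-- The group `ℤ²`, written multiplicatively. -/
abbrev P : Type := Multiplicative (ℤ × ℤ)
/-- The free group of rank two. -/
abbrev F2 : Type := FreeGroup (Fin 2)
/-- The unrestricted wreath product. -/
abbrev W : Type := RegularWreathProduct F2 P

/-- The element with the lamps `f`. -/
def lp (f : P → F2) : W := ⟨f, 1⟩
/-- A single lamp `l` at the place `u`. -/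
noncomputable def sg (u : P) (l : F2) : W := lp (Pi.mulSingle u l)
/-- The shift by `z`. -/
def tr (z : ℤ × ℤ) : W := ⟨1, Multiplicative.ofAdd z⟩

/-- The wreath product `F₂ ≀ ℤ²`. -/
noncomputable def A : Subgroup W :=
  Subgroup.closure {sg 1 (FreeGroup.of 0), sg 1 (FreeGroup.of 1), tr (1, 0), tr (0, 1)}

/-- The elements `c j = [a, b ^ (j + 1)]` of the free group of rank two. -/
def cc (j : ℕ) : F2 := ⁅(FreeGroup.of 0 : F2), FreeGroup.of 1 ^ (j + 1)⁆

/-- The constant function `l` on the square of radius `n`, and one outside. -/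
def sq (n : ℕ) (l : F2) : P → F2 :=
  fun u => if |u.toAdd.1| ≤ n ∧ |u.toAdd.2| ≤ n then l else 1

/-- The generating tuples with large girth. -/
noncomputable def tup (n : ℕ) : ℕ → W
  | 0 => ⟨sq n (cc 0), Multiplicative.ofAdd (1, 0)⟩
  | 1 => ⟨sq n (cc 1), Multiplicative.ofAdd (0, 1)⟩
  | 2 => lp (sq n (cc 2) * Pi.mulSingle (Multiplicative.ofAdd ((0 : ℤ), (n : ℤ) + 1))
      (FreeGroup.of 0))
  | 3 => lp (sq n (cc 3) * Pi.mulSingle
      (Multiplicative.ofAdd (2 * (n : ℤ) + 1, (n : ℤ) + 1)) (FreeGroup.of 1))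
  | j + 4 => lp (sq n (cc (j + 4)))

end FComp
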