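import Pool.Agent.FComp.Wr

/-!
# Module WRA: elements of `F₂ ≀ ℤ²`
-/

namespace FComp

open scoped commutatorElement

theorem WrA_ext {x y : W} (h1 : x.left = y.left) (h2 : x.right = y.right) : x = y :=
  RegularWreathProduct.ext h1 h2

/-- the shifts as a homomorphism -/
def WrA_trHom : P →* W where
  toFun u := ⟨1, u⟩
  map_one' := rfl
  map_mul' u v := by
    apply WrA_ext
    · show (1 : P → F2) = 1 * fun _ => 1
      ext; simp
    · rfl

theorem WrA_tr (z : ℤ × ℤ) : tr z = WrA_trHom (Multiplicative.ofAdd z) := rfl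

theorem tr_mul (z z' : ℤ × ℤ) : tr (z + z') = tr z * tr z' := by
  rw [WrA_tr, WrA_tr, WrA_tr, ofAdd_add, map_mul]

theorem WrA_lp_mul (f g : P → F2) : lp f * lp g = lp (f * g) := by
  apply WrA_ext
  · show f * (fun x => g ((1 : P)⁻¹ * x)) = f * g
    simp
  · show (1 : P) * 1 = 1
    simp

theorem tr_conj_lp (z : ℤ × ℤ) (f : P → F2) :
    tr z * lp f * (tr z)⁻¹ = lp (fun u => f ((Multiplicative.ofAdd z)⁻¹ * u)) := by
  apply WrA_ext
  · ext u
    simp [tr, lp]
  · simp [tr, lp]

theorem tr_conj_sg (z : ℤ × ℤ) (u : P) (l : F2) :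
    tr z * sg u l * (tr z)⁻¹ = sg (Multiplicative.ofAdd z * u) l := by
  rw [sg, tr_conj_lp, sg]
  congr 1
  ext x
  by_cases h : x = Multiplicative.ofAdd z * u
  · subst h
    simp
  · rw [Pi.mulSingle_eq_of_ne h, Pi.mulSingle_eq_of_ne]
    intro h'
    apply h
    rw [← h', mul_inv_cancel_left]

theorem tr_mem (z : ℤ × ℤ) : tr z ∈ A := by
  have h1 : tr (1, 0) ∈ A := Subgroup.subset_closure (by simp)
  have h2 : tr (0, 1) ∈ A := Subgroup.subset_closure (by simp)
  have h3 : tr z = tr (1, 0) ^ z.1 * tr (0, 1) ^ z.2 := by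
    rw [WrA_tr, WrA_tr, WrA_tr, ← map_zpow WrA_trHom, ← map_zpow WrA_trHom, ← map_mul WrA_trHom,
      ← ofAdd_zsmul, ← ofAdd_zsmul, ← ofAdd_add]
    congr 2
    ext <;> simp
  rw [h3]
  exact A.mul_mem (A.zpow_mem h1 _) (A.zpow_mem h2 _)

/-- the lamp at `1` as a homomorphism -/
noncomputable def WrA_sgHom : F2 →* W where
  toFun l := sg 1 l
  map_one' := by
    rw [sg, Pi.mulSingle_one]; rfl
  map_mul' l l' := by
    rw [sg, sg, sg, WrA_lp_mul, Pi.mulSingle_mul]

theorem WrA_sg_one_mem (l : F2) : sg 1 l ∈ A := by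
  have : l ∈ A.comap WrA_sgHom := by
    induction l using FreeGroup.induction_on with
    | C1 => exact Subgroup.one_mem _
    | of i =>
      fin_cases i
      · exact Subgroup.subset_closure (by simp [WrA_sgHom])
      · exact Subgroup.subset_closure (by simp [WrA_sgHom])
    | inv_of i h => exact Subgroup.inv_mem _ h
    | mul x y hx hy => exact Subgroup.mul_mem _ hx hy
  exact this

theorem sg_mem (u : P) (l : F2) : sg u l ∈ A := by
  have h := tr_conj_sg u.toAdd 1 l
  rw [mul_one, ofAdd_toAdd] at h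
  rw [← h]
  exact A.mul_mem (A.mul_mem (tr_mem _) (WrA_sg_one_mem l)) (A.inv_mem (tr_mem _))

/-- Finitely supported families of lamps with values in a normal subgroup `N` lie in every subgroup
which contains the single ones. -/
theorem lp_mem (B : Subgroup W) (N : Set F2) (h : ∀ u, ∀ l ∈ N, sg u l ∈ B) (f : P → F2)
    (hf : {u | f u ≠ 1}.Finite) (hN : ∀ u, f u ≠ 1 → f u ∈ N) : lp f ∈ B := by
  classical
  have key : ∀ s : Finset P, (∀ u ∈ s, f u ≠ 1) → lp (fun u => if u ∈ s then f u else 1) ∈ B := by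
    intro s
    induction s using Finset.induction_on with
    | empty =>
      intro _
      simp only [Finset.notMem_empty, if_false]
      exact B.one_mem
    | insert a s ha ih =>
      intro hs
      have h1 : (fun u => if u ∈ insert a s then f u else 1) =
          Pi.mulSingle a (f a) * (fun u => if u ∈ s then f u else 1) := by
        ext u
        by_cases hu : u = a
        · subst hu
          simp [ha]
        · simp [hu]
      rw [h1, ← WrA_lp_mul]
      exact B.mul_mem (h a _ (hN a (hs a (Finset.mem_insert_self a s))))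
        (ih (fun u hu => hs u (Finset.mem_insert_of_mem hu)))
  have h2 := key hf.toFinset (by simp)
  have h3 : (fun u => if u ∈ hf.toFinset then f u else 1) = f := by
    ext u
    by_cases hu : f u = 1 <;> simp [hu]
  rwa [h3] at h2

theorem WrA_sq_finite (n : ℕ) (l : F2) : {u | sq n l u ≠ 1}.Finite := by
  have h1 : (Set.Icc (-(n : ℤ)) n ×ˢ Set.Icc (-(n : ℤ)) n).Finite :=
    (Set.finite_Icc _ _).prod (Set.finite_Icc _ _)
  refine (h1.preimage (f := fun u : P => u.toAdd) ?_).subset ?_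
  · exact Multiplicative.toAdd.injective.injOn
  · intro u hu
    simp only [Set.mem_preimage, Set.mem_prod, Set.mem_Icc]
    by_contra hcon
    apply hu
    rw [sq, if_neg]
    rw [abs_le, abs_le]
    exact hcon

theorem WrA_lp_mem (f : P → F2) (hf : {u | f u ≠ 1}.Finite) : lp f ∈ A :=
  lp_mem A Set.univ (fun u l _ => sg_mem u l) f hf (fun _ _ => Set.mem_univ _)

theorem WrA_sq_mul_finite (n : ℕ) (l l' : F2) (v : P) :
    {u | (sq n l * Pi.mulSingle v l' : P → F2) u ≠ 1}.Finite := by
  refine ((WrA_sq_finite n l).union (Set.finite_singleton v)).subset ?_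
  intro u hu
  by_contra hcon
  simp only [Set.mem_union, Set.mem_ofPred_eq, Set.mem_singleton_iff, not_or, not_not] at hcon
  apply hu
  rw [Pi.mul_apply, hcon.1, Pi.mulSingle_eq_of_ne hcon.2, mul_one]

theorem WrA_mk (f : P → F2) (z : ℤ × ℤ) :
    (⟨f, Multiplicative.ofAdd z⟩ : W) = lp f * tr z := by
  apply WrA_ext
  · show f = f * fun _ => 1
    ext; simp
  · exact (one_mul _).symm

theorem tup_mem (n j : ℕ) : tup n j ∈ A := by
  match j with
  | 0 =>
    show (⟨sq n (cc 0), Multiplicative.ofAdd (1, 0)⟩ : W) ∈ A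
    rw [WrA_mk]
    exact A.mul_mem (WrA_lp_mem _ (WrA_sq_finite n _)) (tr_mem _)
  | 1 =>
    show (⟨sq n (cc 1), Multiplicative.ofAdd (0, 1)⟩ : W) ∈ A
    rw [WrA_mk]
    exact A.mul_mem (WrA_lp_mem _ (WrA_sq_finite n _)) (tr_mem _)
  | 2 => exact WrA_lp_mem _ (WrA_sq_mul_finite n _ _ _)
  | 3 => exact WrA_lp_mem _ (WrA_sq_mul_finite n _ _ _)
  | j + 4 => exact WrA_lp_mem _ (WrA_sq_finite n _)

end FComp
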